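import Pool.Agent.Helper96.TO.Sim

/-!
# Project TO (MP_0f6f3f_an): the `sl(2)` and the simple algebra which commutes with its Cartan element

`simSl2_of_simple`: `L` simple, `A` a maximal abelian subspace of the `-1`-eigenspace of the Cartan involution, `dim A ≥ 2`, the restricted root system not of type `A`: then `SimSl2 G (dim A)` for the closed groups `G` between the adjoint group and `Aut(L)`.
PROOF. `cartan_el` (file Red) gives `T = β^∨` or `β^∨ + γ^∨`; the simple algebra is generated by the root spaces of the roots orthogonal to `T` (file Sim).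
-/

set_option autoImplicit false

open Matrix

namespace Pool.Agent.Helper96.TO

open Pool.Agent.Helper96.SA Pool.Agent.Helper43.TA

section Mat

variable {N : ℕ} {G : Subgroup (GL (Fin N) ℝ)} {V : Submodule ℝ (Mat N)}

/-- There are finitely many roots. -/
theorem rt_finite (hV : IsFlat G V) : (Rt G V).Finite := by
  obtain ⟨O, h1, h2, hdiag⟩ := simDiag (V : Set (Mat N)) hV.symm hV.comm
  have hd : ∀ H ∈ V, H = O * diagonal (fun i => cf O i H) * Oᵀ := by
    intro H hH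
    obtain ⟨d, hd⟩ := hdiag H hH
    have e : (fun i => cf O i H) = d := by
      funext i
      show (Oᵀ * H * O) i i = d i
      have e1 : Oᵀ * H * O = diagonal d := by
        rw [hd]
        calc Oᵀ * (O * diagonal d * Oᵀ) * O = (Oᵀ * O) * diagonal d * (Oᵀ * O) := by simp only [Matrix.mul_assoc]
          _ = diagonal d := by rw [h1, Matrix.one_mul, Matrix.mul_one]
      rw [e1, diagonal_apply_eq]
    rw [e]
    exact hd
  have hcomm : ∀ H ∈ V, ∀ (Y : Mat N) (i j : Fin N), (Oᵀ * (H * Y - Y * H) * O) i j = (cf O i H - cf O j H) * (Oᵀ * Y * O) i j := by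
    intro H hH Y i j
    have := hat_comm h1 (d := fun i => cf O i H) Y i j
    rwa [← hd H hH] at this
  let α : Fin N × Fin N → Module.Dual ℝ V := fun ij => (cf O ij.1 - cf O ij.2).domRestrict V
  have hα : ∀ ij (H : V), α ij H = cf O ij.1 (H : Mat N) - cf O ij.2 (H : Mat N) := fun ij H => rfl
  choose D hD using fun ij => fn_surjective hV.symm (α ij)
  refine (Set.finite_range fun ij => (D ij : Mat N)).subset ?_
  rintro C ⟨hCV, -, X, hX0, hX, hX1⟩
  obtain ⟨i, j, hij⟩ : ∃ i j, (Oᵀ * X * O) i j ≠ 0 := by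
    by_contra hcon
    push Not at hcon
    apply hX0
    apply hat_inj h2
    intro i j
    rw [hcon, Matrix.mul_zero, Matrix.zero_mul, Matrix.zero_apply]
  refine ⟨(i, j), ?_⟩
  have h3 : D (i, j) = ⟨C, hCV⟩ := by
    apply fn_injective hV.symm
    rw [hD]
    ext H
    rw [hα, fn_apply]
    have h4 := hcomm H H.2 X i j
    rw [hX1 H H.2, Matrix.mul_smul, Matrix.smul_mul, Matrix.smul_apply, smul_eq_mul] at h4
    exact (mul_right_cancel₀ hij h4).symm
  show (D (i, j) : Mat N) = C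
  rw [h3]

/-- The roots span `V`. -/
theorem rt_span (hG : IsClosed (G : Set (GL (Fin N) ℝ)))
    (hsemi : ∀ X ∈ lie G, Xᵀ = X → (∀ Y ∈ lie G, X * Y = Y * X) → X = 0) (hV : IsFlat G V) {H : Mat N} (hH : H ∈ V)
    (h : ∀ C ∈ Rt G V, (H * C).trace = 0) : H = 0 := by
  refine hsemi H (hV.mem H hH) (hV.symm H hH) fun Y hY => ?_
  have h1 := decomp hG hV hY
  refine Submodule.span_induction (p := fun Y _ => H * Y = Y * H) ?_ ?_ ?_ ?_ h1
  · rintro Z ⟨D, hD, hZ⟩
    rw [← sub_eq_zero, hZ.2 H hH]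
    rcases hZ.zero_or hD with h2 | h2 | h2
    · rw [h2, smul_zero]
    · rw [h2, Matrix.zero_mul, Matrix.trace_zero, zero_smul]
    · rw [Matrix.trace_mul_comm, h D h2, zero_smul]
  · rw [Matrix.mul_zero, Matrix.zero_mul]
  · intro X Y _ _ h1 h2
    rw [Matrix.mul_add, Matrix.add_mul, h1, h2]
  · intro c X _ h1
    rw [Matrix.mul_smul, Matrix.smul_mul, h1]

/-- roots as elements of the inner product space `V` -/
def RW (G : Subgroup (GL (Fin N) ℝ)) (V : Submodule ℝ (Mat N)) : Set (V.map (vec N)) :=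
  {w | (w : EuclideanSpace ℝ (Fin N × Fin N)) ∈ vec N '' Rt G V}

/-- elements of `V` as vectors -/
noncomputable def wv (V : Submodule ℝ (Mat N)) : V ≃ₗ[ℝ] V.map (vec N) :=
  Submodule.equivMapOfInjective (vec N) vec_injective V

theorem wv_coe (H : V) : ((wv V H : V.map (vec N)) : EuclideanSpace ℝ (Fin N × Fin N)) = vec N (H : Mat N) := rfl

theorem wv_inner (hV : IsFlat G V) (H K : V) : inner ℝ (wv V H) (wv V K) = ((H : Mat N) * (K : Mat N)).trace := by
  rw [Submodule.coe_inner, wv_coe, wv_coe, inner_vec (hV.symm _ H.2)]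

theorem wv_mem {H : V} : wv V H ∈ RW G V ↔ (H : Mat N) ∈ Rt G V := by
  unfold RW
  rw [Set.mem_ofPred_eq, wv_coe, vec_injective.mem_set_image]

theorem rs_rw (hG : IsClosed (G : Set (GL (Fin N) ℝ))) (ht : ∀ X ∈ lie G, Xᵀ ∈ lie G) (hV : IsFlat G V)
    (hmax : ∀ Y ∈ lie G, Yᵀ = Y → (∀ H ∈ V, Y * H = H * Y) → Y ∈ V) : RS (RW G V) := by
  have hR := rs_rt hG ht hV hmax
  constructor
  · intro a ha h
    refine hR.ne _ ha ?_
    rw [h]
    rfl
  · intro a ha b hb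
    obtain ⟨n, h1, h2⟩ := hR.refl _ ha _ hb
    exact ⟨n, h1, h2⟩

theorem rw_finite (hV : IsFlat G V) : (RW G V).Finite :=
  ((rt_finite hV).image (vec N)).preimage Subtype.val_injective.injOn

theorem irr_rw (h : Irr (vec N '' Rt G V)) : Irr (RW G V) := by
  intro S hS hne hort
  have hsub : Subtype.val '' S ⊆ vec N '' Rt G V := by
    rintro _ ⟨w, hw, rfl⟩
    exact hS hw
  have h1 := h (Subtype.val '' S) hsub (hne.image _) ?_
  · refine Set.Subset.antisymm hS fun w hw => ?_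
    have h2 : (w : EuclideanSpace ℝ (Fin N × Fin N)) ∈ Subtype.val '' S := by
      rw [h1]
      exact hw
    obtain ⟨w', hw', h3⟩ := h2
    rwa [← Subtype.ext h3]
  · rintro _ ⟨a, ha, rfl⟩ b hb hbS
    obtain ⟨C, hC, rfl⟩ := hb
    have h2 := hort a ha (wv V ⟨C, hC.1⟩) (wv_mem.2 hC) fun h3 => hbS ⟨_, h3, rfl⟩
    exact h2

theorem span_rw (hG : IsClosed (G : Set (GL (Fin N) ℝ)))
    (hsemi : ∀ X ∈ lie G, Xᵀ = X → (∀ Y ∈ lie G, X * Y = Y * X) → X = 0) (hV : IsFlat G V) (v : V.map (vec N))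
    (h : ∀ a ∈ RW G V, inner ℝ v a = 0) : v = 0 := by
  obtain ⟨H, rfl⟩ := (wv V).surjective v
  have h1 : (H : Mat N) = 0 := rt_span hG hsemi hV H.2 fun C hC => by
    have h2 := h (wv V ⟨C, hC.1⟩) (wv_mem.2 hC)
    rw [wv_inner hV] at h2
    exact h2
  have h2 : H = 0 := Subtype.ext h1
  rw [h2, map_zero]

/-- type `A` is preserved by injective linear maps. -/
theorem IsTypeA.image {E F : Type*} [AddCommGroup E] [Module ℝ E] [AddCommGroup F] [Module ℝ F] {R : Set E} (h : IsTypeA R)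
    (e : E →ₗ[ℝ] F) (he : Function.Injective e) : IsTypeA (e '' R) := by
  obtain ⟨S, hS, rfl⟩ := h
  have h1 := (hS.map' e.toAffineMap he).range
  have h2 : Set.range (e.toAffineMap ∘ fun s : S => (s : E)) = e '' S := by
    rw [Set.range_comp, Subtype.range_coe]
    rfl
  rw [h2] at h1
  refine ⟨e '' S, h1, ?_⟩
  ext y
  constructor
  · rintro ⟨_, ⟨a, ha, b, hb, hab, rfl⟩, rfl⟩
    exact ⟨e a, ⟨a, ha, rfl⟩, e b, ⟨b, hb, rfl⟩, he.ne hab, map_sub _ _ _⟩
  · rintro ⟨_, ⟨a, ha, rfl⟩, _, ⟨b, hb, rfl⟩, hab, rfl⟩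
    exact ⟨a - b, ⟨a, ha, b, hb, fun h => hab (by rw [h]), rfl⟩, map_sub _ _ _⟩

/-- A root vector `X` with `[X, Xᵀ]` the coroot. -/
theorem exists_sl2 (hG : IsClosed (G : Set (GL (Fin N) ℝ))) (ht : ∀ X ∈ lie G, Xᵀ ∈ lie G) (hV : IsFlat G V)
    (hmax : ∀ Y ∈ lie G, Yᵀ = Y → (∀ H ∈ V, Y * H = H * Y) → Y ∈ V) {B : Mat N} (hB : B ∈ Rt G V) :
    ∃ X, Wt G V B X ∧ X * Xᵀ - Xᵀ * X = (2 / (B * B).trace) • B := by
  obtain ⟨hBV, hB0, X, hX0, hX⟩ := hB
  have p1 := trace_self_pos (hV.symm _ hBV) hB0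
  have p2 := trace_mul_transpose_pos hX0
  obtain ⟨c, hc⟩ : ∃ c : ℝ, c = Real.sqrt (2 / ((B * B).trace * (X * Xᵀ).trace)) := ⟨_, rfl⟩
  have hc2 : c * c = 2 / ((B * B).trace * (X * Xᵀ).trace) := by
    rw [hc]
    exact Real.mul_self_sqrt (by positivity)
  refine ⟨c • X, hX.smul hG c, ?_⟩
  have h1 : (c • X) * (c • X)ᵀ - (c • X)ᵀ * (c • X) = (c * c) • (X * Xᵀ - Xᵀ * X) := by
    rw [Matrix.transpose_smul, Matrix.smul_mul, Matrix.mul_smul, Matrix.smul_mul, Matrix.mul_smul, smul_sub, mul_smul, mul_smul]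
  rw [h1, coroot hG ht hV hmax hBV hX, smul_smul, hc2]
  congr 1
  field_simp

theorem cross_zero (hG : IsClosed (G : Set (GL (Fin N) ℝ))) {B C X Y : Mat N} (hB : B ∈ V) (hC : C ∈ V)
    (hX : Wt G V B X) (hY : Wt G V (-C) Y) (h0 : B - C ≠ 0) (h : B - C ∉ Rt G V) : X * Y - Y * X = 0 := by
  have h1 := hX.bracket hG hY
  rw [← sub_eq_add_neg] at h1
  rcases h1.zero_or (V.sub_mem hB hC) with h2 | h2 | h2
  · exact h2
  · exact absurd h2 h0
  · exact absurd h2 h

theorem add_mem_lie (hG : IsClosed (G : Set (GL (Fin N) ℝ))) {X Y : Mat N} (hX : X ∈ lie G) (hY : Y ∈ lie G) : X + Y ∈ lie G := by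
  obtain ⟨L, hL⟩ := lie_submodule hG
  rw [← hL] at hX hY ⊢
  exact L.add_mem hX hY

/-- The `sl(2)` with Cartan element `T`. -/
theorem exists_X (hG : IsClosed (G : Set (GL (Fin N) ℝ))) (ht : ∀ X ∈ lie G, Xᵀ ∈ lie G) (hV : IsFlat G V)
    (hmax : ∀ Y ∈ lie G, Yᵀ = Y → (∀ H ∈ V, Y * H = H * Y) → Y ∈ V) {t : Mat N}
    (h : ∃ B ∈ Rt G V, t = (2 / (B * B).trace) • B ∨ ∃ C ∈ Rt G V, (B * C).trace = 0 ∧ B + C ∉ Rt G V ∧ B - C ∉ Rt G V ∧
      t = (2 / (B * B).trace) • B + (2 / (C * C).trace) • C) :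
    ∃ X ∈ lie G, X ≠ 0 ∧ X * Xᵀ - Xᵀ * X = t ∧ t * X - X * t = (2 : ℝ) • X := by
  obtain ⟨B, hB, h⟩ := h
  obtain ⟨X, hX, hX2⟩ := exists_sl2 hG ht hV hmax hB
  have pB := trace_self_pos (hV.symm _ hB.1) hB.2.1
  -- nonzero
  have hne : ∀ Z : Mat N, Z * Zᵀ - Zᵀ * Z = t → (B * t).trace = 2 → Z ≠ 0 := by
    intro Z h1 h2 h3
    rw [h3, Matrix.zero_mul, Matrix.mul_zero, sub_zero] at h1
    rw [← h1, Matrix.mul_zero, Matrix.trace_zero] at h2
    norm_num at h2
  have hst : ∀ c : ℝ, ∀ D E : Mat N, (D * (c • E)).trace = c * (D * E).trace := by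
    intro c D E
    rw [Matrix.mul_smul, Matrix.trace_smul, smul_eq_mul]
  rcases h with rfl | ⟨C, hC, hBC, h1, h2, rfl⟩
  · have e1 : (B * ((2 / (B * B).trace) • B)).trace = 2 := by
      rw [hst]
      exact div_mul_cancel₀ _ pB.ne'
    refine ⟨X, hX.1, hne X hX2 e1, hX2, ?_⟩
    rw [hX.2 _ (V.smul_mem _ hB.1), e1]
  · obtain ⟨Y, hY, hY2⟩ := exists_sl2 hG ht hV hmax hC
    have pC := trace_self_pos (hV.symm _ hC.1) hC.2.1
    have e1 : (B * ((2 / (B * B).trace) • B + (2 / (C * C).trace) • C)).trace = 2 := by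
      rw [Matrix.mul_add, Matrix.trace_add, hst, hst, hBC, mul_zero, add_zero]
      exact div_mul_cancel₀ _ pB.ne'
    have e2 : (C * ((2 / (B * B).trace) • B + (2 / (C * C).trace) • C)).trace = 2 := by
      rw [Matrix.mul_add, Matrix.trace_add, hst, hst, Matrix.trace_mul_comm C B, hBC, mul_zero, zero_add]
      exact div_mul_cancel₀ _ pC.ne'
    have h3 : B - C ≠ 0 := by
      intro h4
      rw [sub_eq_zero] at h4
      rw [← h4] at hBC
      exact pB.ne' hBC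
    have h4 := cross_zero hG hB.1 hC.1 hX (hY.transpose ht hV.symm) h3 h2
    have h5 : Y * Xᵀ - Xᵀ * Y = 0 := by
      have := congrArg Matrix.transpose h4
      rw [Matrix.transpose_sub, Matrix.transpose_mul, Matrix.transpose_mul, Matrix.transpose_transpose, Matrix.transpose_zero] at this
      exact this
    have h6 : (X + Y) * (X + Y)ᵀ - (X + Y)ᵀ * (X + Y) = (2 / (B * B).trace) • B + (2 / (C * C).trace) • C := by
      rw [← hX2, ← hY2, Matrix.transpose_add]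
      have h7 : (X + Y) * (Xᵀ + Yᵀ) - (Xᵀ + Yᵀ) * (X + Y) =
          (X * Xᵀ - Xᵀ * X) + (Y * Yᵀ - Yᵀ * Y) + ((X * Yᵀ - Yᵀ * X) + (Y * Xᵀ - Xᵀ * Y)) := by
        noncomm_ring
      rw [h7, h4, h5, add_zero, add_zero]
    refine ⟨X + Y, add_mem_lie hG hX.1 hY.1, hne _ h6 e1, h6, ?_⟩
    have ht' : (2 / (B * B).trace) • B + (2 / (C * C).trace) • C ∈ V := V.add_mem (V.smul_mem _ hB.1) (V.smul_mem _ hC.1)
    have k1 := hX.2 _ ht'
    have k2 := hY.2 _ ht'
    rw [e1] at k1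
    rw [e2] at k2
    rw [smul_add, ← k1, ← k2, Matrix.mul_add, Matrix.add_mul _ _ ((2 / (B * B).trace) • B + (2 / (C * C).trace) • C)]
    abel

/-- The `sl(2)` and the simple algebra, for matrix groups. -/
theorem simSl2_of_irr (hG : IsClosed (G : Set (GL (Fin N) ℝ))) (ht : ∀ X ∈ lie G, Xᵀ ∈ lie G)
    (hsemi : ∀ X ∈ lie G, Xᵀ = X → (∀ Y ∈ lie G, X * Y = Y * X) → X = 0) (hV : IsFlat G V)
    (hmax : ∀ Y ∈ lie G, Yᵀ = Y → (∀ H ∈ V, Y * H = H * Y) → Y ∈ V) (h2 : 2 ≤ Module.finrank ℝ V)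
    (hirr : Irr (vec N '' Rt G V)) (hA : ¬ IsTypeA (RW G V)) : SimSl2 G (Module.finrank ℝ V) := by
  obtain ⟨T, hT, hne, hPi, hPs⟩ := cartan_el (rs_rw hG ht hV hmax) (rw_finite hV) (irr_rw hirr) (span_rw hG hsemi hV)
    (by rw [← (wv V).finrank_eq]; exact h2) hA
  obtain ⟨t, rfl⟩ := (wv V).surjective T
  -- the `sl(2)`
  obtain ⟨X, hX, hX0, hXt, hX2⟩ : ∃ X ∈ lie G, X ≠ 0 ∧ X * Xᵀ - Xᵀ * X = (t : Mat N) ∧
      (t : Mat N) * X - X * (t : Mat N) = (2 : ℝ) • X := by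
    apply exists_X hG ht hV hmax
    obtain ⟨β, hβ, h3⟩ := hT
    obtain ⟨B, rfl⟩ := (wv V).surjective β
    refine ⟨B, wv_mem.1 hβ, ?_⟩
    rw [wv_inner hV] at h3
    rcases h3 with h3 | ⟨γ, hγ, h4, h5, h6, h3⟩
    · left
      rw [← map_smul] at h3
      rw [(wv V).injective h3]
      rfl
    · right
      obtain ⟨C, rfl⟩ := (wv V).surjective γ
      rw [wv_inner hV] at h4 h3
      rw [← map_add, wv_mem] at h5
      rw [← map_sub, wv_mem] at h6
      rw [← map_smul, ← map_smul, ← map_add] at h3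
      refine ⟨C, wv_mem.1 hγ, h4, h5, h6, ?_⟩
      rw [(wv V).injective h3]
      rfl
  -- the roots orthogonal to `t`
  obtain ⟨S, hS⟩ : ∃ S : Set (Mat N), S = {C | C ∈ Rt G V ∧ (C * (t : Mat N)).trace = 0} := ⟨_, rfl⟩
  have hSP : ∀ C : V, (C : Mat N) ∈ S ↔ wv V C ∈ Perp (RW G V) (wv V t) := by
    intro C
    rw [hS]
    constructor
    · rintro ⟨h3, h4⟩
      exact ⟨wv_mem.2 h3, by rw [wv_inner hV]; exact h4⟩
    · rintro ⟨h3, h4⟩
      rw [wv_inner hV] at h4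
      exact ⟨wv_mem.1 h3, h4⟩
  have hSR : S ⊆ Rt G V := fun C hC => by rw [hS] at hC; exact hC.1
  have hSV : ∀ C ∈ S, C ∈ V := fun C hC => (hSR hC).1
  have hSt : ∀ C ∈ S, (C * (t : Mat N)).trace = 0 := fun C hC => by rw [hS] at hC; exact hC.2
  have hClo : Clo G V S := by
    refine ⟨hSR, fun C hC => ?_, fun C hC D hD h3 => ?_⟩
    · have h3 := hSR hC
      obtain ⟨h4, h5, Y, hY0, hY⟩ := h3
      rw [hS]
      refine ⟨⟨V.neg_mem h4, neg_ne_zero.2 h5, Yᵀ, fun h6 => hY0 ?_, hY.transpose ht hV.symm⟩, ?_⟩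
      · rw [← Matrix.transpose_transpose Y, h6, Matrix.transpose_zero]
      · rw [Matrix.neg_mul, Matrix.trace_neg, hSt C hC, neg_zero]
    · rw [hS]
      refine ⟨h3, ?_⟩
      rw [Matrix.add_mul, Matrix.trace_add, hSt C hC, hSt D hD, add_zero]
  have hSne : S.Nonempty := by
    obtain ⟨w, hw⟩ := hne
    obtain ⟨C, rfl⟩ := (wv V).surjective w
    exact ⟨C, (hSP C).2 hw⟩
  have hSirr : IrrS S := by
    intro A hA1 hA2 hA3
    have h3 := hPi {w | ∃ C : V, (C : Mat N) ∈ A ∧ wv V C = w} ?_ ?_ ?_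
    · refine Set.Subset.antisymm hA1 fun C hC => ?_
      have h4 : wv V ⟨C, hSV C hC⟩ ∈ Perp (RW G V) (wv V t) := (hSP ⟨C, hSV C hC⟩).1 hC
      rw [← h3] at h4
      obtain ⟨D, hD, h5⟩ := h4
      have h6 := (wv V).injective h5
      rw [h6] at hD
      exact hD
    · rintro _ ⟨C, hC, rfl⟩
      exact (hSP C).1 (hA1 hC)
    · obtain ⟨C, hC⟩ := hA2
      exact ⟨wv V ⟨C, hSV C (hA1 hC)⟩, ⟨C, hSV C (hA1 hC)⟩, hC, rfl⟩
    · rintro _ ⟨C, hC, rfl⟩ w hw hwA
      obtain ⟨D, rfl⟩ := (wv V).surjective w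
      rw [wv_inner hV]
      exact hA3 C hC D ((hSP D).2 hw) fun h4 => hwA ⟨D, h4, rfl⟩
  have hspanV : Submodule.span ℝ S ≤ V := Submodule.span_le.2 hSV
  have hcen : ∀ H ∈ V, ∃ H₀ ∈ Submodule.span ℝ S, ∀ C ∈ S, (C * (H - H₀)).trace = 0 := by
    intro H hH
    obtain ⟨H₀, hH₀, h3⟩ := exists_decomp (Submodule.span ℝ S) H
    refine ⟨H₀, hH₀, fun C hC => ?_⟩
    have h4 := h3 C (Submodule.subset_span hC)
    rwa [hV.symm _ (V.sub_mem hH (hspanV hH₀))] at h4
  have hsim := isSim_gens hG ht hV hmax hClo hSne hSirr hcen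
  have hsub := lsub_gens hG ht hV hClo
  -- the flat
  have hroot : ∀ C ∈ S, C ∈ Submodule.span ℝ (gens G V S) := by
    intro C hC
    obtain ⟨-, -, Y, hY0, hY⟩ := hSR hC
    have h1 := hsub.brk Y (Submodule.subset_span (Or.inl ⟨C, hC, hY⟩)) Yᵀ
      (hsub.tr Y (Submodule.subset_span (Or.inl ⟨C, hC, hY⟩)))
    rw [coroot hG ht hV hmax (hSV C hC) hY] at h1
    have h2 := (Submodule.span ℝ (gens G V S)).smul_mem (Y * Yᵀ).trace⁻¹ h1
    rwa [smul_smul, inv_mul_cancel₀ (trace_mul_transpose_pos hY0).ne', one_smul] at h2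
  have hVle : V ≤ Submodule.span ℝ S ⊔ Submodule.span ℝ {(t : Mat N)} := by
    intro H hH
    obtain ⟨H₁, hH₁, h3⟩ := exists_decomp (Submodule.span ℝ S ⊔ Submodule.span ℝ {(t : Mat N)}) H
    have hle : Submodule.span ℝ S ⊔ Submodule.span ℝ {(t : Mat N)} ≤ V :=
      sup_le hspanV (Submodule.span_le.2 (by rintro _ rfl; exact t.2))
    have hd : H - H₁ ∈ V := V.sub_mem hH (hle hH₁)
    have h4 : (⟨H - H₁, hd⟩ : V) = 0 := by
      apply (wv V).injective
      rw [map_zero]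
      apply hPs
      · rw [wv_inner hV, Matrix.trace_mul_comm]
        have h5 := h3 (t : Mat N) (Submodule.mem_sup_right (Submodule.mem_span_singleton_self _))
        rwa [hV.symm _ hd] at h5
      · intro α hα
        obtain ⟨C, rfl⟩ := (wv V).surjective α
        rw [wv_inner hV, Matrix.trace_mul_comm]
        have h5 := h3 (C : Mat N) (Submodule.mem_sup_left (Submodule.subset_span ((hSP C).2 hα)))
        rwa [hV.symm _ hd] at h5
    have h5 : H - H₁ = 0 := congrArg Subtype.val h4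
    rw [sub_eq_zero.1 h5]
    exact hH₁
  refine ⟨X, hX, hX0, ⟨2, two_pos, by rw [hXt]; exact hX2⟩, _, hsub, hsim, ?_, Submodule.span ℝ S, ⟨?_, ?_, ?_⟩, ?_⟩
  · -- `t` commutes with the simple algebra
    rw [hXt]
    have hg : ∀ C ∈ S, ∀ Y D, D = C ∨ D = -C → Wt G V D Y → (t : Mat N) * Y = Y * (t : Mat N) := by
      intro C hC Y D hD hY
      rw [← sub_eq_zero, hY.2 _ t.2]
      have h3 : (D * (t : Mat N)).trace = 0 := by
        rcases hD with rfl | rfl
        · exact hSt _ hC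
        · rw [Matrix.neg_mul, Matrix.trace_neg, hSt C hC, neg_zero]
      rw [h3, zero_smul]
    intro Y hY
    refine Submodule.span_induction (p := fun Y _ => (t : Mat N) * Y = Y * (t : Mat N)) ?_ ?_ ?_ ?_ hY
    · rintro Y (⟨C, hC, hY⟩ | ⟨C, hC, Y, Z, hY, hZ, rfl⟩)
      · exact hg C hC Y C (Or.inl rfl) hY
      · have h3 := hg C hC Y C (Or.inl rfl) hY
        have h4 := hg C hC Z (-C) (Or.inr rfl) hZ
        have k1 : (t : Mat N) * (Y * Z) = Y * Z * (t : Mat N) := by rw [← Matrix.mul_assoc, h3, Matrix.mul_assoc, h4, Matrix.mul_assoc]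
        have k2 : (t : Mat N) * (Z * Y) = Z * Y * (t : Mat N) := by rw [← Matrix.mul_assoc, h4, Matrix.mul_assoc, h3, Matrix.mul_assoc]
        rw [Matrix.mul_sub, Matrix.sub_mul, k1, k2]
    · rw [Matrix.mul_zero, Matrix.zero_mul]
    · intro X Y _ _ h1 h2
      rw [Matrix.mul_add, Matrix.add_mul, h1, h2]
    · intro c X _ h1
      rw [Matrix.mul_smul, Matrix.smul_mul, h1]
  · exact Submodule.span_le.2 hroot
  · exact fun X hX => hV.symm _ (hspanV hX)
  · exact fun X hX Y hY => hV.comm _ (hspanV hX) _ (hspanV hY)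
  · calc Module.finrank ℝ V ≤ Module.finrank ℝ (Submodule.span ℝ S ⊔ Submodule.span ℝ {(t : Mat N)} : Submodule ℝ (Mat N)) :=
          Submodule.finrank_mono hVle
      _ ≤ Module.finrank ℝ (Submodule.span ℝ S) + Module.finrank ℝ (Submodule.span ℝ {(t : Mat N)}) :=
          Submodule.finrank_add_le_finrank_add_finrank _ _
      _ ≤ Module.finrank ℝ (Submodule.span ℝ S) + 1 := by
          have h3 : Module.finrank ℝ (Submodule.span ℝ {(t : Mat N)}) ≤ 1 :=
            (finrank_span_le_card ({(t : Mat N)} : Set (Mat N))).trans (by simp)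
          omega

end Mat

section Simple

variable {L : Type} [LieRing L] [LieAlgebra ℝ L] {N : ℕ}

/-- A simple Lie algebra of real rank at least `2` whose restricted root system is not of type `A`. -/
theorem simSl2_of_simple (hs : LieAlgebra.IsSimple ℝ L) {θ : L ≃ₗ⁅ℝ⁆ L} {b : Module.Basis (Fin N) ℝ L} (h : CartanBasis θ b)
    {G : Subgroup (GL (Fin N) ℝ)} (hG : IsAdj b G) {A : Submodule ℝ L} (hA : MaxFlat θ A) (h2 : 2 ≤ Module.finrank ℝ A)
    (hnA : ¬ IsTypeA (rootsL A)) : SimSl2 G (Module.finrank ℝ A) := by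
  have hSA := selfAdj_of_aut h hG
  have hr : Module.finrank ℝ (A.map (TT_to b)) = Module.finrank ℝ A := finrank_map_to (TT_inj_to h) A
  rw [← hr]
  refine simSl2_of_irr hSA.closed (fun X hX => lie_transpose hSA hX) hSA.semi (isFlat_map h hG hA) (max_map h hG hA)
    (by rw [hr]; exact h2) (irr_of_simple hs h hG hA) fun hcon => hnA ?_
  -- transport
  have hV := isFlat_map h hG hA
  let E : Module.Dual ℝ (A.map (TT_to b)) ≃ₗ[ℝ] Module.Dual ℝ A := dualE h A
  let F : A.map (TT_to b) ≃ₗ[ℝ] Module.Dual ℝ (A.map (TT_to b)) :=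
    LinearEquiv.ofBijective (fn (A.map (TT_to b))) ⟨fn_injective hV.symm, fn_surjective hV.symm⟩
  let e : (A.map (TT_to b)).map (vec N) ≃ₗ[ℝ] Module.Dual ℝ A := (wv (A.map (TT_to b))).symm.trans (F.trans E)
  have h3 := hcon.image e.toLinearMap e.injective
  have h4 : e.toLinearMap '' RW G (A.map (TT_to b)) = rootsL A := by
    ext φ
    have h5 : ∀ w : (A.map (TT_to b)).map (vec N), e w ∈ rootsL A ↔ w ∈ RW G (A.map (TT_to b)) := by
      intro w
      obtain ⟨C, rfl⟩ := (wv (A.map (TT_to b))).surjective w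
      have h6 : e (wv (A.map (TT_to b)) C) = dualE h A (fn (A.map (TT_to b)) C) := by
        show E (F ((wv (A.map (TT_to b))).symm (wv (A.map (TT_to b)) C))) = _
        rw [LinearEquiv.symm_apply_apply]
        rfl
      rw [h6, dualE_roots h hG, droots_iff hV.symm, wv_mem]
    constructor
    · rintro ⟨w, hw, rfl⟩
      exact (h5 w).2 hw
    · intro hφ
      obtain ⟨w, rfl⟩ := e.surjective φ
      exact ⟨w, (h5 w).1 hφ, rfl⟩
  rwa [h4] at h3

end Simple

end Pool.Agent.Helper96.TO
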