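import Pool.Agent.Helper96.TO.Two

/-!
# Project TO (MP_0f6f3f_an): two commuting rank one subgroups, or type `A_2`

`droots G V`: the restricted roots, as linear functionals on `V`. `comm2_or_A2`: if `dim V ≥ 2` then `Comm2 G`, or the restricted root system is of type `A_2`.
-/

set_option autoImplicit false

open Matrix Topology Filter

namespace Pool.Agent.Helper96.TO

open Pool.Agent.Helper96.FR Pool.Agent.Helper96.SA

variable {N : ℕ} {G : Subgroup (GL (Fin N) ℝ)}

/-- The restricted roots. -/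
def droots (G : Subgroup (GL (Fin N) ℝ)) (V : Submodule ℝ (Mat N)) : Set (Module.Dual ℝ V) :=
  {φ | φ ≠ 0 ∧ ∃ X ∈ lie G, X ≠ 0 ∧ ∀ H : V, (H : Mat N) * X - X * (H : Mat N) = φ H • X}

/-- the functional of an element of `V` -/
noncomputable def fn (V : Submodule ℝ (Mat N)) : V →ₗ[ℝ] Module.Dual ℝ V where
  toFun C :=
    { toFun := fun H => ((C : Mat N) * (H : Mat N)).trace
      map_add' := fun H K => by rw [Submodule.coe_add, Matrix.mul_add, Matrix.trace_add]
      map_smul' := fun c H => by rw [Submodule.coe_smul, Matrix.mul_smul, Matrix.trace_smul, RingHom.id_apply] }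
  map_add' C D := by
    ext H
    change (((C + D : V) : Mat N) * (H : Mat N)).trace = ((C : Mat N) * (H : Mat N)).trace + ((D : Mat N) * (H : Mat N)).trace
    rw [Submodule.coe_add, Matrix.add_mul, Matrix.trace_add]
  map_smul' c C := by
    ext H
    change (((c • C : V) : Mat N) * (H : Mat N)).trace = c • ((C : Mat N) * (H : Mat N)).trace
    rw [Submodule.coe_smul, Matrix.smul_mul, Matrix.trace_smul]

theorem fn_apply {V : Submodule ℝ (Mat N)} (C H : V) : fn V C H = ((C : Mat N) * (H : Mat N)).trace := rfl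

theorem fn_injective {V : Submodule ℝ (Mat N)} (hs : ∀ X ∈ V, Xᵀ = X) : Function.Injective (fn V) := by
  rw [injective_iff_map_eq_zero]
  intro C hC
  by_contra hne
  have h1 := trace_self_pos (hs _ C.2) (fun h => hne (Subtype.ext h))
  have h2 : fn V C C = 0 := by rw [hC]; rfl
  rw [fn_apply] at h2
  exact h1.ne' h2

theorem fn_surjective {V : Submodule ℝ (Mat N)} (hs : ∀ X ∈ V, Xᵀ = X) : Function.Surjective (fn V) := by
  refine (LinearMap.injective_iff_surjective_of_finrank_eq_finrank ?_).1 (fn_injective hs)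
  exact (Subspace.dual_finrank_eq).symm

theorem droots_iff {V : Submodule ℝ (Mat N)} (hs : ∀ X ∈ V, Xᵀ = X) (C : V) :
    fn V C ∈ droots G V ↔ (C : Mat N) ∈ Rt G V := by
  constructor
  · rintro ⟨h0, X, hX, hX0, h1⟩
    refine ⟨C.2, fun h => h0 ?_, X, hX0, hX, fun H hH => h1 ⟨H, hH⟩⟩
    have : C = 0 := Subtype.ext h
    rw [this, map_zero]
  · rintro ⟨-, h0, X, hX0, hX, h1⟩
    refine ⟨fun h => h0 ?_, X, hX, hX0, fun H => h1 H H.2⟩
    have : C = 0 := fn_injective hs (by rw [h, map_zero])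
    rw [this]
    rfl

/-- Matrices as vectors of a Euclidean space. -/
noncomputable def vec (N : ℕ) : Mat N →ₗ[ℝ] EuclideanSpace ℝ (Fin N × Fin N) where
  toFun A := WithLp.toLp 2 fun ij => A ij.1 ij.2
  map_add' A B := by
    ext ij
    rfl
  map_smul' c A := by
    ext ij
    rfl

theorem vec_injective : Function.Injective (vec N) := by
  intro A B h
  ext i j
  exact congrFun (congrArg WithLp.ofLp h) (i, j)

theorem inner_vec {A B : Mat N} (hA : Aᵀ = A) : inner ℝ (vec N A) (vec N B) = (A * B).trace := by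
  rw [EuclideanSpace.inner_eq_star_dotProduct]
  change (fun ij : Fin N × Fin N => B ij.1 ij.2) ⬝ᵥ star (fun ij : Fin N × Fin N => A ij.1 ij.2) = _
  unfold dotProduct
  rw [Fintype.sum_prod_type, Matrix.trace]
  rw [Finset.sum_comm]
  refine Finset.sum_congr rfl fun j _ => ?_
  rw [Matrix.diag_apply, Matrix.mul_apply]
  refine Finset.sum_congr rfl fun i _ => ?_
  change B i j * star (A i j) = A j i * B i j
  have : A j i = A i j := by
    conv_lhs => rw [← hA]
    rfl
  rw [this, star_trivial, mul_comm]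

theorem rs_rt (hG : IsClosed (G : Set (GL (Fin N) ℝ))) (ht : ∀ X ∈ lie G, Xᵀ ∈ lie G)
    {V : Submodule ℝ (Mat N)} (hV : IsFlat G V)
    (hmax : ∀ Y ∈ lie G, Yᵀ = Y → (∀ H ∈ V, Y * H = H * Y) → Y ∈ V) : RS (vec N '' Rt G V) := by
  constructor
  · rintro _ ⟨A, hA, rfl⟩ h
    exact hA.2.1 (vec_injective (by rw [h, map_zero]))
  · rintro _ ⟨A, hA, rfl⟩ _ ⟨B, hB, rfl⟩
    obtain ⟨n, h1, h2⟩ := rt_refl hG ht hV hmax hA hB
    refine ⟨n, ?_, _, h2, ?_⟩
    · rw [inner_vec (hV.symm _ hA.1), inner_vec (hV.symm _ hB.1)]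
      exact h1
    · rw [map_sub, map_smul]

/-- Either there are two commuting subgroups of rank one, or the restricted root system is of type `A_2`. -/
theorem comm2_or_A2 (hG : IsClosed (G : Set (GL (Fin N) ℝ))) (ht : ∀ X ∈ lie G, Xᵀ ∈ lie G)
    (hsemi : ∀ X ∈ lie G, Xᵀ = X → (∀ Y ∈ lie G, X * Y = Y * X) → X = 0)
    {V : Submodule ℝ (Mat N)} (hV : IsFlat G V)
    (hmax : ∀ Y ∈ lie G, Yᵀ = Y → (∀ H ∈ V, Y * H = H * Y) → Y ∈ V) (h2 : 2 ≤ Module.finrank ℝ V) :
    Comm2 G ∨ ∃ l m : Module.Dual ℝ V, (∀ c : ℝ, m ≠ c • l) ∧ SixOf (droots G V) l m := by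
  obtain ⟨H, X, hH, hX, hX0, hbr, hroot⟩ := exists_roots hG hsemi hV
  -- two roots which are not proportional
  have hC : ∀ i, ∃ C ∈ Rt G V, ∀ j, (C * H j).trace = if j = i then 1 else 0 := by
    intro i
    choose c hc using hroot i
    have hu : ∀ (H' : Mat N) (c₁ c₂ : ℝ), H' * X i - X i * H' = c₁ • X i → H' * X i - X i * H' = c₂ • X i → c₁ = c₂ := by
      intro H' c₁ c₂ e1 e2
      have h3 : (c₁ - c₂) • X i = 0 := by rw [sub_smul, ← e1, ← e2, sub_self]
      rcases smul_eq_zero.1 h3 with h4 | h4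
      · linarith
      · exact absurd h4 (hX0 i)
    let φ : Module.Dual ℝ V :=
      { toFun := fun K => c K K.2
        map_add' := fun K K' => by
          refine hu _ _ _ (hc _ (K + K').2) ?_
          rw [Submodule.coe_add, Matrix.add_mul, Matrix.mul_add, add_smul, ← hc, ← hc]
          abel
        map_smul' := fun a K => by
          refine hu _ _ _ (hc _ (a • K).2) ?_
          rw [Submodule.coe_smul, Matrix.smul_mul, Matrix.mul_smul, RingHom.id_apply, smul_eq_mul, mul_smul, ← hc, smul_sub] }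
    obtain ⟨C, hCφ⟩ := fn_surjective hV.symm φ
    have h3 : ∀ K : V, ((C : Mat N) * (K : Mat N)).trace = c K K.2 := fun K => by
      rw [← fn_apply, hCφ]
      rfl
    have h4 : ∀ j, ((C : Mat N) * H j).trace = if j = i then 1 else 0 := by
      intro j
      rw [h3 ⟨H j, hH j⟩]
      refine hu (H j) _ _ (hc _ (hH j)) ?_
      rw [hbr]
      split_ifs
      · rw [one_smul]
      · rw [zero_smul]
    refine ⟨C, ⟨C.2, ?_, X i, hX0 i, hX i, fun K hK => ?_⟩, h4⟩
    · intro h0
      have h5 := h4 i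
      rw [h0, Matrix.zero_mul, Matrix.trace_zero, if_pos rfl] at h5
      exact zero_ne_one h5
    · rw [h3 ⟨K, hK⟩]
      exact hc K hK
  choose C hCR hCH using hC
  have hR := rs_rt hG ht hV hmax
  let i0 : Fin (Module.finrank ℝ V) := ⟨0, by omega⟩
  let i1 : Fin (Module.finrank ℝ V) := ⟨1, by omega⟩
  have h01 : i0 ≠ i1 := by
    intro h
    have := congrArg Fin.val h
    simp [i0, i1] at this
  rcases hR.two_or_A2 (l₀ := vec N (C i0)) (m₀ := vec N (C i1)) ⟨_, hCR i0, rfl⟩ ⟨_, hCR i1, rfl⟩ (fun c hc => by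
    rw [← map_smul] at hc
    have h3 := vec_injective hc
    have h4 := hCH i1 i1
    rw [h3, Matrix.smul_mul, Matrix.trace_smul, hCH, if_pos rfl, if_neg h01.symm, smul_zero] at h4
    exact zero_ne_one h4) with h | h
  · left
    obtain ⟨_, ⟨A, hA, rfl⟩, _, ⟨B, hB, rfl⟩, h3, h4, h5⟩ := h
    rw [inner_vec (hV.symm _ hA.1)] at h3
    refine comm2_of_roots hG ht hV hmax hA hB h3 (fun h => h4 ⟨_, h, map_add _ _ _⟩) (fun h => h5 ⟨_, h, map_sub _ _ _⟩)
  · right
    obtain ⟨l, m, hlm, h3⟩ := h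
    have hl : l ∈ vec N '' Rt G V := by rw [h3]; exact Or.inl rfl
    have hm : m ∈ vec N '' Rt G V := by rw [h3]; exact Or.inr (Or.inr (Or.inl rfl))
    obtain ⟨A, hA, rfl⟩ := hl
    obtain ⟨B, hB, rfl⟩ := hm
    let A' : V := ⟨A, hA.1⟩
    let B' : V := ⟨B, hB.1⟩
    refine ⟨fn V A', fn V B', fun c hc => hlm c ?_, ?_⟩
    · rw [← map_smul] at hc
      have h4 := congrArg (fun K : V => (K : Mat N)) (fn_injective hV.symm hc)
      change B = c • A at h4
      rw [h4, map_smul]
    · unfold SixOf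
      ext φ
      obtain ⟨K, rfl⟩ := fn_surjective hV.symm φ
      rw [droots_iff hV.symm]
      have h4 : (K : Mat N) ∈ Rt G V ↔ vec N (K : Mat N) ∈ vec N '' Rt G V :=
        (vec_injective.mem_set_image).symm
      have h5 : ∀ D : V, vec N (K : Mat N) = vec N (D : Mat N) ↔ fn V K = fn V D := by
        intro D
        rw [vec_injective.eq_iff, (fn_injective hV.symm).eq_iff, Subtype.ext_iff]
      rw [h4, h3]
      have e1 := h5 A'
      have e2 := h5 (-A')
      have e3 := h5 B'
      have e4 := h5 (-B')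
      have e5 := h5 (A' + B')
      have e6 := h5 (-(A' + B'))
      simp only [map_neg, map_add, Submodule.coe_neg, Submodule.coe_add] at e1 e2 e3 e4 e5 e6
      simp only [Set.mem_insert_iff, Set.mem_singleton_iff]
      have f1 : ((A' : V) : Mat N) = A := rfl
      have f2 : ((B' : V) : Mat N) = B := rfl
      rw [f1] at e1 e2 e5 e6
      rw [f2] at e3 e4 e5 e6
      rw [e1, e2, e3, e4, e5, e6]

end Pool.Agent.Helper96.TO
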