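import Pool.Agent.Helper96.SA.Adj3
import Pool.Agent.Helper96.SA.Rank
import Pool.Agent.Helper96.TO.Flat

/-!
# Project TO (MP_0f6f3f_an): real Lie algebras

`MaxFlat θ A`: `A` is a maximal abelian subspace of `{x | θ x = -x}`. `rootsL A`: the restricted roots. `comm2_or_A2L`: if `dim A ≥ 2`, then the restricted root system is of type `A_2` or the closed groups between
the adjoint group and `Aut(L)` have two commuting subgroups of rank one.
-/

set_option autoImplicit false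

open Matrix

namespace Pool.Agent.Helper96.TO

open Pool.Agent.Helper96.SA

variable {L : Type} [LieRing L] [LieAlgebra ℝ L] {N : ℕ}

/-- `A` is a maximal abelian subspace of the `-1`-eigenspace of `θ`. -/
structure MaxFlat (θ : L ≃ₗ⁅ℝ⁆ L) (A : Submodule ℝ L) : Prop where
  neg : ∀ x ∈ A, θ x = -x
  abel : ∀ x ∈ A, ∀ y ∈ A, ⁅x, y⁆ = 0
  max : ∀ x : L, θ x = -x → (∀ y ∈ A, ⁅x, y⁆ = 0) → x ∈ A

/-- The restricted roots of `L` with respect to `A`: the nonzero linear functionals `φ` on `A` with a nonzero `x` such that `⁅h, x⁆ = φ h • x` for all `h ∈ A`. -/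
def rootsL (A : Submodule ℝ L) : Set (Module.Dual ℝ A) :=
  {φ | φ ≠ 0 ∧ ∃ x : L, x ≠ 0 ∧ ∀ h : A, ⁅(h : L), x⁆ = φ h • x}

theorem coord_to {θ : L ≃ₗ⁅ℝ⁆ L} {b : Module.Basis (Fin N) ℝ L} (h : CartanBasis θ b) (x : L) (i : Fin N) :
    b.repr x i = -killingForm ℝ L x (θ (b i)) := by
  conv_rhs => rw [← b.sum_repr x]
  simp only [map_sum, map_smul, LinearMap.sum_apply, LinearMap.smul_apply]
  rw [← Finset.sum_neg_distrib]
  have h1 : ∀ j, -(b.repr x j • killingForm ℝ L (b j) (θ (b i))) = b.repr x j * (if j = i then 1 else 0) := by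
    intro j
    rw [← h.orth j i, smul_eq_mul, mul_neg]
  simp only [h1]
  simp

theorem killing_to {θ : L ≃ₗ⁅ℝ⁆ L} {b : Module.Basis (Fin N) ℝ L} (h : CartanBasis θ b) :
    LieAlgebra.IsKilling ℝ L := by
  refine ⟨?_⟩
  rw [LieSubmodule.eq_bot_iff]
  intro x hx
  rw [LieIdeal.mem_killingCompl] at hx
  apply b.repr.injective
  ext i
  rw [coord_to h, LieModule.traceForm_comm, hx _ (LieSubmodule.mem_top _), neg_zero, map_zero]
  rfl

/-- the matrix of `ad x` -/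
noncomputable def TT_to (b : Module.Basis (Fin N) ℝ L) : L →ₗ[ℝ] Mat N :=
  (LinearMap.toMatrix b b).toLinearMap ∘ₗ (LieAlgebra.ad ℝ L : L →ₗ[ℝ] Module.End ℝ L)

theorem TT_apply_to (b : Module.Basis (Fin N) ℝ L) (x : L) :
    TT_to b x = LinearMap.toMatrix b b (LieAlgebra.ad ℝ L x) := rfl

theorem toLin_TT_to (b : Module.Basis (Fin N) ℝ L) (x y : L) :
    toLin b b (TT_to b x) y = ⁅x, y⁆ := by
  rw [TT_apply_to, Matrix.toLin_toMatrix, LieAlgebra.ad_apply]

theorem TT_inj_to {θ : L ≃ₗ⁅ℝ⁆ L} {b : Module.Basis (Fin N) ℝ L} (h : CartanBasis θ b) :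
    Function.Injective (TT_to b) := by
  intro x y hxy
  have hK := killing_to h
  have hF : Module.Finite ℝ L := Module.Finite.of_basis b
  have h1 : ∀ z : L, ⁅x, z⁆ = ⁅y, z⁆ := by
    intro z
    rw [← toLin_TT_to b x z, hxy, toLin_TT_to]
  have h2 : LieDerivation.ad ℝ L (x - y) = 0 := by
    ext z
    have h3 : (LieDerivation.ad ℝ L (x - y)) z = LieAlgebra.ad ℝ L (x - y) z := by
      rw [← LieDerivation.coe_ad_apply_eq_ad_apply]
      rfl
    rw [h3, LieAlgebra.ad_apply, sub_lie, h1, sub_self]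
    rfl
  exact sub_eq_zero.1 ((LieDerivation.IsKilling.ad_apply_eq_zero_iff ℝ L _).1 h2)

theorem TT_mem_to (b : Module.Basis (Fin N) ℝ L) (x : L) : TT_to b x ∈ lie (autG b) := by
  rw [lie_autG]
  intro y z
  rw [toLin_TT_to, toLin_TT_to, toLin_TT_to]
  exact leibniz_lie x y z

theorem TT_surj_to {θ : L ≃ₗ⁅ℝ⁆ L} {b : Module.Basis (Fin N) ℝ L} (h : CartanBasis θ b) {X : Mat N}
    (hX : X ∈ lie (autG b)) : ∃ x, TT_to b x = X := by
  have hK := killing_to h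
  have hF : Module.Finite ℝ L := Module.Finite.of_basis b
  rw [lie_autG] at hX
  let D : LieDerivation ℝ L L :=
    { toLin b b X with
      leibniz' := fun y z => by
        change toLin b b X ⁅y, z⁆ = ⁅y, toLin b b X z⁆ - ⁅z, toLin b b X y⁆
        rw [hX y z, ← lie_skew z (toLin b b X y)]
        abel }
  obtain ⟨x, hx⟩ := LieDerivation.IsKilling.exists_eq_ad D
  refine ⟨x, ?_⟩
  rw [TT_apply_to]
  have h1 : LieAlgebra.ad ℝ L x = toLin b b X := by
    ext z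
    have h2 : (LieDerivation.ad ℝ L x) z = D z := by rw [hx]
    rw [← LieDerivation.coe_ad_apply_eq_ad_apply]
    exact h2
  rw [h1, LinearMap.toMatrix_toLin]

theorem TT_transpose_to {θ : L ≃ₗ⁅ℝ⁆ L} {b : Module.Basis (Fin N) ℝ L} (h : CartanBasis θ b) (x : L) :
    (TT_to b x)ᵀ = -TT_to b (θ x) := by
  ext i j
  rw [Matrix.transpose_apply, Matrix.neg_apply, TT_apply_to, TT_apply_to, LinearMap.toMatrix_apply,
    LinearMap.toMatrix_apply, LieAlgebra.ad_apply, LieAlgebra.ad_apply, coord_to h, coord_to h, neg_neg]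
  have h1 : killingForm ℝ L ⁅θ x, b j⁆ (θ (b i)) = killingForm ℝ L ⁅x, θ (b j)⁆ (b i) := by
    rw [← LieAlgebra.killingForm_of_equiv_apply θ ⁅x, θ (b j)⁆ (b i), LieEquiv.map_lie, h.invol]
  have h2 : killingForm ℝ L ⁅x, b i⁆ (θ (b j)) = -killingForm ℝ L (b i) ⁅x, θ (b j)⁆ :=
    LieModule.traceForm_apply_lie_apply' ℝ L L x (b i) (θ (b j))
  rw [h1, h2, neg_neg, LieModule.traceForm_comm]

theorem TT_symm_iff_to {θ : L ≃ₗ⁅ℝ⁆ L} {b : Module.Basis (Fin N) ℝ L} (h : CartanBasis θ b) (x : L) :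
    (TT_to b x)ᵀ = TT_to b x ↔ θ x = -x := by
  rw [TT_transpose_to h]
  constructor
  · intro h1
    apply TT_inj_to h
    rw [map_neg, ← h1, neg_neg]
  · intro h1
    rw [h1, map_neg, neg_neg]

theorem TT_comm_iff_to {θ : L ≃ₗ⁅ℝ⁆ L} {b : Module.Basis (Fin N) ℝ L} (h : CartanBasis θ b) (x y : L) :
    TT_to b x * TT_to b y = TT_to b y * TT_to b x ↔ ⁅x, y⁆ = 0 := by
  have h1 : TT_to b ⁅x, y⁆ = TT_to b x * TT_to b y - TT_to b y * TT_to b x := by
    apply (Matrix.toLin b b).injective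
    refine LinearMap.ext fun z => ?_
    rw [toLin_TT_to, map_sub, LinearMap.sub_apply, toLin_mul b b b, toLin_mul b b b,
      LinearMap.comp_apply, LinearMap.comp_apply, toLin_TT_to, toLin_TT_to, toLin_TT_to,
      toLin_TT_to, lie_lie]
  rw [← sub_eq_zero, ← h1]
  constructor
  · intro h2
    apply TT_inj_to h
    rw [h2, map_zero]
  · intro h2
    rw [h2, map_zero]

theorem finrank_map_to {V W : Type} [AddCommGroup V] [Module ℝ V] [AddCommGroup W] [Module ℝ W]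
    {T : V →ₗ[ℝ] W} (hT : Function.Injective T) (a : Submodule ℝ V) :
    Module.finrank ℝ (a.map T) = Module.finrank ℝ a :=
  (LinearEquiv.finrank_eq (Submodule.equivMapOfInjective T hT a)).symm

/-- The matrices of `ad x`, `x ∈ A`. -/
theorem isFlat_map {θ : L ≃ₗ⁅ℝ⁆ L} {b : Module.Basis (Fin N) ℝ L} (h : CartanBasis θ b) {G : Subgroup (GL (Fin N) ℝ)}
    (hG : IsAdj b G) {A : Submodule ℝ L} (hA : MaxFlat θ A) : IsFlat G (A.map (TT_to b)) := by
  have hlie : lie G = lie (autG b) := lie_eq' hG.aut (Pool.Agent.Helper96.SA.lie_sub h hG)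
  refine ⟨?_, ?_, ?_⟩
  · rintro _ ⟨x, hx, rfl⟩
    rw [hlie]
    exact TT_mem_to b x
  · rintro _ ⟨x, hx, rfl⟩
    exact (TT_symm_iff_to h x).2 (hA.neg x hx)
  · rintro _ ⟨x, hx, rfl⟩ _ ⟨y, hy, rfl⟩
    exact (TT_comm_iff_to h x y).2 (hA.abel x hx y hy)

theorem max_map {θ : L ≃ₗ⁅ℝ⁆ L} {b : Module.Basis (Fin N) ℝ L} (h : CartanBasis θ b) {G : Subgroup (GL (Fin N) ℝ)}
    (hG : IsAdj b G) {A : Submodule ℝ L} (hA : MaxFlat θ A) :
    ∀ Y ∈ lie G, Yᵀ = Y → (∀ H ∈ A.map (TT_to b), Y * H = H * Y) → Y ∈ A.map (TT_to b) := by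
  have hlie : lie G = lie (autG b) := lie_eq' hG.aut (Pool.Agent.Helper96.SA.lie_sub h hG)
  intro Y hY hYs hYc
  rw [hlie] at hY
  obtain ⟨x, rfl⟩ := TT_surj_to h hY
  exact ⟨x, hA.max x ((TT_symm_iff_to h x).1 hYs) fun y hy => (TT_comm_iff_to h x y).1 (hYc _ ⟨y, hy, rfl⟩), rfl⟩

theorem TT_lie_to (b : Module.Basis (Fin N) ℝ L) (x y : L) : TT_to b ⁅x, y⁆ = TT_to b x * TT_to b y - TT_to b y * TT_to b x := by
  apply (Matrix.toLin b b).injective
  refine LinearMap.ext fun z => ?_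
  rw [toLin_TT_to, map_sub, LinearMap.sub_apply, toLin_mul b b b, toLin_mul b b b,
    LinearMap.comp_apply, LinearMap.comp_apply, toLin_TT_to, toLin_TT_to, toLin_TT_to,
    toLin_TT_to, lie_lie]

/-- The functionals on `A` and on the space of the matrices. -/
noncomputable def dualE {θ : L ≃ₗ⁅ℝ⁆ L} {b : Module.Basis (Fin N) ℝ L} (h : CartanBasis θ b) (A : Submodule ℝ L) :
    Module.Dual ℝ (A.map (TT_to b)) ≃ₗ[ℝ] Module.Dual ℝ A :=
  (Submodule.equivMapOfInjective (TT_to b) (TT_inj_to h) A).dualMap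

theorem dualE_roots {θ : L ≃ₗ⁅ℝ⁆ L} {b : Module.Basis (Fin N) ℝ L} (h : CartanBasis θ b) {G : Subgroup (GL (Fin N) ℝ)}
    (hG : IsAdj b G) (A : Submodule ℝ L) (φ : Module.Dual ℝ (A.map (TT_to b))) :
    dualE h A φ ∈ rootsL A ↔ φ ∈ droots G (A.map (TT_to b)) := by
  have hlie : lie G = lie (autG b) := lie_eq' hG.aut (Pool.Agent.Helper96.SA.lie_sub h hG)
  let e : A ≃ₗ[ℝ] A.map (TT_to b) := Submodule.equivMapOfInjective (TT_to b) (TT_inj_to h) A
  have he : ∀ x : A, ((e x : A.map (TT_to b)) : Mat N) = TT_to b (x : L) := fun x => rfl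
  have hE : ∀ φ (x : A), dualE h A φ x = φ (e x) := fun φ x => rfl
  have hne : dualE h A φ ≠ 0 ↔ φ ≠ 0 := by
    rw [Ne, Ne, (dualE h A).map_eq_zero_iff]
  constructor
  · rintro ⟨h0, x, hx0, hx⟩
    refine ⟨hne.1 h0, TT_to b x, ?_, ?_, ?_⟩
    · rw [hlie]
      exact TT_mem_to b x
    · intro h4
      exact hx0 (TT_inj_to h (by rw [h4, map_zero]))
    · intro H
      obtain ⟨y, rfl⟩ := e.surjective H
      rw [he, ← TT_lie_to, hx, map_smul, hE]
  · rintro ⟨h0, X, hX, hX0, hX1⟩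
    rw [hlie] at hX
    obtain ⟨x, rfl⟩ := TT_surj_to h hX
    refine ⟨hne.2 h0, x, fun h4 => hX0 (by rw [h4, map_zero]), fun y => ?_⟩
    apply TT_inj_to h
    rw [TT_lie_to, map_smul, hE, ← he, hX1]

theorem comm2_or_A2L {θ : L ≃ₗ⁅ℝ⁆ L} {b : Module.Basis (Fin N) ℝ L} (h : CartanBasis θ b) {G : Subgroup (GL (Fin N) ℝ)}
    (hG : IsAdj b G) {A : Submodule ℝ L} (hA : MaxFlat θ A) (h2 : 2 ≤ Module.finrank ℝ A) :
    Comm2 G ∨ ∃ l m : Module.Dual ℝ A, (∀ c : ℝ, m ≠ c • l) ∧ SixOf (rootsL A) l m := by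
  have hS := selfAdj_of_aut h hG
  rcases comm2_or_A2 hS.closed (fun X hX => lie_transpose hS hX) hS.semi (isFlat_map h hG hA) (max_map h hG hA)
    (by rw [finrank_map_to (TT_inj_to h)]; exact h2) with h3 | ⟨l, m, hlm, h3⟩
  · exact Or.inl h3
  right
  refine ⟨dualE h A l, dualE h A m, fun c hc => hlm c ?_, ?_⟩
  · apply (dualE h A).injective
    rw [hc, map_smul]
  · unfold SixOf at h3 ⊢
    ext ψ
    obtain ⟨φ, rfl⟩ := (dualE h A).surjective ψ
    rw [dualE_roots h hG, h3]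
    simp only [Set.mem_insert_iff, Set.mem_singleton_iff, ← map_neg, ← map_add, (dualE h A).injective.eq_iff]

end Pool.Agent.Helper96.TO
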