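import Pool.Agent.Helper96.TO.Alg

/-!
# Project TO (MP_0f6f3f_an): maximal flats have the same dimension

PROOF. `V`, `V'` maximal flats, `X ∈ V'` regular: `k X kᵀ ∈ V` for an orthogonal `k ∈ G` (`conj_into`), so `kᵀ V k` commutes with `X`, hence with `V'`, and is contained in `V'`.
-/

set_option autoImplicit false

open Matrix

namespace Pool.Agent.Helper96.TO

open Pool.Agent.Helper96.SA

section Mat

variable {N : ℕ} {G : Subgroup (GL (Fin N) ℝ)}

theorem finrank_le_of_max (hG : IsClosed (G : Set (GL (Fin N) ℝ))) {V V' : Submodule ℝ (Mat N)} (hV : IsFlat G V)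
    (hmax : ∀ Y ∈ lie G, Yᵀ = Y → (∀ H ∈ V, Y * H = H * Y) → Y ∈ V) (hV' : IsFlat G V')
    (hmax' : ∀ Y ∈ lie G, Yᵀ = Y → (∀ H ∈ V', Y * H = H * Y) → Y ∈ V') : Module.finrank ℝ V ≤ Module.finrank ℝ V' := by
  obtain ⟨X, hX, hreg⟩ := exists_regular V' hV'.symm hV'.comm
  obtain ⟨k, hkG, hk1, hkX⟩ := conj_into hG hV hmax (hV'.mem X hX) (hV'.symm X hX)
  have hk2 : (k : Mat N) * (k : Mat N)ᵀ = 1 := mul_eq_one_comm.1 hk1
  have hkinv : ((k⁻¹ : GL (Fin N) ℝ) : Mat N) = (k : Mat N)ᵀ := Units.inv_eq_of_mul_eq_one_left hk1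
  -- the linear map
  let f : V →ₗ[ℝ] V' :=
    { toFun := fun H => ⟨(k : Mat N)ᵀ * (H : Mat N) * (k : Mat N), by
        have h1 := lie_conj (G.inv_mem hkG) (hV.mem _ H.2)
        rw [inv_inv, hkinv] at h1
        refine hmax' _ h1 ?_ (hreg _ ?_)
        · rw [Matrix.transpose_mul, Matrix.transpose_mul, Matrix.transpose_transpose, hV.symm _ H.2, Matrix.mul_assoc]
        · have h2 := hV.comm _ H.2 _ hkX
          calc (k : Mat N)ᵀ * (H : Mat N) * (k : Mat N) * X
              = (k : Mat N)ᵀ * (H : Mat N) * ((k : Mat N) * X * ((k : Mat N)ᵀ * (k : Mat N))) := by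
                rw [hk1, Matrix.mul_one, Matrix.mul_assoc]
            _ = (k : Mat N)ᵀ * ((H : Mat N) * ((k : Mat N) * X * (k : Mat N)ᵀ)) * (k : Mat N) := by
                simp only [Matrix.mul_assoc]
            _ = (k : Mat N)ᵀ * (((k : Mat N) * X * (k : Mat N)ᵀ) * (H : Mat N)) * (k : Mat N) := by rw [h2]
            _ = ((k : Mat N)ᵀ * (k : Mat N)) * X * ((k : Mat N)ᵀ * (H : Mat N) * (k : Mat N)) := by
                simp only [Matrix.mul_assoc]
            _ = X * ((k : Mat N)ᵀ * (H : Mat N) * (k : Mat N)) := by rw [hk1, Matrix.one_mul]⟩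
      map_add' := fun H K => Subtype.ext (by
        change (k : Mat N)ᵀ * ((H : Mat N) + (K : Mat N)) * (k : Mat N) =
          (k : Mat N)ᵀ * (H : Mat N) * (k : Mat N) + (k : Mat N)ᵀ * (K : Mat N) * (k : Mat N)
        rw [Matrix.mul_add, Matrix.add_mul])
      map_smul' := fun c H => Subtype.ext (by
        change (k : Mat N)ᵀ * (c • (H : Mat N)) * (k : Mat N) = c • ((k : Mat N)ᵀ * (H : Mat N) * (k : Mat N))
        rw [Matrix.mul_smul, Matrix.smul_mul]) }
  have hf : Function.Injective f := by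
    rw [injective_iff_map_eq_zero]
    intro H hH
    have h1 : (k : Mat N)ᵀ * (H : Mat N) * (k : Mat N) = 0 := congrArg Subtype.val hH
    apply Subtype.ext
    calc (H : Mat N) = ((k : Mat N) * (k : Mat N)ᵀ) * (H : Mat N) * ((k : Mat N) * (k : Mat N)ᵀ) := by
          rw [hk2, Matrix.one_mul, Matrix.mul_one]
      _ = (k : Mat N) * ((k : Mat N)ᵀ * (H : Mat N) * (k : Mat N)) * (k : Mat N)ᵀ := by simp only [Matrix.mul_assoc]
      _ = 0 := by rw [h1, Matrix.mul_zero, Matrix.zero_mul]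
  exact LinearMap.finrank_le_finrank_of_injective hf

theorem finrank_of_max (hG : IsClosed (G : Set (GL (Fin N) ℝ))) {V : Submodule ℝ (Mat N)} (hV : IsFlat G V)
    (hmax : ∀ Y ∈ lie G, Yᵀ = Y → (∀ H ∈ V, Y * H = H * Y) → Y ∈ V) : Module.finrank ℝ V = realRank G := by
  obtain ⟨V', hV', hr, hmax'⟩ := exists_maxFlat hG
  rw [← hr]
  exact le_antisymm (finrank_le_of_max hG hV hmax hV' hmax') (finrank_le_of_max hG hV' hmax' hV hmax)

end Mat

section Alg

variable {L : Type} [LieRing L] [LieAlgebra ℝ L] {N : ℕ}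

/-- The maximal abelian subspaces have dimension `realRank G`. -/
theorem finrank_eq {θ : L ≃ₗ⁅ℝ⁆ L} {b : Module.Basis (Fin N) ℝ L} (h : CartanBasis θ b)
    {G : Subgroup (GL (Fin N) ℝ)} (hG : IsAdj b G) {A : Submodule ℝ L} (hA : MaxFlat θ A) :
    Module.finrank ℝ A = realRank G := by
  have hSA := selfAdj_of_aut h hG
  have hr : Module.finrank ℝ (A.map (TT_to b)) = Module.finrank ℝ A := finrank_map_to (TT_inj_to h) A
  rw [← hr]
  exact finrank_of_max hSA.closed (isFlat_map h hG hA) (max_map h hG hA)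

theorem finrank_eq_rankL {θ : L ≃ₗ⁅ℝ⁆ L} {b : Module.Basis (Fin N) ℝ L} (h : CartanBasis θ b)
    {G : Subgroup (GL (Fin N) ℝ)} (hG : IsAdj b G) {A : Submodule ℝ L} (hA : MaxFlat θ A) :
    Module.finrank ℝ A = rankL θ := by
  rw [finrank_eq h hG hA, realRank_of_aut h hG]

end Alg

end Pool.Agent.Helper96.TO
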