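import Pool.Agent.Helper96.TO.High

/-!
# Project TO (MP_0f6f3f_an): a Cartan element with an irreducible centraliser of corank one

`cartan_el`: if `R` is an irreducible root system of rank at least two which is not of type `A`, then there is `T = β^∨` or `T = β^∨ + γ^∨` (`β`, `γ` strongly orthogonal roots) such that the roots orthogonal to `T` form an irreducible root
system which spans the hyperplane orthogonal to `T`. PROOF. `β` from `high`. If the system `R₀` of the roots orthogonal to `β` is irreducible, `T = β^∨`. Otherwise `R₀ = A ∪ B`; there is a root `δ`, `(δ, β) > 0`, which is not orthogonal to `A` and not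
to `B` (`exists_delta`); if `a ∈ A`, `b ∈ B` are not orthogonal to `δ`, then `ε = β - s_a s_b δ` is a root, `(δ, ε) > 0`, and `δ - ε ∈ A ∪ B ∪ {0}`, so that the component of `δ` in the span of `A` or of `B` is proportional to `a` or `b` (`dich`). So (`side`) there is
`γ ∈ R₀` such that the elements of `R₀` which are not orthogonal to `γ` are proportional to `γ`, and `2 (δ, γ) = -(γ, γ)`. `T = β^∨ + γ^∨`.
-/

set_option autoImplicit false

namespace Pool.Agent.Helper96.TO

variable {E : Type*} [NormedAddCommGroup E] [InnerProductSpace ℝ E]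

/-- The properties of the highest root. -/
structure Hi (R : Set E) (β : E) : Prop where
  mem : β ∈ R
  so : ∀ γ ∈ R, (inner ℝ γ β) = 0 → β + γ ∉ R ∧ β - γ ∉ R
  lev : ∀ γ ∈ R, γ ≠ β → 0 < (inner ℝ γ β) → 2 * (inner ℝ γ β) = (inner ℝ β β) ∧ β - γ ∈ R
  span : ∀ v : E, (inner ℝ v β) = 0 → (∀ γ ∈ R, (inner ℝ γ β) = 0 → (inner ℝ v γ) = 0) → v = 0

/-- `A ∪ B` is an orthogonal decomposition of the roots orthogonal to `β`. -/
structure Dec (R : Set E) (β : E) (A B : Set E) : Prop where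
  memA : ∀ a ∈ A, a ∈ R ∧ (inner ℝ a β) = 0
  memB : ∀ b ∈ B, b ∈ R ∧ (inner ℝ b β) = 0
  cov : ∀ γ ∈ R, (inner ℝ γ β) = 0 → γ ∈ A ∨ γ ∈ B
  orth : ∀ a ∈ A, ∀ b ∈ B, (inner ℝ a b) = 0

theorem Dec.symm {R : Set E} {β : E} {A B : Set E} (h : Dec R β A B) : Dec R β B A where
  memA := h.memB
  memB := h.memA
  cov γ h1 h2 := (h.cov γ h1 h2).symm
  orth b hb a ha := by rw [real_inner_comm]; exact h.orth a ha b hb

namespace RS

variable {R : Set E}

/-- The coefficient of a reflection is an integer; lower bound. -/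
theorem coef (h : RS R) {a d : E} (ha : a ∈ R) (hd : d ∈ R) (hne : (inner ℝ d a) ≠ 0) :
    ∃ m m' : ℤ, 2 * (inner ℝ d a) = m * (inner ℝ a a) ∧ 2 * (inner ℝ d a) = m' * (inner ℝ d d) ∧ 1 ≤ m * m' ∧ d - (m : ℝ) • a ∈ R := by
  obtain ⟨m, hm, h1⟩ := h.refl d hd a ha
  obtain ⟨m', hm', -⟩ := h.refl a ha d hd
  rw [real_inner_comm] at hm'
  refine ⟨m, m', hm, hm', ?_, h1⟩
  have pa := h.pos ha
  have pd := h.pos hd
  have h2 : 0 < ((m : ℝ) * m') * ((inner ℝ a a) * (inner ℝ d d)) := by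
    have e : ((m : ℝ) * m') * ((inner ℝ a a) * (inner ℝ d d)) = (2 * (inner ℝ d a)) ^ 2 := by
      calc ((m : ℝ) * m') * ((inner ℝ a a) * (inner ℝ d d)) = (m * (inner ℝ a a)) * (m' * (inner ℝ d d)) := by ring
        _ = (2 * (inner ℝ d a)) ^ 2 := by rw [← hm, ← hm']; ring
    rw [e]
    positivity
  have h3 : 0 < (m : ℝ) * m' := by
    by_contra hcon
    rw [not_lt] at hcon
    have : 0 < (inner ℝ a a) * (inner ℝ d d) := mul_pos pa pd
    nlinarith
  have h4 : 0 < m * m' := by exact_mod_cast h3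
  omega

/-- A root which is not orthogonal to `A`. -/
theorem exists_rho (h : RS R) (hirr : Irr R) {β : E} (hβ : Hi R β) {A B : Set E} (hD : Dec R β A B) (hA : A.Nonempty) :
    ∃ ρ ∈ R, ρ ≠ β ∧ 0 < (inner ℝ ρ β) ∧ ∃ a ∈ A, (inner ℝ ρ a) ≠ 0 := by
  by_contra hc
  push Not at hc
  have pβ := h.pos hβ.mem
  have h1 := hirr A (fun a ha => (hD.memA a ha).1) hA (fun a ha ρ hρ hρA => by
    have haβ := (hD.memA a ha).2
    rcases lt_trichotomy (inner ℝ ρ β) 0 with h2 | h2 | h2
    · by_cases h3 : -ρ = β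
      · have h4 : ρ = -β := by rw [← h3, neg_neg]
        rw [h4, inner_neg_right, haβ, neg_zero]
      · have h4 := hc (-ρ) (h.neg hρ) h3 (by rw [inner_neg_left]; linarith) a ha
        rw [inner_neg_left, neg_eq_zero] at h4
        rw [real_inner_comm]
        exact h4
    · rcases hD.cov ρ hρ h2 with h3 | h3
      · exact absurd h3 hρA
      · exact hD.orth a ha ρ h3
    · by_cases h3 : ρ = β
      · rw [h3]
        exact haβ
      · rw [real_inner_comm]
        exact hc ρ hρ h3 h2 a ha)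
  have h2 : β ∈ A := by rw [h1]; exact hβ.mem
  exact pβ.ne' (hD.memA β h2).2

/-- Two roots at the same level: the difference is zero or a root orthogonal to `β`. -/
theorem level_sub (h : RS R) {β : E} (hβ : Hi R β) {δ ε : E} (hδ : δ ∈ R) (hδβ : δ ≠ β) (hδp : 0 < (inner ℝ δ β)) (hε : ε ∈ R)
    (hεβ : ε ≠ β) (hεp : 0 < (inner ℝ ε β)) (hp : 0 < (inner ℝ δ ε)) : (inner ℝ (δ - ε) β) = 0 ∧ (δ - ε = 0 ∨ δ - ε ∈ R) := by
  have e1 := (hβ.lev δ hδ hδβ hδp).1
  have e2 := (hβ.lev ε hε hεβ hεp).1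
  refine ⟨by rw [inner_sub_left]; linarith, ?_⟩
  by_cases hc : ∀ t : ℝ, ε ≠ t • δ
  · exact Or.inr (h.pos_sub hδ hε hp hc)
  · push Not at hc
    obtain ⟨t, ht⟩ := hc
    left
    rw [ht, real_inner_smul_left] at e2
    have h4 : (t - 1) * (inner ℝ δ β) = 0 := by linarith
    have h5 := (mul_eq_zero.1 h4).resolve_right hδp.ne'
    have h6 : t = 1 := by linarith
    rw [ht, h6, one_smul, sub_self]

theorem sub_level {β : E} (hβ : Hi R β) {δ : E} (hδ : δ ∈ R) (hδ0 : δ ≠ 0) (hδβ : δ ≠ β) (hδp : 0 < (inner ℝ δ β)) :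
    β - δ ∈ R ∧ β - δ ≠ β ∧ 0 < (inner ℝ (β - δ) β) := by
  obtain ⟨e1, h2⟩ := hβ.lev δ hδ hδβ hδp
  refine ⟨h2, fun h3 => hδ0 (by rwa [sub_eq_self] at h3), ?_⟩
  rw [inner_sub_left]
  linarith

/-- A root which is orthogonal neither to `A` nor to `B`. -/
theorem exists_delta (h : RS R) (hirr : Irr R) {β : E} (hβ : Hi R β) {A B : Set E} (hD : Dec R β A B) (hA : A.Nonempty)
    (hB : B.Nonempty) : ∃ δ ∈ R, δ ≠ β ∧ 0 < (inner ℝ δ β) ∧ (∃ a ∈ A, (inner ℝ δ a) ≠ 0) ∧ ∃ b ∈ B, (inner ℝ δ b) ≠ 0 := by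
  by_contra hcon
  push Not at hcon
  obtain ⟨ρ, hρ, hρβ, hρp, a, ha, hρa⟩ := h.exists_rho hirr hβ hD hA
  obtain ⟨σ, hσ, hσβ, hσp, b, hb, hσb⟩ := h.exists_rho hirr hβ hD.symm hB
  have hρb : ∀ b ∈ B, (inner ℝ ρ b) = 0 := hcon ρ hρ hρβ hρp ⟨a, ha, hρa⟩
  have hσa : ∀ a ∈ A, (inner ℝ σ a) = 0 := by
    intro a' ha'
    by_contra hne
    exact hσb (hcon σ hσ hσβ hσp ⟨a', ha', hne⟩ b hb)
  -- the contradiction
  have core : ∀ τ ∈ R, τ ≠ β → 0 < (inner ℝ τ β) → (inner ℝ τ a) = 0 → (inner ℝ τ b) ≠ 0 → 0 < (inner ℝ ρ τ) → False := by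
    intro τ hτ hτβ hτp hτa hτb hp
    obtain ⟨h1, h2⟩ := h.level_sub hβ hρ hρβ hρp hτ hτβ hτp hp
    have ea : (inner ℝ (ρ - τ) a) ≠ 0 := by rwa [inner_sub_left, hτa, sub_zero]
    have eb : (inner ℝ (ρ - τ) b) ≠ 0 := by
      rw [inner_sub_left, hρb b hb, zero_sub]
      exact neg_ne_zero.2 hτb
    rcases h2 with h2 | h2
    · rw [h2, inner_zero_left] at ea
      exact ea rfl
    · rcases hD.cov _ h2 h1 with h3 | h3
      · exact eb (hD.orth _ h3 b hb)
      · exact ea (by rw [real_inner_comm]; exact hD.orth a ha _ h3)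
  rcases lt_or_ge 0 (inner ℝ ρ σ) with h1 | h1
  · exact core σ hσ hσβ hσp (hσa a ha) hσb h1
  · obtain ⟨k1, k2, k3⟩ := sub_level hβ hσ (h.ne σ hσ) hσβ hσp
    refine core (β - σ) k1 k2 k3 ?_ ?_ ?_
    · rw [inner_sub_left, hσa a ha, real_inner_comm, (hD.memA a ha).2, sub_zero]
    · rw [inner_sub_left, real_inner_comm, (hD.memB b hb).2, zero_sub]
      exact neg_ne_zero.2 hσb
    · rw [inner_sub_right]
      linarith

/-- One of the two components of `δ` is proportional to a root. -/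
theorem dich (h : RS R) {β : E} (hβ : Hi R β) {A B : Set E} (hD : Dec R β A B) {δ : E} (hδ : δ ∈ R) (hδβ : δ ≠ β)
    (hδp : 0 < (inner ℝ δ β)) {a b : E} (ha : a ∈ A) (hb : b ∈ B) (hδa : (inner ℝ δ a) ≠ 0) (hδb : (inner ℝ δ b) ≠ 0) :
    (∀ a' ∈ A, (inner ℝ δ a') * (inner ℝ a a) = (inner ℝ δ a) * (inner ℝ a a')) ∨ ∀ b' ∈ B, (inner ℝ δ b') * (inner ℝ b b) = (inner ℝ δ b) * (inner ℝ b b') := by
  obtain ⟨haR, haβ⟩ := hD.memA a ha
  obtain ⟨hbR, hbβ⟩ := hD.memB b hb
  have hab := hD.orth a ha b hb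
  have hba : (inner ℝ b a) = 0 := by rw [real_inner_comm]; exact hab
  obtain ⟨m, m', e1, e2, e3, -⟩ := h.coef haR hδ hδa
  obtain ⟨n, n', f1, f2, f3, f4⟩ := h.coef hbR hδ hδb
  have pδ := h.pos hδ
  have pa := h.pos haR
  have pb := h.pos hbR
  -- `s_a s_b δ`
  have hσ : δ - (n : ℝ) • b - (m : ℝ) • a ∈ R := by
    refine h.refl' f4 haR ?_
    rw [inner_sub_left, real_inner_smul_left, hba, mul_zero, sub_zero]
    exact e1
  have hσp : 0 < (inner ℝ (δ - (n : ℝ) • b - (m : ℝ) • a) β) := by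
    rw [inner_sub_left, inner_sub_left, real_inner_smul_left, real_inner_smul_left, haβ, hbβ]
    linarith
  have hσa : (inner ℝ (δ - (n : ℝ) • b - (m : ℝ) • a) a) = -(inner ℝ δ a) := by
    rw [inner_sub_left, inner_sub_left, real_inner_smul_left, real_inner_smul_left, hba]
    linarith
  have hσβ : δ - (n : ℝ) • b - (m : ℝ) • a ≠ β := by
    intro h1
    rw [h1, real_inner_comm, haβ] at hσa
    exact hδa (by linarith)
  obtain ⟨k1, k2, k3⟩ := sub_level hβ hσ (h.ne _ hσ) hσβ hσp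
  have hp : 0 < (inner ℝ δ (β - (δ - (n : ℝ) • b - (m : ℝ) • a))) := by
    rw [inner_sub_right, inner_sub_right, inner_sub_right, real_inner_smul_right, real_inner_smul_right]
    have g1 : (inner ℝ δ δ) / 2 ≤ m * (inner ℝ δ a) := by
      have g2 : (1 : ℝ) ≤ m * m' := by exact_mod_cast e3
      have g3 : (m : ℝ) * (inner ℝ δ a) = m * m' * (inner ℝ δ δ) / 2 := by
        have : (m : ℝ) * (2 * (inner ℝ δ a)) = m * (m' * (inner ℝ δ δ)) := by rw [e2]
        linarith
      rw [g3]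
      nlinarith
    have g2 : (inner ℝ δ δ) / 2 ≤ n * (inner ℝ δ b) := by
      have g2 : (1 : ℝ) ≤ n * n' := by exact_mod_cast f3
      have g3 : (n : ℝ) * (inner ℝ δ b) = n * n' * (inner ℝ δ δ) / 2 := by
        have : (n : ℝ) * (2 * (inner ℝ δ b)) = n * (n' * (inner ℝ δ δ)) := by rw [f2]
        linarith
      rw [g3]
      nlinarith
    linarith
  obtain ⟨h1, h2⟩ := h.level_sub hβ hδ hδβ hδp k1 k2 k3 hp
  -- the difference
  have hρa : ∀ a' ∈ A, (inner ℝ (δ - (β - (δ - (n : ℝ) • b - (m : ℝ) • a))) a') = 2 * (inner ℝ δ a') - m * (inner ℝ a a') := by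
    intro a' ha'
    have i1 : (inner ℝ β a') = 0 := by rw [real_inner_comm]; exact (hD.memA a' ha').2
    have i2 : (inner ℝ b a') = 0 := by rw [real_inner_comm]; exact hD.orth a' ha' b hb
    rw [inner_sub_left, inner_sub_left, inner_sub_left, inner_sub_left, real_inner_smul_left, real_inner_smul_left, i1, i2]
    ring
  have hρb : ∀ b' ∈ B, (inner ℝ (δ - (β - (δ - (n : ℝ) • b - (m : ℝ) • a))) b') = 2 * (inner ℝ δ b') - n * (inner ℝ b b') := by
    intro b' hb'
    have i1 : (inner ℝ β b') = 0 := by rw [real_inner_comm]; exact (hD.memB b' hb').2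
    have i2 : (inner ℝ a b') = 0 := hD.orth a ha b' hb'
    rw [inner_sub_left, inner_sub_left, inner_sub_left, inner_sub_left, real_inner_smul_left, real_inner_smul_left, i1, i2]
    ring
  have concA : (∀ a' ∈ A, (inner ℝ (δ - (β - (δ - (n : ℝ) • b - (m : ℝ) • a))) a') = 0) →
      ∀ a' ∈ A, (inner ℝ δ a') * (inner ℝ a a) = (inner ℝ δ a) * (inner ℝ a a') := by
    intro h3 a' ha'
    have h4 := h3 a' ha'
    rw [hρa a' ha'] at h4
    have h5 : 2 * ((inner ℝ δ a') * (inner ℝ a a)) = 2 * ((inner ℝ δ a) * (inner ℝ a a')) := by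
      calc 2 * ((inner ℝ δ a') * (inner ℝ a a)) = (2 * (inner ℝ δ a')) * (inner ℝ a a) := by ring
        _ = (m * (inner ℝ a a')) * (inner ℝ a a) := by rw [show 2 * (inner ℝ δ a') = m * (inner ℝ a a') by linarith]
        _ = (m * (inner ℝ a a)) * (inner ℝ a a') := by ring
        _ = 2 * ((inner ℝ δ a) * (inner ℝ a a')) := by rw [← e1]; ring
    linarith
  have concB : (∀ b' ∈ B, (inner ℝ (δ - (β - (δ - (n : ℝ) • b - (m : ℝ) • a))) b') = 0) →
      ∀ b' ∈ B, (inner ℝ δ b') * (inner ℝ b b) = (inner ℝ δ b) * (inner ℝ b b') := by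
    intro h3 b' hb'
    have h4 := h3 b' hb'
    rw [hρb b' hb'] at h4
    have h5 : 2 * ((inner ℝ δ b') * (inner ℝ b b)) = 2 * ((inner ℝ δ b) * (inner ℝ b b')) := by
      calc 2 * ((inner ℝ δ b') * (inner ℝ b b)) = (2 * (inner ℝ δ b')) * (inner ℝ b b) := by ring
        _ = (n * (inner ℝ b b')) * (inner ℝ b b) := by rw [show 2 * (inner ℝ δ b') = n * (inner ℝ b b') by linarith]
        _ = (n * (inner ℝ b b)) * (inner ℝ b b') := by ring
        _ = 2 * ((inner ℝ δ b) * (inner ℝ b b')) := by rw [← f1]; ring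
    linarith
  rcases h2 with h2 | h2
  · left
    refine concA fun a' ha' => ?_
    rw [h2, inner_zero_left]
  · rcases hD.cov _ h2 h1 with h3 | h3
    · right
      exact concB fun b' hb' => hD.orth _ h3 b' hb'
    · left
      refine concA fun a' ha' => ?_
      rw [real_inner_comm]
      exact hD.orth a' ha' _ h3

theorem int_sq_one {n : ℤ} (h : n ^ 2 = 1) : n = 1 ∨ n = -1 := by
  have h1 : (n - 1) * (n + 1) = 0 := by linear_combination h
  rcases mul_eq_zero.1 h1 with h2 | h2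
  · left
    omega
  · right
    omega

theorem eq_smul_of_sq {v b : E} (hb : 0 < (inner ℝ b b)) (he : (inner ℝ v v) * (inner ℝ b b) ≤ (inner ℝ v b) ^ 2) : v = ((inner ℝ v b) / (inner ℝ b b)) • b := by
  have h1 : (inner ℝ (v - ((inner ℝ v b) / (inner ℝ b b)) • b) (v - ((inner ℝ v b) / (inner ℝ b b)) • b)) = (inner ℝ v v) - (inner ℝ v b) ^ 2 / (inner ℝ b b) := by
    rw [inner_sub_left, inner_sub_right, inner_sub_right, real_inner_smul_left, real_inner_smul_left, real_inner_smul_right,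
      real_inner_smul_right, real_inner_comm v b]
    field_simp
    ring
  have h2 : (inner ℝ v v) - (inner ℝ v b) ^ 2 / (inner ℝ b b) ≤ 0 := by
    rw [sub_nonpos, le_div_iff₀ hb]
    exact he
  by_contra hne
  have h3 := real_inner_self_pos.2 (sub_ne_zero.2 hne)
  rw [h1] at h3
  linarith

/-- The root `γ`. -/
theorem side (h : RS R) {β : E} (hβ : Hi R β) {A B : Set E} (hD : Dec R β A B) {δ : E} (hδ : δ ∈ R) (hδβ : δ ≠ β)
    (hδp : 0 < (inner ℝ δ β)) {a₀ b₀ : E} (ha₀ : a₀ ∈ A) (hb₀ : b₀ ∈ B) (hδa : (inner ℝ δ a₀) ≠ 0) (hδb : (inner ℝ δ b₀) ≠ 0)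
    (hPA : ∀ a ∈ A, (inner ℝ δ a) ≠ 0 → ∀ a' ∈ A, (inner ℝ δ a') * (inner ℝ a a) = (inner ℝ δ a) * (inner ℝ a a')) :
    ∃ γ ∈ R, (inner ℝ γ β) = 0 ∧ 2 * (inner ℝ δ γ) = -(inner ℝ γ γ) ∧ (∀ α ∈ R, (inner ℝ α β) = 0 → (inner ℝ α γ) ≠ 0 → ∃ c : ℝ, α = c • γ) ∧
      (inner ℝ β β) + (inner ℝ γ γ) < 4 * (inner ℝ δ δ) := by
  obtain ⟨haR, haβ⟩ := hD.memA a₀ ha₀
  obtain ⟨hbR, hbβ⟩ := hD.memB b₀ hb₀
  have pδ := h.pos hδ
  have pa := h.pos haR
  have pb := h.pos hbR
  have pβ := h.pos hβ.mem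
  obtain ⟨m, m', e1, e2, e3, -⟩ := h.coef haR hδ hδa
  have hlev := (hβ.lev δ hδ hδβ hδp).1
  have hβδ : (inner ℝ β δ) = (inner ℝ δ β) := real_inner_comm _ _
  -- `δ` is not longer than `β`
  have hle : (inner ℝ δ δ) ≤ (inner ℝ β β) := by
    obtain ⟨k, hk, -⟩ := h.refl β hβ.mem δ hδ
    rw [hβδ, hlev] at hk
    have k0 : 0 < (k : ℝ) := by
      by_contra hcon
      rw [not_lt] at hcon
      nlinarith
    have k1 : 0 < k := by exact_mod_cast k0
    have k2 : (1 : ℝ) ≤ k := by exact_mod_cast k1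
    rw [hk]
    nlinarith
  have hA' : ∀ a' ∈ A, (inner ℝ δ a') = (m : ℝ) / 2 * (inner ℝ a₀ a') := by
    intro a' ha'
    have h1 := hPA a₀ ha₀ hδa a' ha'
    have h2 : ((inner ℝ δ a') - (m : ℝ) / 2 * (inner ℝ a₀ a')) * (inner ℝ a₀ a₀) = 0 := by
      have h3 : (inner ℝ δ a₀) = m / 2 * (inner ℝ a₀ a₀) := by linarith
      rw [h3] at h1
      linear_combination h1
    have h3 := (mul_eq_zero.1 h2).resolve_right pa.ne'
    linarith
  obtain ⟨v, hv⟩ : ∃ v : E, v = δ - (1 / 2 : ℝ) • β - ((m : ℝ) / 2) • a₀ := ⟨_, rfl⟩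
  have hvβ : (inner ℝ v β) = 0 := by
    rw [hv, inner_sub_left, inner_sub_left, real_inner_smul_left, real_inner_smul_left, haβ]
    linarith
  have hva : ∀ a' ∈ A, (inner ℝ v a') = 0 := by
    intro a' ha'
    have i1 : (inner ℝ β a') = 0 := by rw [real_inner_comm]; exact (hD.memA a' ha').2
    rw [hv, inner_sub_left, inner_sub_left, real_inner_smul_left, real_inner_smul_left, i1, hA' a' ha']
    ring
  have hvb : ∀ b' ∈ B, (inner ℝ v b') = (inner ℝ δ b') := by
    intro b' hb'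
    have i1 : (inner ℝ β b') = 0 := by rw [real_inner_comm]; exact (hD.memB b' hb').2
    have i2 : (inner ℝ a₀ b') = 0 := hD.orth a₀ ha₀ b' hb'
    rw [hv, inner_sub_left, inner_sub_left, real_inner_smul_left, real_inner_smul_left, i1, i2]
    ring
  have hvv : (inner ℝ v v) = (inner ℝ δ δ) - (inner ℝ β β) / 4 - (m : ℝ) ^ 2 / 4 * (inner ℝ a₀ a₀) := by
    have i1 : (inner ℝ v v) = (inner ℝ v δ) := by
      have i2 : (inner ℝ v v) = (inner ℝ v (δ - (1 / 2 : ℝ) • β - ((m : ℝ) / 2) • a₀)) := by rw [← hv]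
      rw [i2, inner_sub_right, inner_sub_right, real_inner_smul_right, real_inner_smul_right, hvβ, hva a₀ ha₀]
      ring
    rw [i1, hv, inner_sub_left, inner_sub_left, real_inner_smul_left, real_inner_smul_left, hβδ, real_inner_comm δ a₀]
    have i2 : (inner ℝ δ a₀) = m / 2 * (inner ℝ a₀ a₀) := by linarith
    rw [i2]
    linear_combination (-1 / 4 : ℝ) * hlev
  have hv0 : v ≠ 0 := by
    intro h1
    have h2 := hvb b₀ hb₀
    rw [h1, inner_zero_left] at h2
    exact hδb h2.symm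
  have pv := real_inner_self_pos.2 hv0
  have hmm : (m : ℝ) ^ 2 * (inner ℝ a₀ a₀) = m * m' * (inner ℝ δ δ) := by
    have : (m : ℝ) * (m * (inner ℝ a₀ a₀)) = m * (m' * (inner ℝ δ δ)) := by rw [← e1, e2]
    linarith
  have hmm2 : m * m' < 3 := by
    have h1 : (m : ℝ) * m' < 3 := by
      by_contra hcon
      rw [not_lt] at hcon
      have h2 : (inner ℝ v v) = (inner ℝ δ δ) - (inner ℝ β β) / 4 - (m * m' * (inner ℝ δ δ)) / 4 := by rw [hvv, ← hmm]; ring
      nlinarith
    exact_mod_cast h1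
  have hcase : m ^ 2 = 1 ∨ (m * m' = 2 ∧ m ^ 2 = 4) := by
    have h1 : m * m' = 1 ∨ m * m' = 2 := by omega
    rcases h1 with h1 | h1
    · left
      have h2 : IsUnit m := IsUnit.of_mul_eq_one _ h1
      rcases Int.isUnit_iff.1 h2 with h3 | h3 <;> rw [h3] <;> norm_num
    · have h2 : m ∣ 2 := Dvd.intro _ h1
      have h3 : m ≤ 2 := Int.le_of_dvd (by norm_num) h2
      have h4 : -m ∣ 2 := (neg_dvd).2 h2
      have h5 : -m ≤ 2 := Int.le_of_dvd (by norm_num) h4
      have h6 : m = -2 ∨ m = -1 ∨ m = 0 ∨ m = 1 ∨ m = 2 := by omega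
      rcases h6 with h7 | h7 | h7 | h7 | h7
      · exact Or.inr ⟨h1, by rw [h7]; norm_num⟩
      · exact Or.inl (by rw [h7]; norm_num)
      · rw [h7] at h1
        norm_num at h1
      · exact Or.inl (by rw [h7]; norm_num)
      · exact Or.inr ⟨h1, by rw [h7]; norm_num⟩
  rcases hcase with hm1 | ⟨hm2, hm4⟩
  · -- `γ = -m a₀`
    have hm1' : (m : ℝ) ^ 2 = 1 := by exact_mod_cast hm1
    have hγγ : (inner ℝ ((-(m : ℝ)) • a₀) ((-(m : ℝ)) • a₀)) = (inner ℝ a₀ a₀) := by
      rw [real_inner_smul_left, real_inner_smul_right]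
      linear_combination (inner ℝ a₀ a₀) * hm1'
    have hm0 : (m : ℝ) ≠ 0 := by
      intro h1
      rw [h1] at hm1'
      norm_num at hm1'
    refine ⟨(-(m : ℝ)) • a₀, ?_, ?_, ?_, ?_, ?_⟩
    · rcases int_sq_one hm1 with h1 | h1
      · rw [h1]
        simpa using h.neg haR
      · rw [h1]
        simpa using haR
    · rw [real_inner_smul_left, haβ, mul_zero]
    · rw [hγγ, real_inner_smul_right]
      linear_combination (-(m : ℝ)) * e1 - (inner ℝ a₀ a₀) * hm1'
    · intro α hα hαβ hαγ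
      rw [real_inner_smul_right] at hαγ
      have hαa : (inner ℝ α a₀) ≠ 0 := right_ne_zero_of_mul hαγ
      rcases hD.cov α hα hαβ with h1 | h1
      · -- `α ∈ A`
        have h2 : (inner ℝ δ α) ≠ 0 := by
          rw [hA' α h1, real_inner_comm]
          exact mul_ne_zero (by positivity) hαa
        have h3 := hPA α h1 h2
        have pα := h.pos hα
        have h4 : ((inner ℝ α α) * ((m : ℝ) / 2)) • a₀ - (inner ℝ δ α) • α = 0 := by
          refine hβ.span _ ?_ ?_
          · rw [inner_sub_left, real_inner_smul_left, real_inner_smul_left, haβ, hαβ]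
            ring
          · intro σ hσ hσβ
            rcases hD.cov σ hσ hσβ with h5 | h5
            · have h6 := h3 σ h5
              rw [hA' σ h5] at h6
              rw [inner_sub_left, real_inner_smul_left, real_inner_smul_left]
              linear_combination h6
            · rw [inner_sub_left, real_inner_smul_left, real_inner_smul_left, hD.orth a₀ ha₀ σ h5, hD.orth α h1 σ h5]
              ring
        refine ⟨(inner ℝ δ α)⁻¹ * ((inner ℝ α α) * ((m : ℝ) / 2)) * (-(m : ℝ)), ?_⟩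
        have h5 : α = (inner ℝ δ α)⁻¹ • ((inner ℝ δ α) • α) := by rw [smul_smul, inv_mul_cancel₀ h2, one_smul]
        conv_lhs => rw [h5, ← sub_eq_zero.1 h4, smul_smul]
        rw [smul_smul]
        congr 1
        linear_combination (-((inner ℝ δ α)⁻¹ * ((inner ℝ α α) * ((m : ℝ) / 2)))) * hm1'
      · exfalso
        exact hαa (by rw [real_inner_comm]; exact hD.orth a₀ ha₀ α h1)
    · rw [hγγ]
      rw [hm1'] at hvv
      linarith
  · -- `γ = -n b₀`
    have hm4' : (m : ℝ) ^ 2 = 4 := by exact_mod_cast hm4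
    have hm2' : (m : ℝ) * m' = 2 := by exact_mod_cast hm2
    have haa : (inner ℝ a₀ a₀) = (inner ℝ δ δ) / 2 := by
      rw [hm4', hm2'] at hmm
      linarith
    have hvle : (inner ℝ v v) ≤ (inner ℝ δ δ) / 4 := by
      rw [hvv, hm4', haa]
      linarith
    have hbb : ∀ b ∈ B, (inner ℝ δ b) ≠ 0 → v = ((inner ℝ δ b) / (inner ℝ b b)) • b ∧ ∃ n : ℤ, 2 * (inner ℝ δ b) = n * (inner ℝ b b) ∧ n ^ 2 = 1 ∧
        (inner ℝ b b) = (inner ℝ δ δ) ∧ (inner ℝ v v) = (inner ℝ δ δ) / 4 := by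
      intro b hb hne
      obtain ⟨hbR', hbβ'⟩ := hD.memB b hb
      have pb' := h.pos hbR'
      obtain ⟨n, n', f1, f2, f3, -⟩ := h.coef hbR' hδ hne
      have f4 : 4 * (inner ℝ δ b) ^ 2 = n * n' * ((inner ℝ b b) * (inner ℝ δ δ)) := by
        calc 4 * (inner ℝ δ b) ^ 2 = (2 * (inner ℝ δ b)) * (2 * (inner ℝ δ b)) := by ring
          _ = (n * (inner ℝ b b)) * (n' * (inner ℝ δ δ)) := by rw [← f1, ← f2]
          _ = _ := by ring
      have f5 : (1 : ℝ) ≤ n * n' := by exact_mod_cast f3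
      have hcs : (inner ℝ v b) ^ 2 ≤ (inner ℝ v v) * (inner ℝ b b) := by
        have := real_inner_mul_inner_self_le v b
        rw [pow_two]
        exact this
      have hvb' := hvb b hb
      rw [hvb'] at hcs
      have hP : 0 < (inner ℝ b b) * (inner ℝ δ δ) := mul_pos pb' pδ
      have g1 : (inner ℝ v v) * (inner ℝ b b) ≤ (inner ℝ δ δ) / 4 * (inner ℝ b b) := mul_le_mul_of_nonneg_right hvle pb'.le
      have g2 : (n : ℝ) * n' ≤ 1 := by
        by_contra hcon
        rw [not_le] at hcon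
        nlinarith
      have g3 : (n : ℝ) * n' = 1 := le_antisymm g2 f5
      have g3' : n * n' = 1 := by exact_mod_cast g3
      rw [g3, one_mul] at f4
      have g4 : (inner ℝ v v) = (inner ℝ δ δ) / 4 := by
        refine le_antisymm hvle ?_
        by_contra hcon
        rw [not_le] at hcon
        nlinarith
      refine ⟨?_, n, f1, ?_, ?_, g4⟩
      · have := eq_smul_of_sq (v := v) (b := b) pb' (by rw [hvb', g4]; linarith)
        rwa [hvb'] at this
      · have h2 : IsUnit n := IsUnit.of_mul_eq_one _ g3'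
        rcases Int.isUnit_iff.1 h2 with h3 | h3 <;> rw [h3] <;> norm_num
      · have h2 : IsUnit n := IsUnit.of_mul_eq_one _ g3'
        have h3 : n' = n := by
          rcases Int.isUnit_iff.1 h2 with h3 | h3
          · rw [h3] at g3' ⊢
            omega
          · rw [h3] at g3' ⊢
            omega
        rw [h3] at f2
        have h4 : (n : ℝ) ≠ 0 := by
          intro h5
          rw [h5, zero_mul] at g3
          exact zero_ne_one g3
        exact mul_left_cancel₀ h4 (by rw [← f1, ← f2])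
    obtain ⟨hv1, n, f1, f2, f3, f4⟩ := hbb b₀ hb₀ hδb
    have f2' : (n : ℝ) ^ 2 = 1 := by exact_mod_cast f2
    have hn0 : (n : ℝ) ≠ 0 := by
      intro h1
      rw [h1] at f2'
      norm_num at f2'
    have hγγ : (inner ℝ ((-(n : ℝ)) • b₀) ((-(n : ℝ)) • b₀)) = (inner ℝ b₀ b₀) := by
      rw [real_inner_smul_left, real_inner_smul_right]
      linear_combination (inner ℝ b₀ b₀) * f2'
    refine ⟨(-(n : ℝ)) • b₀, ?_, ?_, ?_, ?_, ?_⟩
    · rcases int_sq_one f2 with h1 | h1
      · rw [h1]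
        simpa using h.neg hbR
      · rw [h1]
        simpa using hbR
    · rw [real_inner_smul_left, hbβ, mul_zero]
    · rw [hγγ, real_inner_smul_right]
      linear_combination (-(n : ℝ)) * f1 - (inner ℝ b₀ b₀) * f2'
    · intro α hα hαβ hαγ
      rw [real_inner_smul_right] at hαγ
      have hαb : (inner ℝ α b₀) ≠ 0 := right_ne_zero_of_mul hαγ
      rcases hD.cov α hα hαβ with h1 | h1
      · exfalso
        exact hαb (hD.orth α h1 b₀ hb₀)
      · have h2 : (inner ℝ δ α) ≠ 0 := by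
          rw [← hvb α h1, hv1, real_inner_smul_left, real_inner_comm α b₀]
          exact mul_ne_zero (div_ne_zero hδb pb.ne') hαb
        obtain ⟨h3, -⟩ := hbb α h1 h2
        have pα := h.pos hα
        have h4 : ((inner ℝ δ α) / (inner ℝ α α)) • α = ((inner ℝ δ b₀) / (inner ℝ b₀ b₀)) • b₀ := by rw [← h3, ← hv1]
        have h5 : (inner ℝ δ α) / (inner ℝ α α) ≠ 0 := div_ne_zero h2 pα.ne'
        refine ⟨((inner ℝ δ α) / (inner ℝ α α))⁻¹ * ((inner ℝ δ b₀) / (inner ℝ b₀ b₀)) * (-(n : ℝ)), ?_⟩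
        have h6 : α = ((inner ℝ δ α) / (inner ℝ α α))⁻¹ • (((inner ℝ δ α) / (inner ℝ α α)) • α) := by rw [smul_smul, inv_mul_cancel₀ h5, one_smul]
        conv_lhs => rw [h6, h4, smul_smul]
        rw [smul_smul]
        congr 1
        linear_combination (-(((inner ℝ δ α) / (inner ℝ α α))⁻¹ * ((inner ℝ δ b₀) / (inner ℝ b₀ b₀)))) * f2'
    · rw [hγγ, f3]
      rw [f4, hm4', haa] at hvv
      linarith

end RS

/-- The roots orthogonal to `T`. -/
def Perp (R : Set E) (T : E) : Set E := {α | α ∈ R ∧ (inner ℝ α T) = 0}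

/-- The roots orthogonal to `T = β^∨ + γ^∨`. -/
theorem perp_irr {R : Set E} (h : RS R) (hirr : Irr R) {β : E} (hβ : Hi R β) {γ δ : E} (hγ : γ ∈ R) (hγβ : (inner ℝ γ β) = 0) (hδ : δ ∈ R)
    (hδβ : δ ≠ β) (hδp : 0 < (inner ℝ δ β)) (hδγ : 2 * (inner ℝ δ γ) = -(inner ℝ γ γ)) (hpar : ∀ α ∈ R, (inner ℝ α β) = 0 → (inner ℝ α γ) ≠ 0 → ∃ c : ℝ, α = c • γ)
    (hlt : (inner ℝ β β) + (inner ℝ γ γ) < 4 * (inner ℝ δ δ)) {T : E} (hT : T = (2 / (inner ℝ β β)) • β + (2 / (inner ℝ γ γ)) • γ) :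
    (Perp R T).Nonempty ∧ Irr (Perp R T) ∧ ∀ v : E, (inner ℝ v T) = 0 → (∀ α ∈ Perp R T, (inner ℝ v α) = 0) → v = 0 := by
  have pβ := h.pos hβ.mem
  have pγ := h.pos hγ
  have pδ := h.pos hδ
  have hβγ : (inner ℝ β γ) = 0 := by rw [real_inner_comm]; exact hγβ
  have hlev := (hβ.lev δ hδ hδβ hδp).1
  have hvT : ∀ v : E, (inner ℝ v T) = 2 / (inner ℝ β β) * (inner ℝ v β) + 2 / (inner ℝ γ γ) * (inner ℝ v γ) := by
    intro v
    rw [hT, inner_add_right, real_inner_smul_right, real_inner_smul_right]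
  have hTiff : ∀ v : E, (inner ℝ v T) = 0 ↔ (inner ℝ v β) * (inner ℝ γ γ) + (inner ℝ v γ) * (inner ℝ β β) = 0 := by
    intro v
    rw [hvT]
    constructor
    · intro h1
      field_simp at h1
      linarith
    · intro h1
      field_simp
      linarith
  have hδT : δ ∈ Perp R T := ⟨hδ, by
    rw [hTiff]
    have e1 : (inner ℝ δ β) = (inner ℝ β β) / 2 := by linarith
    have e2 : (inner ℝ δ γ) = -(inner ℝ γ γ) / 2 := by linarith
    rw [e1, e2]
    ring⟩
  -- the roots orthogonal to `β` and `γ`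
  have hΨ : ∀ α ∈ R, (inner ℝ α β) = 0 → (inner ℝ α γ) = 0 → α ∈ Perp R T := fun α hα h1 h2 => ⟨hα, by rw [hTiff, h1, h2]; ring⟩
  -- vectors which are orthogonal to `β`, `γ` and to these roots
  have hspan2 : ∀ v : E, (inner ℝ v β) = 0 → (inner ℝ v γ) = 0 → (∀ α ∈ R, (inner ℝ α β) = 0 → (inner ℝ α γ) = 0 → (inner ℝ v α) = 0) → v = 0 := by
    intro v h1 h2 h3
    refine hβ.span v h1 fun α hα hαβ => ?_
    by_cases h4 : (inner ℝ α γ) = 0
    · exact h3 α hα hαβ h4
    · obtain ⟨c, hc⟩ := hpar α hα hαβ h4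
      rw [hc, real_inner_smul_right, h2, mul_zero]
  refine ⟨⟨δ, hδT⟩, ?_, ?_⟩
  · -- irreducibility: the part which contains `δ` is everything
    have main : ∀ S ⊆ Perp R T, δ ∈ S → (∀ a ∈ S, ∀ b ∈ Perp R T, b ∉ S → (inner ℝ a b) = 0) → S = Perp R T := by
      intro S hS hδS hort
      -- the roots orthogonal to `β`, `γ` are in `S`
      obtain ⟨C, hC⟩ : ∃ C : Set E, C = {α | α ∈ R ∧ (inner ℝ α β) = 0 ∧ (inner ℝ α γ) = 0 ∧ α ∉ S} := ⟨_, rfl⟩
      have hCm : ∀ α, α ∈ C ↔ α ∈ R ∧ (inner ℝ α β) = 0 ∧ (inner ℝ α γ) = 0 ∧ α ∉ S := fun α => by rw [hC]; rfl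
      have hCT : ∀ c ∈ C, c ∈ Perp R T ∧ c ∉ S := fun c hc => by
        obtain ⟨h1, h2, h3, h4⟩ := (hCm c).1 hc
        exact ⟨hΨ c h1 h2 h3, h4⟩
      have hδC : ∀ c ∈ C, (inner ℝ δ c) = 0 := fun c hc => hort δ hδS c (hCT c hc).1 (hCT c hc).2
      have hR₀C : ∀ α ∈ R, (inner ℝ α β) = 0 → ∀ c ∈ C, (inner ℝ α c) ≠ 0 → α ∈ C := by
        intro α hα hαβ c hc hne
        obtain ⟨c1, c2, c3, c4⟩ := (hCm c).1 hc
        have h1 : (inner ℝ α γ) = 0 := by
          by_contra h2
          obtain ⟨t, ht⟩ := hpar α hα hαβ h2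
          apply hne
          rw [ht, real_inner_smul_left, real_inner_comm, c3, mul_zero]
        refine (hCm α).2 ⟨hα, hαβ, h1, fun h2 => hne ?_⟩
        exact hort α h2 c (hCT c hc).1 (hCT c hc).2
      -- the Heisenberg part is orthogonal to `C`
      have hHC : ∀ ε ∈ R, ε ≠ β → 0 < (inner ℝ ε β) → ∀ c ∈ C, (inner ℝ ε c) = 0 := by
        have core : ∀ δ' ∈ R, δ' ≠ β → 0 < (inner ℝ δ' β) → (inner ℝ δ' δ') = (inner ℝ δ δ) → (∀ c ∈ C, (inner ℝ δ' c) = 0) → (2 * (inner ℝ δ' γ)) ^ 2 = (inner ℝ γ γ) ^ 2 →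
            ∀ ε ∈ R, ε ≠ β → 0 < (inner ℝ ε β) → ∀ c ∈ C, (inner ℝ ε c) ≠ 0 → 0 < (inner ℝ δ' ε) → False := by
          intro δ' hδ' hδ'β hδ'p hn hδ'C hδ'γ ε hε hεβ hεp c hc hne hp
          obtain ⟨h1, h2⟩ := h.level_sub hβ hδ' hδ'β hδ'p hε hεβ hεp hp
          have ec : (inner ℝ (δ' - ε) c) ≠ 0 := by
            rw [inner_sub_left, hδ'C c hc, zero_sub]
            exact neg_ne_zero.2 hne
          rcases h2 with h2 | h2
          · rw [h2, inner_zero_left] at ec
            exact ec rfl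
          have h3 : δ' - ε ∈ C := hR₀C _ h2 h1 c hc ec
          obtain ⟨c1, c2, c3, c4⟩ := (hCm _).1 h3
          have h4 := hδ'C _ h3
          have pc := h.pos c1
          rw [inner_sub_right] at h4
          rw [inner_sub_left, inner_sub_right, inner_sub_right, real_inner_comm δ' ε] at pc
          rw [inner_sub_left] at c3
          have e1 : (inner ℝ δ' ε) = (inner ℝ δ δ) := by rw [← hn]; linarith
          have e2 : (inner ℝ δ δ) < (inner ℝ ε ε) := by rw [e1, hn] at pc; linarith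
          -- integrality
          have i1 : ∀ x : ℝ, ∀ n : ℤ, 0 < x → x = n * (inner ℝ ε ε) → (inner ℝ ε ε) ≤ x := by
            intro x n hx hn
            have hE := h.pos hε
            have n0 : 0 < (n : ℝ) := by
              by_contra hcon
              rw [not_lt] at hcon
              nlinarith
            have n1 : 0 < n := by exact_mod_cast n0
            have n2 : (1 : ℝ) ≤ n := by exact_mod_cast n1
            rw [hn]
            nlinarith
          obtain ⟨n, hn1, -⟩ := h.refl δ' hδ' ε hε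
          obtain ⟨k, hk1, -⟩ := h.refl β hβ.mem ε hε
          obtain ⟨l, hl1, -⟩ := h.refl γ hγ ε hε
          have j0 : (inner ℝ ε ε) = 2 * (inner ℝ δ δ) := by
            rw [e1] at hn1
            have hE := h.pos hε
            have n0 : 0 < (n : ℝ) := by
              by_contra hcon
              rw [not_lt] at hcon
              nlinarith
            have n2 : (n : ℝ) < 2 := by
              by_contra hcon
              rw [not_lt] at hcon
              nlinarith
            have n1 : 0 < n := by exact_mod_cast n0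
            have n3 : n < 2 := by exact_mod_cast n2
            have n4 : n = 1 := by omega
            rw [n4, Int.cast_one, one_mul] at hn1
            exact hn1.symm
          have j1 : (inner ℝ ε ε) ≤ (inner ℝ β β) := by
            refine i1 _ k pβ ?_
            rw [← hk1, real_inner_comm ε β]
            exact (hβ.lev ε hε hεβ hεp).1.symm
          have j2 : (inner ℝ ε ε) ≤ (inner ℝ γ γ) := by
            have h5 : (inner ℝ ε γ) = (inner ℝ δ' γ) := by linarith
            have h6 : (2 * (inner ℝ γ ε)) ^ 2 = (inner ℝ γ γ) ^ 2 := by rw [real_inner_comm, h5, hδ'γ]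
            rcases sq_eq_sq_iff_eq_or_eq_neg.1 h6 with h7 | h7
            · exact i1 _ l pγ (by rw [← hl1, h7])
            · exact i1 _ (-l) pγ (by push_cast; rw [neg_mul, ← hl1, h7, neg_neg])
          linarith
        intro ε hε hεβ hεp c hc
        by_contra hne
        rcases lt_or_ge 0 (inner ℝ δ ε) with h1 | h1
        · exact core δ hδ hδβ hδp rfl hδC (by rw [hδγ]; ring) ε hε hεβ hεp c hc hne h1
        · obtain ⟨k1, k2, k3⟩ := RS.sub_level hβ hδ (h.ne δ hδ) hδβ hδp
          refine core (β - δ) k1 k2 k3 ?_ ?_ ?_ ε hε hεβ hεp c hc hne ?_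
          · rw [inner_sub_left, inner_sub_right, inner_sub_right, real_inner_comm δ β]
            linarith
          · intro c' hc'
            rw [inner_sub_left, hδC c' hc', real_inner_comm, ((hCm c').1 hc').2.1, sub_zero]
          · rw [inner_sub_left, hβγ]
            have : (2 * (0 - (inner ℝ δ γ))) ^ 2 = (2 * (inner ℝ δ γ)) ^ 2 := by ring
            rw [this, hδγ]
            ring
          · rw [inner_sub_left, real_inner_comm]
            have := (hβ.lev ε hε hεβ hεp).1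
            linarith
      have hCe : ∀ c, c ∉ C := by
        by_contra hne
        push Not at hne
        obtain ⟨c₀, hc₀⟩ := hne
        have h1 := hirr C (fun c hc => ((hCm c).1 hc).1) ⟨c₀, hc₀⟩ (fun c hc ρ hρ hρC => by
          obtain ⟨c1, c2, c3, c4⟩ := (hCm c).1 hc
          rcases lt_trichotomy (inner ℝ ρ β) 0 with h2 | h2 | h2
          · by_cases h3 : -ρ = β
            · have h4 : ρ = -β := by rw [← h3, neg_neg]
              rw [h4, inner_neg_right, c2, neg_zero]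
            · have h4 := hHC (-ρ) (h.neg hρ) h3 (by rw [inner_neg_left]; linarith) c hc
              rw [inner_neg_left, neg_eq_zero] at h4
              rw [real_inner_comm]
              exact h4
          · by_contra hne
            exact hρC (hR₀C ρ hρ h2 c hc (by rwa [real_inner_comm]))
          · by_cases h3 : ρ = β
            · rw [h3]
              exact c2
            · rw [real_inner_comm]
              exact hHC ρ hρ h3 h2 c hc)
        have h2 : β ∈ C := by rw [h1]; exact hβ.mem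
        exact pβ.ne' ((hCm β).1 h2).2.1
      have hΨS : ∀ α ∈ R, (inner ℝ α β) = 0 → (inner ℝ α γ) = 0 → α ∈ S := by
        intro α h1 h2 h3
        by_contra h4
        exact hCe α ((hCm α).2 ⟨h1, h2, h3, h4⟩)
      -- the other roots
      have hpos : ∀ α ∈ Perp R T, 0 < (inner ℝ α β) → α ∈ S := by
        rintro α ⟨hα, hαT⟩ hp
        by_contra hαS
        have hαδ : (inner ℝ δ α) = 0 := hort δ hδS α ⟨hα, hαT⟩ hαS
        have hαβ : α ≠ β := by
          rintro rfl
          rw [hTiff, hβγ] at hαT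
          have := mul_pos pβ pγ
          linarith
        have h1 := (hβ.lev α hα hαβ hp).1
        have h2 : 2 * (inner ℝ α γ) = -(inner ℝ γ γ) := by
          rw [hTiff] at hαT
          have h3 : (inner ℝ β β) * (2 * (inner ℝ α γ) + (inner ℝ γ γ)) = 0 := by
            have e : (inner ℝ α β) = (inner ℝ β β) / 2 := by linarith
            rw [e] at hαT
            linarith
          have h4 := (mul_eq_zero.1 h3).resolve_left pβ.ne'
          linarith
        have h3 : α - (1 / 2 : ℝ) • β + (1 / 2 : ℝ) • γ = 0 := by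
          refine hspan2 _ ?_ ?_ ?_
          · rw [inner_add_left, inner_sub_left, real_inner_smul_left, real_inner_smul_left, hγβ]
            linarith
          · rw [inner_add_left, inner_sub_left, real_inner_smul_left, real_inner_smul_left, hβγ]
            linarith
          · intro σ hσ hσβ hσγ
            have h4 : (inner ℝ σ α) = 0 := hort σ (hΨS σ hσ hσβ hσγ) α ⟨hα, hαT⟩ hαS
            have h5 : (inner ℝ α σ) = 0 := by rw [real_inner_comm]; exact h4
            have h6 : (inner ℝ β σ) = 0 := by rw [real_inner_comm]; exact hσβ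
            have h7 : (inner ℝ γ σ) = 0 := by rw [real_inner_comm]; exact hσγ
            rw [inner_add_left, inner_sub_left, real_inner_smul_left, real_inner_smul_left, h5, h6, h7]
            ring
        have h4 : (inner ℝ δ (α - (1 / 2 : ℝ) • β + (1 / 2 : ℝ) • γ)) = 0 := by rw [h3, inner_zero_right]
        rw [inner_add_right, inner_sub_right, real_inner_smul_right, real_inner_smul_right, hαδ] at h4
        linarith
      refine Set.Subset.antisymm hS ?_
      intro α hα
      rcases lt_trichotomy (inner ℝ α β) 0 with h1 | h1 | h1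
      · have h2 : -α ∈ Perp R T := ⟨h.neg hα.1, by rw [inner_neg_left, hα.2, neg_zero]⟩
        have h3 := hpos (-α) h2 (by rw [inner_neg_left]; linarith)
        by_contra h4
        have h5 := hort (-α) h3 α hα h4
        rw [inner_neg_left, neg_eq_zero] at h5
        exact (h.pos hα.1).ne' h5
      · have h2 := (hTiff α).1 hα.2
        rw [h1, zero_mul, zero_add] at h2
        exact hΨS α hα.1 h1 ((mul_eq_zero.1 h2).resolve_right pβ.ne')
      · exact hpos α hα h1
    intro S hS hne hort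
    by_cases hδS : δ ∈ S
    · exact main S hS hδS hort
    · -- the complement
      exfalso
      have h1 := main (Perp R T \ S) Set.sdiff_subset ⟨hδT, hδS⟩ (fun a ha b hb hbS => by
        have h2 : b ∈ S := by
          by_contra h3
          exact hbS ⟨hb, h3⟩
        rw [real_inner_comm]
        exact hort b h2 a ha.1 ha.2)
      obtain ⟨s, hs⟩ := hne
      have h2 : s ∈ Perp R T \ S := by rw [h1]; exact hS hs
      exact h2.2 hs
  · intro v hvT0 hv
    have hc : v - ((inner ℝ v β) / (inner ℝ β β)) • β - ((inner ℝ v γ) / (inner ℝ γ γ)) • γ = 0 := by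
      refine hspan2 _ ?_ ?_ ?_
      · rw [inner_sub_left, inner_sub_left, real_inner_smul_left, real_inner_smul_left, hγβ]
        field_simp
        ring
      · rw [inner_sub_left, inner_sub_left, real_inner_smul_left, real_inner_smul_left, hβγ]
        field_simp
        ring
      · intro α hα h1 h2
        have h6 : (inner ℝ β α) = 0 := by rw [real_inner_comm]; exact h1
        have h7 : (inner ℝ γ α) = 0 := by rw [real_inner_comm]; exact h2
        rw [inner_sub_left, inner_sub_left, real_inner_smul_left, real_inner_smul_left, h6, h7, hv α (hΨ α hα h1 h2)]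
        ring
    have h1 := hv δ hδT
    have h2 := (hTiff v).1 hvT0
    have h3 : v = ((inner ℝ v β) / (inner ℝ β β)) • β + ((inner ℝ v γ) / (inner ℝ γ γ)) • γ := by
      rw [sub_sub, sub_eq_zero] at hc
      exact hc
    have h4 : (inner ℝ v δ) = (inner ℝ v β) / 2 - (inner ℝ v γ) / 2 := by
      have e1 : (inner ℝ β δ) = (inner ℝ β β) / 2 := by rw [real_inner_comm]; linarith
      have e2 : (inner ℝ γ δ) = -(inner ℝ γ γ) / 2 := by rw [real_inner_comm]; linarith
      have e3 : (inner ℝ v δ) = (inner ℝ (((inner ℝ v β) / (inner ℝ β β)) • β + ((inner ℝ v γ) / (inner ℝ γ γ)) • γ) δ) := by rw [← h3]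
      rw [e3, inner_add_left, real_inner_smul_left, real_inner_smul_left, e1, e2]
      field_simp
      ring
    rw [h1] at h4
    have h5 : (inner ℝ v β) = (inner ℝ v γ) := by linarith
    rw [← h5] at h2
    have h6 : (inner ℝ v β) * ((inner ℝ γ γ) + (inner ℝ β β)) = 0 := by linarith
    have h7 := (mul_eq_zero.1 h6).resolve_right (by positivity)
    rw [← h5, h7, zero_div, zero_div, zero_smul, zero_smul, add_zero] at h3
    exact h3

/-- A Cartan element whose centraliser is irreducible, of corank one. -/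
theorem cartan_el [FiniteDimensional ℝ E] {R : Set E} (h : RS R) (hfin : R.Finite) (hirr : Irr R)
    (hspan : ∀ v : E, (∀ a ∈ R, (inner ℝ v a) = 0) → v = 0) (hdim : 2 ≤ Module.finrank ℝ E) (hA : ¬ IsTypeA R) :
    ∃ T : E, (∃ β ∈ R, T = (2 / (inner ℝ β β)) • β ∨ ∃ γ ∈ R, (inner ℝ β γ) = 0 ∧ β + γ ∉ R ∧ β - γ ∉ R ∧
      T = (2 / (inner ℝ β β)) • β + (2 / (inner ℝ γ γ)) • γ) ∧
      (Perp R T).Nonempty ∧ Irr (Perp R T) ∧ ∀ v : E, (inner ℝ v T) = 0 → (∀ α ∈ Perp R T, (inner ℝ v α) = 0) → v = 0 := by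
  have hnt : Nontrivial E := Module.nontrivial_of_finrank_pos (R := ℝ) (by omega)
  have hne : R.Nonempty := by
    by_contra h1
    rw [Set.not_nonempty_iff_eq_empty] at h1
    obtain ⟨v, hv⟩ := exists_ne (0 : E)
    exact hv (hspan v (by rw [h1]; exact fun a ha => absurd ha (Set.notMem_empty a)))
  rcases high h hfin hne hirr hspan with ⟨β, hβR, h1, h2, h3⟩ | h1
  swap
  · exact absurd h1 hA
  have hβ : Hi R β := ⟨hβR, h1, h2, h3⟩
  have pβ := h.pos hβR
  by_cases hI : Irr {α | α ∈ R ∧ (inner ℝ α β) = 0}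
  · -- `T = β^∨`
    have hP : Perp R ((2 / (inner ℝ β β)) • β) = {α | α ∈ R ∧ (inner ℝ α β) = 0} := by
      ext α
      constructor
      · rintro ⟨h4, h5⟩
        rw [real_inner_smul_right] at h5
        exact ⟨h4, (mul_eq_zero.1 h5).resolve_left (by positivity)⟩
      · rintro ⟨h4, h5⟩
        exact ⟨h4, by rw [real_inner_smul_right, h5, mul_zero]⟩
    refine ⟨(2 / (inner ℝ β β)) • β, ⟨β, hβR, Or.inl rfl⟩, ?_, by rw [hP]; exact hI, ?_⟩
    · -- there is a vector orthogonal to `β`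
      rw [hP]
      by_contra h4
      rw [Set.not_nonempty_iff_eq_empty] at h4
      have h5 : ∃ v : E, v ≠ 0 ∧ (inner ℝ v β) = 0 := by
        by_contra h6
        push Not at h6
        have h7 : LinearMap.ker (innerSL ℝ β : E →L[ℝ] ℝ).toLinearMap = ⊥ := by
          rw [Submodule.eq_bot_iff]
          intro v hv
          by_contra h8
          exact h6 v h8 (by
            have : (inner ℝ β v) = 0 := hv
            rwa [real_inner_comm])
        have h8 := LinearMap.finrank_le_finrank_of_injective (LinearMap.ker_eq_bot.1 h7)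
        rw [Module.finrank_self] at h8
        omega
      obtain ⟨v, hv, hv2⟩ := h5
      refine hv (h3 v hv2 fun γ hγ hγβ => ?_)
      have h6 : γ ∈ ({α | α ∈ R ∧ (inner ℝ α β) = 0} : Set E) := ⟨hγ, hγβ⟩
      rw [h4] at h6
      exact absurd h6 (Set.notMem_empty γ)
    · intro v hv hv2
      rw [real_inner_smul_right] at hv
      refine h3 v ((mul_eq_zero.1 hv).resolve_left (by positivity)) fun γ hγ hγβ => ?_
      exact hv2 γ (by rw [hP]; exact ⟨hγ, hγβ⟩)
  · -- `T = β^∨ + γ^∨`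
    unfold Irr at hI
    push Not at hI
    obtain ⟨A, hA1, hA2, hA3, hA4⟩ := hI
    obtain ⟨B, hB⟩ : ∃ B : Set E, B = {α | α ∈ R ∧ (inner ℝ α β) = 0} \ A := ⟨_, rfl⟩
    have hD : Dec R β A B := by
      refine ⟨fun a ha => hA1 ha, fun b hb => ?_, fun γ hγ hγβ => ?_, fun a ha b hb => ?_⟩
      · rw [hB] at hb
        exact hb.1
      · by_cases h4 : γ ∈ A
        · exact Or.inl h4
        · exact Or.inr (by rw [hB]; exact ⟨⟨hγ, hγβ⟩, h4⟩)
      · rw [hB] at hb
        exact hA3 a ha b hb.1 hb.2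
    have hBne : B.Nonempty := by
      by_contra h4
      rw [Set.not_nonempty_iff_eq_empty] at h4
      apply hA4
      refine Set.Subset.antisymm hA1 fun γ hγ => ?_
      rcases hD.cov γ hγ.1 hγ.2 with h5 | h5
      · exact h5
      · rw [h4] at h5
        exact absurd h5 (Set.notMem_empty γ)
    obtain ⟨δ, hδ, hδβ, hδp, ⟨a₀, ha₀, hδa⟩, b₀, hb₀, hδb⟩ := h.exists_delta hirr hβ hD hA2 hBne
    have hγ : ∃ γ ∈ R, (inner ℝ γ β) = 0 ∧ 2 * (inner ℝ δ γ) = -(inner ℝ γ γ) ∧ (∀ α ∈ R, (inner ℝ α β) = 0 → (inner ℝ α γ) ≠ 0 → ∃ c : ℝ, α = c • γ) ∧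
        (inner ℝ β β) + (inner ℝ γ γ) < 4 * (inner ℝ δ δ) := by
      by_cases hPA : ∀ a ∈ A, (inner ℝ δ a) ≠ 0 → ∀ a' ∈ A, (inner ℝ δ a') * (inner ℝ a a) = (inner ℝ δ a) * (inner ℝ a a')
      · exact h.side hβ hD hδ hδβ hδp ha₀ hb₀ hδa hδb hPA
      · push Not at hPA
        obtain ⟨a, ha, hne', a', ha', hne2⟩ := hPA
        refine h.side hβ hD.symm hδ hδβ hδp hb₀ ha₀ hδb hδa fun b hb hbne => ?_
        rcases h.dich hβ hD hδ hδβ hδp ha hb hne' hbne with h4 | h4
        · exact absurd (h4 a' ha') hne2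
        · exact h4
    obtain ⟨γ, hγ, hγβ, hδγ, hpar, hlt⟩ := hγ
    obtain ⟨h4, h5⟩ := hβ.so γ hγ hγβ
    exact ⟨_, ⟨β, hβR, Or.inr ⟨γ, hγ, by rw [real_inner_comm]; exact hγβ, h4, h5, rfl⟩⟩,
      perp_irr h hirr hβ hγ hγβ hδ hδβ hδp hδγ hpar hlt rfl⟩

end Pool.Agent.Helper96.TO
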