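import Pool.Agent.Helper96.TO.Irr
import Pool.Agent.Helper96.TO.Red
import Pool.Agent.Helper43.TA.SDef2

/-!
# Project TO (MP_0f6f3f_an): the subalgebra of a closed set of roots

`gens G V S` (file Irr): the root vectors for the roots in `S` and the brackets of opposite root vectors. `lsub_gens`: its span is a Lie algebra if `S` is closed and symmetric. `isSim_gens`: it is simple if `S` is irreducible. PROOF of the latter. `I` an ideal of the span `s`, `J` its orthogonal complement in `s`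
for `tr(X Yᵀ)`: also an ideal, since `ad(Y)* = ad(Yᵀ)`. A root vector `X` for `C ∈ S` is `X₁ + X₂`, both are root vectors for `C`, and `C` is a multiple of `[X₁, X₁ᵀ]`, in `I` if `X₁ ≠ 0`, and in `J` if `X₂ ≠ 0`. So `S` is the union of the roots in `I` and of those in `J`.
-/

set_option autoImplicit false

open Matrix

namespace Pool.Agent.Helper96.TO

open Pool.Agent.Helper96.SA Pool.Agent.Helper43.TA

variable {N : ℕ} {G : Subgroup (GL (Fin N) ℝ)} {V : Submodule ℝ (Mat N)} {S : Set (Mat N)}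

private theorem jac2 (Z X Y : Mat N) : Z * (X * Y - Y * X) - (X * Y - Y * X) * Z =
    ((Z * X - X * Z) * Y - Y * (Z * X - X * Z)) + (X * (Z * Y - Y * Z) - (Z * Y - Y * Z) * X) := by
  noncomm_ring

private theorem wt0 {D X : Mat N} (h : Wt G V (0 + D) X) : Wt G V D X := by rwa [zero_add] at h

/-- closed symmetric sets of roots -/
structure Clo (G : Subgroup (GL (Fin N) ℝ)) (V : Submodule ℝ (Mat N)) (S : Set (Mat N)) : Prop where
  sub : S ⊆ Rt G V
  neg : ∀ C ∈ S, -C ∈ S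
  add : ∀ C ∈ S, ∀ D ∈ S, C + D ∈ Rt G V → C + D ∈ S

theorem Wt.zero_or {C Z : Mat N} (h : Wt G V C Z) (hC : C ∈ V) : Z = 0 ∨ C = 0 ∨ C ∈ Rt G V := by
  by_cases h1 : Z = 0
  · exact Or.inl h1
  by_cases h2 : C = 0
  · exact Or.inr (Or.inl h2)
  · exact Or.inr (Or.inr ⟨hC, h2, Z, h1, h⟩)

theorem mem_lie_of_span (hG : IsClosed (G : Set (GL (Fin N) ℝ))) {A : Set (Mat N)} (hA : ∀ X ∈ A, X ∈ lie G) {X : Mat N}
    (hX : X ∈ Submodule.span ℝ A) : X ∈ lie G := by
  obtain ⟨L, hL⟩ := lie_submodule hG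
  have h1 : Submodule.span ℝ A ≤ L := Submodule.span_le.2 fun Y hY => by rw [hL]; exact hA Y hY
  rw [← hL]
  exact h1 hX

theorem bracket_span {A : Set (Mat N)} {K : Submodule ℝ (Mat N)} (h : ∀ X ∈ A, ∀ Y ∈ A, X * Y - Y * X ∈ K) {X Y : Mat N}
    (hX : X ∈ Submodule.span ℝ A) (hY : Y ∈ Submodule.span ℝ A) : X * Y - Y * X ∈ K := by
  have k2 : ∀ Y ∈ A, X * Y - Y * X ∈ K := by
    intro W hW
    refine Submodule.span_induction ?_ ?_ ?_ ?_ hX
    · intro Z hZ
      exact h Z hZ W hW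
    · rw [Matrix.zero_mul, Matrix.mul_zero, sub_zero]
      exact K.zero_mem
    · intro Z Z' _ _ h1 h2
      have e : (Z + Z') * W - W * (Z + Z') = (Z * W - W * Z) + (Z' * W - W * Z') := by
        rw [Matrix.add_mul, Matrix.mul_add]
        abel
      rw [e]
      exact K.add_mem h1 h2
    · intro c Z _ h1
      rw [Matrix.smul_mul, Matrix.mul_smul, ← smul_sub]
      exact K.smul_mem c h1
  refine Submodule.span_induction ?_ ?_ ?_ ?_ hY
  · exact k2
  · rw [Matrix.zero_mul, Matrix.mul_zero, sub_zero]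
    exact K.zero_mem
  · intro W W' _ _ h1 h2
    have e : X * (W + W') - (W + W') * X = (X * W - W * X) + (X * W' - W' * X) := by
      rw [Matrix.add_mul, Matrix.mul_add]
      abel
    rw [e]
    exact K.add_mem h1 h2
  · intro c W _ h1
    rw [Matrix.smul_mul, Matrix.mul_smul, ← smul_sub]
    exact K.smul_mem c h1

theorem lsub_gens (hG : IsClosed (G : Set (GL (Fin N) ℝ))) (ht : ∀ X ∈ lie G, Xᵀ ∈ lie G) (hV : IsFlat G V) (hS : Clo G V S) :
    LSub G (Submodule.span ℝ (gens G V S)) := by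
  refine ⟨fun X hX => mem_lie_of_span hG ?_ hX, fun X hX Y hY => bracket_span ?_ hX hY, ?_⟩
  · rintro X (⟨C, hC, hX⟩ | ⟨C, hC, Y, Z, hY, hZ, rfl⟩)
    · exact hX.1
    · exact lie_bracket hG hY.1 hZ.1
  · rintro X (⟨C, hC, hX⟩ | ⟨C, hC, Y, Z, hY, hZ, rfl⟩) W (⟨D, hD, hW⟩ | ⟨D, hD, Y', Z', hY', hZ', rfl⟩)
    · have h1 := hX.bracket hG hW
      rcases h1.zero_or (V.add_mem (hS.sub hC).1 (hS.sub hD).1) with h2 | h2 | h2
      · rw [h2]
        exact Submodule.zero_mem _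
      · have h3 : D = -C := by rw [← sub_eq_zero, sub_neg_eq_add, add_comm]; exact h2
        rw [h3] at hW
        exact Submodule.subset_span (Or.inr ⟨C, hC, X, W, hX, hW, rfl⟩)
      · exact Submodule.subset_span (Or.inl ⟨_, hS.add C hC D hD h2, h1⟩)
    · have h1 := hX.bracket hG (hY'.bracket hG hZ')
      rw [add_neg_cancel, add_zero] at h1
      exact Submodule.subset_span (Or.inl ⟨C, hC, h1⟩)
    · have h1 := (hY.bracket hG hZ).bracket hG hW
      rw [add_neg_cancel, zero_add] at h1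
      exact Submodule.subset_span (Or.inl ⟨D, hD, h1⟩)
    · rw [jac2]
      have h1 := hY.bracket hG hZ
      rw [add_neg_cancel] at h1
      exact Submodule.add_mem _ (Submodule.subset_span (Or.inr ⟨D, hD, _, _, wt0 (h1.bracket hG hY'), hZ', rfl⟩))
        (Submodule.subset_span (Or.inr ⟨D, hD, _, _, hY', wt0 (h1.bracket hG hZ'), rfl⟩))
  · intro X hX
    refine Submodule.span_induction (p := fun X _ => Xᵀ ∈ Submodule.span ℝ (gens G V S)) ?_ ?_ ?_ ?_ hX
    · rintro X (⟨C, hC, hX⟩ | ⟨C, hC, Y, Z, hY, hZ, rfl⟩)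
      · exact Submodule.subset_span (Or.inl ⟨-C, hS.neg C hC, hX.transpose ht hV.symm⟩)
      · rw [Matrix.transpose_sub, Matrix.transpose_mul, Matrix.transpose_mul]
        have h1 := hZ.transpose ht hV.symm
        rw [neg_neg] at h1
        exact Submodule.subset_span (Or.inr ⟨C, hC, Zᵀ, Yᵀ, h1, hY.transpose ht hV.symm, rfl⟩)
    · rw [Matrix.transpose_zero]
      exact Submodule.zero_mem _
    · intro X Y _ _ h1 h2
      rw [Matrix.transpose_add]
      exact Submodule.add_mem _ h1 h2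
    · intro c X _ h1
      rw [Matrix.transpose_smul]
      exact Submodule.smul_mem _ c h1

/-- Orthogonal decomposition for the trace form. -/
theorem exists_decomp (I : Submodule ℝ (Mat N)) (X : Mat N) : ∃ X₁ ∈ I, ∀ Y ∈ I, (Y * (X - X₁)ᵀ).trace = 0 := by
  have hin : ∀ A B : Mat N, inner ℝ (vec N A) (vec N B) = (A * Bᵀ).trace := by
    intro A B
    rw [EuclideanSpace.inner_eq_star_dotProduct]
    change (fun ij : Fin N × Fin N => B ij.1 ij.2) ⬝ᵥ star (fun ij : Fin N × Fin N => A ij.1 ij.2) = _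
    unfold dotProduct
    rw [Fintype.sum_prod_type, Matrix.trace]
    refine Finset.sum_congr rfl fun i _ => ?_
    rw [Matrix.diag_apply, Matrix.mul_apply]
    refine Finset.sum_congr rfl fun j _ => ?_
    change B i j * star (A i j) = A i j * B i j
    rw [star_trivial, mul_comm]
  have h1 := Submodule.coe_mem (((I.map (vec N)).orthogonalProjectionOnto (vec N X)))
  obtain ⟨X₁, hX₁, h2⟩ := h1
  refine ⟨X₁, hX₁, fun Y hY => ?_⟩
  rw [← hin, map_sub, h2]
  have h3 : vec N Y ∈ I.map (vec N) := ⟨Y, hY, rfl⟩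
  exact Submodule.sub_starProjection_mem_orthogonal (K := I.map (vec N)) (vec N X) (vec N Y) h3

theorem trace_mul_self_transpose_pos {X : Mat N} (h : X ≠ 0) : 0 < (X * Xᵀ).trace := trace_mul_transpose_pos h

theorem adj_trace (Y H Z : Mat N) : (Y * (H * Z - Z * H)ᵀ).trace = ((Hᵀ * Y - Y * Hᵀ) * Zᵀ).trace := by
  rw [Matrix.transpose_sub, Matrix.transpose_mul, Matrix.transpose_mul, Matrix.mul_sub, Matrix.sub_mul, Matrix.trace_sub,
    Matrix.trace_sub, ← Matrix.mul_assoc, ← Matrix.mul_assoc, Matrix.trace_mul_comm (Y * Zᵀ) Hᵀ, Matrix.mul_assoc Hᵀ Y Zᵀ]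

/-- Irreducible sets of roots. -/
def IrrS (S : Set (Mat N)) : Prop := ∀ A ⊆ S, A.Nonempty → (∀ C ∈ A, ∀ D ∈ S, D ∉ A → (C * D).trace = 0) → A = S

/-- The Lie algebra of an irreducible closed set of roots, whose span and `T` span `V`, is simple. -/
theorem isSim_gens (hG : IsClosed (G : Set (GL (Fin N) ℝ))) (ht : ∀ X ∈ lie G, Xᵀ ∈ lie G) (hV : IsFlat G V)
    (hmax : ∀ Y ∈ lie G, Yᵀ = Y → (∀ H ∈ V, Y * H = H * Y) → Y ∈ V) (hS : Clo G V S) (hne : S.Nonempty) (hirr : IrrS S)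
    (hcen : ∀ H ∈ V, ∃ H₀ ∈ Submodule.span ℝ S, ∀ C ∈ S, (C * (H - H₀)).trace = 0) :
    IsSim (Submodule.span ℝ (gens G V S)) := by
  obtain ⟨s, hs⟩ : ∃ s : Submodule ℝ (Mat N), s = Submodule.span ℝ (gens G V S) := ⟨_, rfl⟩
  have hsub := lsub_gens hG ht hV hS
  rw [← hs] at hsub ⊢
  -- the roots are in `s`
  have hroot : ∀ C ∈ S, ∀ X, Wt G V C X → X ∈ s := fun C hC X hX => by
    rw [hs]
    exact Submodule.subset_span (Or.inl ⟨C, hC, hX⟩)
  have hcor : ∀ C ∈ S, ∀ X, Wt G V C X → X * Xᵀ - Xᵀ * X = (X * Xᵀ).trace • C := fun C hC X hX =>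
    coroot hG ht hV hmax (hS.sub hC).1 hX
  have hCs : ∀ C ∈ S, C ∈ s := by
    intro C hC
    obtain ⟨-, -, X, hX0, hX⟩ := hS.sub hC
    have h1 := hsub.brk X (hroot C hC X hX) Xᵀ (hsub.tr X (hroot C hC X hX))
    rw [hcor C hC X hX] at h1
    have h2 := s.smul_mem (X * Xᵀ).trace⁻¹ h1
    rwa [smul_smul, inv_mul_cancel₀ (trace_mul_transpose_pos hX0).ne', one_smul] at h2
  have hspan : Submodule.span ℝ S ≤ s := Submodule.span_le.2 hCs
  -- elements of `s` and of `V`
  have hcomm0 : ∀ K ∈ V, (∀ C ∈ S, (C * K).trace = 0) → ∀ X ∈ s, K * X - X * K = 0 := by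
    intro K hK h0 X hX
    rw [hs] at hX
    refine Submodule.span_induction ?_ ?_ ?_ ?_ hX
    · rintro X (⟨C, hC, hX⟩ | ⟨C, hC, Y, Z, hY, hZ, rfl⟩)
      · rw [hX.2 K hK, h0 C hC, zero_smul]
      · rw [(hY.bracket hG hZ).2 K hK, add_neg_cancel, Matrix.zero_mul, Matrix.trace_zero, zero_smul]
    · rw [Matrix.zero_mul, Matrix.mul_zero, sub_zero]
    · intro X Y _ _ h1 h2
      rw [Matrix.mul_add, Matrix.add_mul]
      have e : K * X + K * Y - (X * K + Y * K) = (K * X - X * K) + (K * Y - Y * K) := by abel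
      rw [e, h1, h2, add_zero]
    · intro c X _ h1
      rw [Matrix.mul_smul, Matrix.smul_mul, ← smul_sub, h1, smul_zero]
  have hlevel : ∀ C ∈ S, ∀ X, Wt G V C X → C * X - X * C = (C * C).trace • X := fun C hC X hX => hX.2 C (hS.sub hC).1
  have hCC : ∀ C ∈ S, 0 < (C * C).trace := fun C hC => trace_self_pos (hV.symm _ (hS.sub hC).1) (hS.sub hC).2.1
  refine ⟨?_, ?_⟩
  · obtain ⟨C, hC⟩ := hne
    obtain ⟨-, hC0, X, hX0, hX⟩ := hS.sub hC
    refine ⟨X, hroot C hC X hX, Xᵀ, hsub.tr X (hroot C hC X hX), fun h1 => ?_⟩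
    have h2 := hcor C hC X hX
    rw [sub_eq_zero.2 h1] at h2
    rcases smul_eq_zero.1 h2.symm with h3 | h3
    · exact (trace_mul_transpose_pos hX0).ne' h3
    · exact hC0 h3
  · intro I hIs hI
    -- the complement
    obtain ⟨J, hJm⟩ : ∃ J : Submodule ℝ (Mat N), ∀ W, W ∈ J ↔ W ∈ s ∧ ∀ Y ∈ I, (Y * Wᵀ).trace = 0 :=
      ⟨{ carrier := {W | W ∈ s ∧ ∀ Y ∈ I, (Y * Wᵀ).trace = 0}
         add_mem' := fun {a b} ha hb => ⟨s.add_mem ha.1 hb.1, fun Y hY => by
           rw [Matrix.transpose_add, Matrix.mul_add, Matrix.trace_add, ha.2 Y hY, hb.2 Y hY, add_zero]⟩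
         zero_mem' := ⟨s.zero_mem, fun Y _ => by rw [Matrix.transpose_zero, Matrix.mul_zero, Matrix.trace_zero]⟩
         smul_mem' := fun c a ha => ⟨s.smul_mem c ha.1, fun Y hY => by
           rw [Matrix.transpose_smul, Matrix.mul_smul, Matrix.trace_smul, ha.2 Y hY, smul_zero]⟩ }, fun W => Iff.rfl⟩
    have hJ : ∀ W ∈ J, ∀ K ∈ s, K * W - W * K ∈ J := by
      intro W hW K hK
      rw [hJm] at hW ⊢
      refine ⟨hsub.brk K hK W hW.1, fun Y hY => ?_⟩
      rw [adj_trace]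
      exact hW.2 _ (hI Y hY _ (hsub.tr K hK))
    -- root vectors decompose
    have key : ∀ C ∈ S, ∀ X, Wt G V C X → ∃ X₁ ∈ I, Wt G V C X₁ ∧ Wt G V C (X - X₁) ∧ X - X₁ ∈ J := by
      intro C hC X hX
      obtain ⟨X₁, hX₁, hX₂⟩ := exists_decomp I X
      have hXs := hroot C hC X hX
      have hX1s := hIs hX₁
      have hX2s := s.sub_mem hXs hX1s
      have hX2J : X - X₁ ∈ J := (hJm _).2 ⟨hX2s, hX₂⟩
      -- for `H` in the span of `S`
      have h1 : ∀ H ∈ V, H * X₁ - X₁ * H = (C * H).trace • X₁ := by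
        intro H hH
        obtain ⟨H₀, hH₀, h2⟩ := hcen H hH
        have hH0V : H₀ ∈ V := (Submodule.span_le.2 fun D hD => (hS.sub hD).1 : Submodule.span ℝ S ≤ V) hH₀
        have h3 := hcomm0 (H - H₀) (V.sub_mem hH hH0V) h2 X₁ hX1s
        have h4 : (C * H).trace = (C * H₀).trace := by
          have h5 := h2 C hC
          rw [Matrix.mul_sub, Matrix.trace_sub] at h5
          linarith
        have h6 : H * X₁ - X₁ * H = H₀ * X₁ - X₁ * H₀ := by
          rw [Matrix.sub_mul, Matrix.mul_sub] at h3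
          rw [← sub_eq_zero, ← h3]
          abel
        rw [h6, h4]
        -- the difference is in `I` and in `J`
        obtain ⟨W, hW⟩ : ∃ W : Mat N, W = H₀ * X₁ - X₁ * H₀ - (C * H₀).trace • X₁ := ⟨_, rfl⟩
        have hWI : W ∈ I := by
          rw [hW]
          exact I.sub_mem (hI X₁ hX₁ H₀ (hspan hH₀)) (I.smul_mem _ hX₁)
        have hW2 : W = -(H₀ * (X - X₁) - (X - X₁) * H₀ - (C * H₀).trace • (X - X₁)) := by
          have h7 := hX.2 H₀ hH0V
          rw [hW, Matrix.mul_sub, Matrix.sub_mul, smul_sub, ← h7]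
          abel
        have hWJ : W ∈ J := by
          rw [hW2]
          exact J.neg_mem (J.sub_mem (hJ _ hX2J H₀ (hspan hH₀)) (J.smul_mem _ hX2J))
        have hW0 : W = 0 := by
          by_contra hne
          exact (trace_mul_transpose_pos hne).ne' (((hJm W).1 hWJ).2 W hWI)
        rw [hW] at hW0
        exact sub_eq_zero.1 hW0
      have hX1w : Wt G V C X₁ := ⟨hsub.mem X₁ hX1s, h1⟩
      refine ⟨X₁, hX₁, hX1w, ⟨hsub.mem _ hX2s, fun H hH => ?_⟩, hX2J⟩
      rw [Matrix.mul_sub, Matrix.sub_mul, smul_sub, ← hX.2 H hH, ← h1 H hH]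
      abel
    have hor : ∀ C ∈ S, C ∈ I ∨ C ∈ J := by
      intro C hC
      obtain ⟨-, hC0, X, hX0, hX⟩ := hS.sub hC
      obtain ⟨X₁, h1, h2, h3, h4⟩ := key C hC X hX
      by_cases h5 : X₁ = 0
      · right
        have h6 : X - X₁ ≠ 0 := by rw [h5, sub_zero]; exact hX0
        have h7 := hJ _ h4 _ (hsub.tr _ ((hJm _).1 h4).1)
        have h8 := hcor C hC _ h3
        have h9 : (X - X₁)ᵀ * (X - X₁) - (X - X₁) * (X - X₁)ᵀ = (-((X - X₁) * (X - X₁)ᵀ).trace) • C := by
          rw [neg_smul, ← h8]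
          abel
        rw [h9] at h7
        have h10 := J.smul_mem (-((X - X₁) * (X - X₁)ᵀ).trace)⁻¹ h7
        rwa [smul_smul, inv_mul_cancel₀ (neg_ne_zero.2 (trace_mul_transpose_pos h6).ne'), one_smul] at h10
      · left
        have h7 := hI _ h1 _ (hsub.tr _ (hIs h1))
        have h8 := hcor C hC _ h2
        have h9 : X₁ᵀ * X₁ - X₁ * X₁ᵀ = (-(X₁ * X₁ᵀ).trace) • C := by
          rw [neg_smul, ← h8]
          abel
        rw [h9] at h7
        have h10 := I.smul_mem (-(X₁ * X₁ᵀ).trace)⁻¹ h7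
        rwa [smul_smul, inv_mul_cancel₀ (neg_ne_zero.2 (trace_mul_transpose_pos h5).ne'), one_smul] at h10
    -- an ideal which contains the roots contains the root vectors
    have gen : ∀ K : Submodule ℝ (Mat N), (∀ X ∈ K, ∀ Y ∈ s, Y * X - X * Y ∈ K) → (∀ C ∈ S, C ∈ K) → s ≤ K := by
      intro K hK hSK
      have h1 : ∀ C ∈ S, ∀ X, Wt G V C X → X ∈ K := by
        intro C hC X hX
        have h2 := hK C (hSK C hC) X (hroot C hC X hX)
        have h3 : X * C - C * X = (-(C * C).trace) • X := by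
          rw [neg_smul, ← hlevel C hC X hX]
          abel
        rw [h3] at h2
        have h4 := K.smul_mem (-(C * C).trace)⁻¹ h2
        rwa [smul_smul, inv_mul_cancel₀ (neg_ne_zero.2 (hCC C hC).ne'), one_smul] at h4
      rw [hs]
      refine Submodule.span_le.2 ?_
      rintro X (⟨C, hC, hX⟩ | ⟨C, hC, Y, Z, hY, hZ, rfl⟩)
      · exact h1 C hC X hX
      · exact hK Z (h1 _ (hS.neg C hC) Z hZ) Y (hroot C hC Y hY)
    by_cases hA : {C | C ∈ S ∧ C ∈ I}.Nonempty
    · right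
      have h1 := hirr _ (fun C hC => hC.1) hA (fun C hC D hD hDA => by
        have h2 : D ∈ J := (hor D hD).resolve_left fun h3 => hDA ⟨hD, h3⟩
        have h3 := ((hJm D).1 h2).2 C hC.2
        rwa [hV.symm _ (hS.sub hD).1] at h3)
      refine le_antisymm hIs (gen I hI fun C hC => ?_)
      have h2 : C ∈ {C | C ∈ S ∧ C ∈ I} := by rw [h1]; exact hC
      exact h2.2
    · left
      have h1 : ∀ C ∈ S, C ∈ J := fun C hC => (hor C hC).resolve_left fun h2 => hA ⟨C, hC, h2⟩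
      have h2 := gen J hJ h1
      rw [Submodule.eq_bot_iff]
      intro X hX
      by_contra hne
      exact (trace_mul_transpose_pos hne).ne' (((hJm X).1 (h2 (hIs hX))).2 X hX)

end Pool.Agent.Helper96.TO
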