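import Mathlib

/-!
# Project TO (MP_0f6f3f_an): root systems without strongly orthogonal roots

`RS R`: `R` is a set of nonzero vectors of a real inner product space which is stable under the integral reflections. `two_or_A2`: if `R` contains two linearly independent vectors, then either there are
two orthogonal vectors `a`, `b` in `R` such that neither `a + b` nor `a - b` is in `R`, or `R` is a root system of type `A_2`.
-/

set_option autoImplicit false

namespace Pool.Agent.Helper96.TO

variable {E : Type*} [NormedAddCommGroup E] [InnerProductSpace ℝ E]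

/-- Sets of vectors which are stable under integral reflections. -/
structure RS (R : Set E) : Prop where
  ne : ∀ a ∈ R, a ≠ 0
  refl : ∀ a ∈ R, ∀ b ∈ R, ∃ n : ℤ, 2 * (inner ℝ a b) = n * (inner ℝ b b) ∧ a - (n : ℝ) • b ∈ R

/-- `R = {±l, ±m, ±(l + m)}`. -/
def SixOf {E : Type*} [AddCommGroup E] (R : Set E) (l m : E) : Prop := R = {l, -l, m, -m, l + m, -(l + m)}

namespace RS

variable {R : Set E}

theorem pos (h : RS R) {a : E} (ha : a ∈ R) : 0 < (inner ℝ a a) := real_inner_self_pos.2 (h.ne a ha)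

theorem neg (h : RS R) {a : E} (ha : a ∈ R) : -a ∈ R := by
  obtain ⟨n, hn, h1⟩ := h.refl a ha a ha
  have h2 : (n : ℝ) = 2 := (mul_right_cancel₀ (h.pos ha).ne' hn).symm
  rw [h2, two_smul, sub_add_cancel_left] at h1
  exact h1

/-- the reflection, with a given coefficient -/
theorem refl' (h : RS R) {a b : E} (ha : a ∈ R) (hb : b ∈ R) {c : ℝ} (hc : 2 * (inner ℝ a b) = c * (inner ℝ b b)) : a - c • b ∈ R := by
  obtain ⟨n, hn, h1⟩ := h.refl a ha b hb
  have h2 : (n : ℝ) = c := mul_right_cancel₀ (h.pos hb).ne' (hn.symm.trans hc)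
  rwa [h2] at h1

theorem not_half (h : RS R) {a b : E} (ha : a ∈ R) (hb : b ∈ R) (hc : 4 * (inner ℝ a b) = (inner ℝ b b)) : False := by
  obtain ⟨n, hn, -⟩ := h.refl a ha b hb
  have h1 := h.pos hb
  have h2 : (n : ℝ) * (inner ℝ b b) * 2 = 1 * (inner ℝ b b) := by linarith
  have h3 : (n : ℝ) * 2 = 1 := by
    have : ((n : ℝ) * 2 - 1) * (inner ℝ b b) = 0 := by linarith
    rcases mul_eq_zero.1 this with h4 | h4
    · linarith
    · exact absurd h4 h1.ne'
  have h4 : n * 2 = 1 := by exact_mod_cast h3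
  omega

/-- If there are no strongly orthogonal roots, then there are no orthogonal roots. -/
theorem inner_ne (h : RS R) (hs : ∀ a ∈ R, ∀ b ∈ R, (inner ℝ a b) = 0 → a + b ∈ R ∨ a - b ∈ R) {a b : E} (ha : a ∈ R) (hb : b ∈ R) :
    (inner ℝ a b) ≠ 0 := by
  -- the core
  have core : ∀ a ∈ R, ∀ b ∈ R, (inner ℝ a b) = 0 → a + b ∈ R → False := by
    intro a ha b hb hab hc
    have hba : (inner ℝ b a) = 0 := by rw [real_inner_comm]; exact hab
    have pa := h.pos ha
    have pb := h.pos hb
    have ec : (inner ℝ (a + b) (a + b)) = (inner ℝ a a) + (inner ℝ b b) := by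
      rw [inner_add_left, inner_add_right, inner_add_right, hab, hba]
      ring
    have hd : a - b ∈ R := by
      have h1 := h.refl' hc hb (c := 2) (by rw [inner_add_left, hab, zero_add])
      have e : a + b - (2 : ℝ) • b = a - b := by rw [two_smul]; abel
      rwa [e] at h1
    have ed : (inner ℝ (a - b) (a - b)) = (inner ℝ a a) + (inner ℝ b b) := by
      rw [inner_sub_left, inner_sub_right, inner_sub_right, hab, hba]
      ring
    have hn : (inner ℝ a a) = (inner ℝ b b) := by
      obtain ⟨n, hn, -⟩ := h.refl a ha _ hc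
      obtain ⟨m, hm, -⟩ := h.refl b hb _ hc
      rw [inner_add_right, hab, add_zero, ec] at hn
      rw [inner_add_right, hba, zero_add, ec] at hm
      have hn0 : 0 < (n : ℝ) := by
        by_contra hcon
        rw [not_lt] at hcon
        nlinarith
      have hm0 : 0 < (m : ℝ) := by
        by_contra hcon
        rw [not_lt] at hcon
        nlinarith
      have hs : ((n : ℝ) + m) = 2 := by
        have : ((n : ℝ) + m - 2) * ((inner ℝ a a) + (inner ℝ b b)) = 0 := by linarith
        rcases mul_eq_zero.1 this with h4 | h4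
        · linarith
        · linarith
      have hn1 : 0 < n := by exact_mod_cast hn0
      have hm1 : 0 < m := by exact_mod_cast hm0
      have hs1 : n + m = 2 := by exact_mod_cast hs
      have hn2 : n = 1 := by omega
      rw [hn2, Int.cast_one, one_mul] at hn
      linarith
    have hcd : (inner ℝ (a + b) (a - b)) = 0 := by
      rw [inner_add_left, inner_sub_right, inner_sub_right, hab, hba]
      linarith
    -- `2a` and `2b`
    have k1 : ∀ x ∈ R, ∀ y ∈ R, (inner ℝ x y) = 0 → (inner ℝ x x) = (inner ℝ y y) → (2 : ℝ) • x ∈ R → x + y ∈ R → False := by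
      intro x hx y hy hxy hxx h2x hxy'
      have px := h.pos hx
      have hyx : (inner ℝ y x) = 0 := by rw [real_inner_comm]; exact hxy
      -- `2y ∈ R`
      have e1 : (inner ℝ (x - y) (x - y)) = (inner ℝ x x) + (inner ℝ y y) := by
        rw [inner_sub_left, inner_sub_right, inner_sub_right, hxy, hyx]
        ring
      have hd' : x - y ∈ R := by
        have h1 := h.refl' hxy' hy (c := 2) (by rw [inner_add_left, hxy, zero_add])
        have e : x + y - (2 : ℝ) • y = x - y := by rw [two_smul]; abel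
        rwa [e] at h1
      have h2y : (2 : ℝ) • y ∈ R := by
        have h4 := h.refl' h2x hd' (c := 2) (by
          rw [e1, inner_smul_left, inner_sub_right, hxy, ← hxx]
          simp
          ring)
        have e : (2 : ℝ) • x - (2 : ℝ) • (x - y) = (2 : ℝ) • y := by rw [smul_sub]; abel
        rwa [e] at h4
      rcases hs _ h2x _ h2y (by rw [inner_smul_left, inner_smul_right, hxy]; simp) with h5 | h5
      · refine h.not_half hx h5 ?_
        rw [← smul_add, inner_smul_right, inner_smul_right, inner_smul_left, inner_add_right, inner_add_right,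
          inner_add_left, inner_add_left, hxy, hyx, ← hxx]
        simp
        ring
      · refine h.not_half hx h5 ?_
        rw [← smul_sub, inner_smul_right, inner_smul_right, inner_smul_left, inner_sub_right, inner_sub_right,
          inner_sub_left, inner_sub_left, hxy, hyx, ← hxx]
        simp
        ring
    rcases hs _ hc _ hd hcd with h1 | h1
    · have e : a + b + (a - b) = (2 : ℝ) • a := by rw [two_smul]; abel
      rw [e] at h1
      exact k1 a ha b hb hab hn h1 hc
    · have e : a + b - (a - b) = (2 : ℝ) • b := by rw [two_smul]; abel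
      rw [e] at h1
      exact k1 b hb a ha hba hn.symm h1 (by rwa [add_comm])
  intro hab
  rcases hs a ha b hb hab with h1 | h1
  · exact core a ha b hb hab h1
  · exact core a ha (-b) (h.neg hb) (by rw [inner_neg_right, hab, neg_zero]) (by rwa [← sub_eq_add_neg])

/-- two linearly independent roots have the same length and make an angle of 60 or 120 degrees -/
theorem same (h : RS R) (hs : ∀ a ∈ R, ∀ b ∈ R, (inner ℝ a b) = 0 → a + b ∈ R ∨ a - b ∈ R) {a b : E} (ha : a ∈ R) (hb : b ∈ R)
    (hlt : (inner ℝ a b) ^ 2 < (inner ℝ a a) * (inner ℝ b b)) : (inner ℝ a a) = (inner ℝ b b) ∧ (2 * (inner ℝ a b) = (inner ℝ a a) ∨ 2 * (inner ℝ a b) = -(inner ℝ a a)) := by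
  -- positive case
  have key : ∀ a ∈ R, ∀ b ∈ R, (inner ℝ a b) ^ 2 < (inner ℝ a a) * (inner ℝ b b) → 0 < (inner ℝ a b) → (inner ℝ b b) ≤ (inner ℝ a a) → (inner ℝ a a) = (inner ℝ b b) ∧ 2 * (inner ℝ a b) = (inner ℝ a a) := by
    intro a ha b hb hlt hp hle
    have pa := h.pos ha
    have pb := h.pos hb
    obtain ⟨n, hn, hn'⟩ := h.refl a ha b hb
    obtain ⟨m, hm, hm'⟩ := h.refl b hb a ha
    rw [real_inner_comm] at hm
    have hn0 : 0 < (n : ℝ) := by
      by_contra hcon
      rw [not_lt] at hcon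
      nlinarith
    have hm0 : 0 < (m : ℝ) := by
      by_contra hcon
      rw [not_lt] at hcon
      nlinarith
    have hnm : (n : ℝ) * m < 4 := by
      have e : ((n : ℝ) * m) * ((inner ℝ a a) * (inner ℝ b b)) = 4 * (inner ℝ a b) ^ 2 := by
        have : ((n : ℝ) * (inner ℝ b b)) * ((m : ℝ) * (inner ℝ a a)) = (2 * (inner ℝ a b)) * (2 * (inner ℝ a b)) := by rw [← hn, ← hm]
        linarith
      have hpp : 0 < (inner ℝ a a) * (inner ℝ b b) := mul_pos pa pb
      by_contra hcon
      rw [not_lt] at hcon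
      nlinarith
    have hmn : (m : ℝ) ≤ n := by
      by_contra hcon
      rw [not_le] at hcon
      have : (n : ℝ) * (inner ℝ b b) < m * (inner ℝ a a) := by nlinarith
      linarith
    have n1 : 0 < n := by exact_mod_cast hn0
    have m1 : 0 < m := by exact_mod_cast hm0
    have nm1 : n * m < 4 := by exact_mod_cast hnm
    have mn1 : m ≤ n := by exact_mod_cast hmn
    have hm2 : m = 1 := by nlinarith
    subst hm2
    rw [Int.cast_one, one_mul] at hm
    have hn3 : n < 4 := by omega
    have hcases : n = 1 ∨ n = 2 ∨ n = 3 := by omega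
    rcases hcases with rfl | rfl | rfl
    · rw [Int.cast_one, one_mul] at hn
      exact ⟨by linarith, hm⟩
    · exfalso
      have e2 : ((2 : ℤ) : ℝ) = 2 := by norm_num
      rw [e2] at hn hn'
      refine h.inner_ne hs hn' ha ?_
      rw [inner_sub_left, inner_smul_left, real_inner_comm a b, conj_trivial]
      linarith
    · exfalso
      have e3 : ((3 : ℤ) : ℝ) = 3 := by norm_num
      rw [e3] at hn
      have hab : (inner ℝ b a) = (inner ℝ a b) := real_inner_comm a b
      have hc : a - b ∈ R := by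
        have h1 := h.neg (h.refl' hb ha (c := 1) (by rw [hab, one_mul, hm]))
        rwa [one_smul, neg_sub] at h1
      have h2 := h.refl' hb hc (c := 1) (by
        rw [inner_sub_right, inner_sub_left, inner_sub_right, inner_sub_right, hab]
        linarith)
      refine h.inner_ne hs h2 ha ?_
      rw [one_smul, inner_sub_left, inner_sub_left, hab]
      linarith
  have key2 : ∀ a ∈ R, ∀ b ∈ R, (inner ℝ a b) ^ 2 < (inner ℝ a a) * (inner ℝ b b) → 0 < (inner ℝ a b) → (inner ℝ a a) = (inner ℝ b b) ∧ 2 * (inner ℝ a b) = (inner ℝ a a) := by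
    intro a ha b hb hlt hp
    rcases le_total (inner ℝ b b) (inner ℝ a a) with h1 | h1
    · exact key a ha b hb hlt hp h1
    · have hab : (inner ℝ b a) = (inner ℝ a b) := real_inner_comm a b
      have h2 := key b hb a ha (by rw [hab]; linarith) (by rwa [hab]) h1
      rw [hab] at h2
      exact ⟨h2.1.symm, by linarith [h2.1, h2.2]⟩
  rcases lt_trichotomy (inner ℝ a b) 0 with h1 | h1 | h1
  · have h2 := key2 a ha (-b) (h.neg hb) (by rw [inner_neg_right, inner_neg_neg]; simpa using hlt) (by rw [inner_neg_right]; linarith)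
    rw [inner_neg_neg, inner_neg_right] at h2
    exact ⟨h2.1, Or.inr (by linarith [h2.2])⟩
  · exact absurd h1 (h.inner_ne hs ha hb)
  · have h2 := key2 a ha b hb hlt h1
    exact ⟨h2.1, Or.inl h2.2⟩

theorem lt_of_ne {a b : E} (hc : ∀ c : ℝ, b ≠ c • a) (ha : a ≠ 0) : (inner ℝ a b) ^ 2 < (inner ℝ a a) * (inner ℝ b b) := by
  have pa : 0 < (inner ℝ a a) := real_inner_self_pos.2 ha
  have h1 : b - ((inner ℝ a b) / (inner ℝ a a)) • a ≠ 0 := fun h0 => hc _ (sub_eq_zero.1 h0)
  have h2 := real_inner_self_pos.2 h1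
  have h3 : (inner ℝ (b - ((inner ℝ a b) / (inner ℝ a a)) • a) (b - ((inner ℝ a b) / (inner ℝ a a)) • a)) = (inner ℝ b b) - (inner ℝ a b) ^ 2 / (inner ℝ a a) := by
    rw [inner_sub_left, inner_sub_right, inner_sub_right, inner_smul_left, inner_smul_left, inner_smul_right,
      inner_smul_right, real_inner_comm b a]
    simp only [conj_trivial]
    rw [real_inner_comm a b]
    field_simp
    ring
  rw [h3] at h2
  have h4 : (inner ℝ a b) ^ 2 / (inner ℝ a a) < (inner ℝ b b) := by linarith
  rw [div_lt_iff₀ pa] at h4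
  linarith

/-- Either there are strongly orthogonal roots, or the root system is of type `A_2`. -/
theorem two_or_A2 (h : RS R) {l₀ m₀ : E} (hl : l₀ ∈ R) (hm : m₀ ∈ R) (hi : ∀ c : ℝ, m₀ ≠ c • l₀) :
    (∃ a ∈ R, ∃ b ∈ R, (inner ℝ a b) = 0 ∧ a + b ∉ R ∧ a - b ∉ R) ∨ ∃ l m, (∀ c : ℝ, m ≠ c • l) ∧ SixOf R l m := by
  by_cases hs : ∀ a ∈ R, ∀ b ∈ R, (inner ℝ a b) = 0 → a + b ∈ R ∨ a - b ∈ R
  swap
  · left
    push Not at hs
    obtain ⟨a, ha, b, hb, h1, h2, h3⟩ := hs
    exact ⟨a, ha, b, hb, h1, h2, h3⟩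
  right
  -- all lengths are equal
  have hlen : ∀ a ∈ R, ∀ b ∈ R, (inner ℝ a a) = (inner ℝ b b) := by
    have h1 : ∀ a ∈ R, (inner ℝ a a) = (inner ℝ l₀ l₀) := by
      intro a ha
      by_cases hc : ∀ c : ℝ, a ≠ c • l₀
      · exact (h.same hs hl ha (lt_of_ne hc (h.ne _ hl))).1.symm
      · push Not at hc
        obtain ⟨c, hc⟩ := hc
        have h2 : ∀ d : ℝ, m₀ ≠ d • a := by
          intro d hd
          rw [hc, smul_smul] at hd
          exact hi _ hd
        have h3 := (h.same hs ha hm (lt_of_ne h2 (h.ne _ ha))).1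
        have h4 := (h.same hs hl hm (lt_of_ne hi (h.ne _ hl))).1
        rw [h3, h4]
    intro a ha b hb
    rw [h1 a ha, h1 b hb]
  -- proportional roots
  have hprop : ∀ a ∈ R, ∀ b ∈ R, (∃ c : ℝ, b = c • a) → b = a ∨ b = -a := by
    rintro a ha b hb ⟨c, rfl⟩
    have h1 := hlen a ha _ hb
    rw [inner_smul_left, inner_smul_right] at h1
    have pa := h.pos ha
    have h2 : (c - 1) * (c + 1) = 0 := by
      have : ((c - 1) * (c + 1)) * (inner ℝ a a) = 0 := by
        rw [conj_trivial] at h1
        linarith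
      exact (mul_eq_zero.1 this).resolve_right pa.ne'
    rcases mul_eq_zero.1 h2 with h3 | h3
    · left
      rw [sub_eq_zero.1 h3, one_smul]
    · right
      have : c = -1 := by linarith
      rw [this, neg_one_smul]
  -- the second vector
  obtain ⟨m, hmR, hmi, hlm⟩ : ∃ m ∈ R, (∀ c : ℝ, m ≠ c • l₀) ∧ 2 * (inner ℝ l₀ m) = -(inner ℝ l₀ l₀) := by
    obtain ⟨-, h1 | h1⟩ := h.same hs hl hm (lt_of_ne hi (h.ne _ hl))
    · refine ⟨-m₀, h.neg hm, fun c hc => hi (-c) ?_, by rw [inner_neg_right]; linarith⟩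
      rw [neg_smul, ← hc, neg_neg]
    · exact ⟨m₀, hm, hi, h1⟩
  have hmm : (inner ℝ m m) = (inner ℝ l₀ l₀) := hlen _ hmR _ hl
  have hml : (inner ℝ m l₀) = (inner ℝ l₀ m) := real_inner_comm _ _
  have pl := h.pos hl
  have hsum : l₀ + m ∈ R := by
    have h1 := h.refl' hl hmR (c := -1) (by rw [hlm, hmm]; ring)
    rwa [neg_one_smul, sub_neg_eq_add] at h1
  refine ⟨l₀, m, hmi, ?_⟩
  unfold SixOf
  ext ν
  constructor
  swap
  · rintro (rfl | rfl | rfl | rfl | rfl | rfl)
    · exact hl
    · exact h.neg hl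
    · exact hmR
    · exact h.neg hmR
    · exact hsum
    · exact h.neg hsum
  · intro hν
    by_contra hcon
    simp only [Set.mem_insert_iff, Set.mem_singleton_iff, not_or] at hcon
    obtain ⟨c1, c2, c3, c4, c5, c6⟩ := hcon
    have q : ∀ a ∈ R, ν ≠ a → ν ≠ -a → 2 * (inner ℝ a ν) = (inner ℝ l₀ l₀) ∨ 2 * (inner ℝ a ν) = -(inner ℝ l₀ l₀) := by
      intro a ha h1 h2
      have h3 : ∀ c : ℝ, ν ≠ c • a := by
        intro c hc
        rcases hprop a ha ν hν ⟨c, hc⟩ with h4 | h4
        · exact h1 h4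
        · exact h2 h4
      have h4 := (h.same hs ha hν (lt_of_ne h3 (h.ne _ ha))).2
      rwa [hlen a ha _ hl] at h4
    have q1 := q _ hl c1 c2
    have q2 := q _ hmR c3 c4
    have q3 := q _ hsum c5 c6
    rw [inner_add_left] at q3
    rcases q1 with q1 | q1 <;> rcases q2 with q2 | q2 <;> rcases q3 with q3 | q3 <;> linarith

end RS

end Pool.Agent.Helper96.TO
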