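import Pool.Agent.Helper96.TO.Cmb

/-!
# Project TO (MP_0f6f3f_an): irreducible root systems which are not of type `A`

`IsTypeA R`: `R` is the set of the differences of the elements of an affinely independent set. `high`: in an irreducible root system there is a root `β` such that the roots orthogonal to `β` are strongly orthogonal to `β` and
span the hyperplane orthogonal to `β`, or the root system is of type `A`. PROOF. `f` a generic functional, `β` the root with the largest value. If `v ≠ 0` is orthogonal to `β` and to the roots orthogonal to `β`, let `c = (inner ℝ v γ) ≠ 0` for a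
root `γ` with `(inner ℝ γ β) > 0`; all roots `δ ≠ β` with `(inner ℝ δ β) > 0` have `2 (inner ℝ δ β) = (inner ℝ β β)` and `(inner ℝ v δ) = ± c`. `P`: those with `(inner ℝ v δ) = c`. `R = {±β, ±δ, ±(β - δ), δ - ε | δ ≠ ε ∈ P}`.
-/

set_option autoImplicit false

namespace Pool.Agent.Helper96.TO

variable {E : Type*} [NormedAddCommGroup E] [InnerProductSpace ℝ E]

/-- `R` is the set of the differences `a - b` of different elements of an affinely independent set `S` (root system of type `A_r`, `r = |S| - 1`). -/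
def IsTypeA {E : Type*} [AddCommGroup E] [Module ℝ E] (R : Set E) : Prop :=
  ∃ S : Set E, AffineIndependent ℝ (fun s : S => (s : E)) ∧ R = {x | ∃ a ∈ S, ∃ b ∈ S, a ≠ b ∧ x = a - b}

/-- `R` is not the union of two orthogonal nonempty subsets. -/
def Irr (R : Set E) : Prop := ∀ S ⊆ R, S.Nonempty → (∀ a ∈ S, ∀ b ∈ R, b ∉ S → (inner ℝ a b) = 0) → S = R

namespace RS

variable {R : Set E}

theorem pos_sub (h : RS R) {a b : E} (ha : a ∈ R) (hb : b ∈ R) (hp : 0 < (inner ℝ a b)) (hc : ∀ c : ℝ, b ≠ c • a) : a - b ∈ R := by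
  have hlt := lt_of_ne hc (h.ne a ha)
  have pa := h.pos ha
  have pb := h.pos hb
  obtain ⟨n, hn, hn'⟩ := h.refl a ha b hb
  obtain ⟨m, hm, hm'⟩ := h.refl b hb a ha
  rw [real_inner_comm] at hm
  have hn0 : 0 < (n : ℝ) := by
    by_contra hcon
    rw [not_lt] at hcon
    nlinarith
  have hm0 : 0 < (m : ℝ) := by
    by_contra hcon
    rw [not_lt] at hcon
    nlinarith
  have hnm : (n : ℝ) * m < 4 := by
    have e : ((n : ℝ) * m) * ((inner ℝ a a) * (inner ℝ b b)) = 4 * (inner ℝ a b) ^ 2 := by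
      have : ((n : ℝ) * (inner ℝ b b)) * ((m : ℝ) * (inner ℝ a a)) = (2 * (inner ℝ a b)) * (2 * (inner ℝ a b)) := by rw [← hn, ← hm]
      linarith
    have hpp : 0 < (inner ℝ a a) * (inner ℝ b b) := mul_pos pa pb
    by_contra hcon
    rw [not_lt] at hcon
    nlinarith
  have n1 : 0 < n := by exact_mod_cast hn0
  have m1 : 0 < m := by exact_mod_cast hm0
  have nm1 : n * m < 4 := by exact_mod_cast hnm
  have hor : n = 1 ∨ m = 1 := by
    by_contra hcon
    rw [not_or] at hcon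
    have h1 : 2 ≤ n := by omega
    have h2 : 2 ≤ m := by omega
    nlinarith
  rcases hor with h1 | h1
  · rwa [h1, Int.cast_one, one_smul] at hn'
  · rw [h1, Int.cast_one, one_smul] at hm'
    have := h.neg hm'
    rwa [neg_sub] at this

end RS

theorem linInd_gram {ι : Type*} {u : ι → E} {κ : ℝ} (hκ : 0 < κ)
    (hu : ∀ i, (inner ℝ (u i) (u i)) = 2 * κ) (hu' : ∀ i j, i ≠ j → (inner ℝ (u i) (u j)) = κ) : LinearIndependent ℝ u := by
  classical
  rw [linearIndependent_iff']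
  intro s g hg i hi
  have h1 : ∀ j ∈ s, κ * (∑ i ∈ s, g i + g j) = 0 := by
    intro j hj
    have h2 : (inner ℝ (∑ i ∈ s, g i • u i) (u j)) = 0 := by rw [hg, inner_zero_left]
    rw [sum_inner, Finset.sum_congr rfl fun x _ => real_inner_smul_left (u x) (u j) (g x)] at h2
    rw [← Finset.add_sum_erase s _ hj, hu] at h2
    have h3 : ∑ x ∈ s.erase j, g x * (inner ℝ (u x) (u j)) = ∑ x ∈ s.erase j, g x * κ :=
      Finset.sum_congr rfl fun x hx => by rw [hu' x j (Finset.ne_of_mem_erase hx)]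
    rw [h3, ← Finset.sum_mul] at h2
    have h4 := Finset.add_sum_erase s g hj
    rw [← h4]
    linarith
  have h2 : ∀ j ∈ s, g j = -∑ i ∈ s, g i := by
    intro j hj
    have := (mul_eq_zero.1 (h1 j hj)).resolve_left hκ.ne'
    linarith
  have h3 : ∑ j ∈ s, g j = -(s.card : ℝ) * ∑ i ∈ s, g i := by
    conv_lhs => rw [Finset.sum_congr rfl h2]
    rw [Finset.sum_const, nsmul_eq_mul]
    ring
  have h4 : ∑ i ∈ s, g i = 0 := by
    have h5 : (1 + (s.card : ℝ)) * ∑ i ∈ s, g i = 0 := by linarith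
    have h6 : (0 : ℝ) ≤ s.card := Nat.cast_nonneg _
    exact (mul_eq_zero.1 h5).resolve_left (by linarith)
  rw [h2 i hi, h4, neg_zero]

variable {R : Set E}

/-- a generic functional -/
theorem exists_generic (hfin : R.Finite) (h0 : (0 : E) ∉ R) :
    ∃ x : E, (∀ a ∈ R, (inner ℝ x a) ≠ 0) ∧ ∀ a ∈ R, ∀ b ∈ R, a ≠ b → (inner ℝ x a) ≠ (inner ℝ x b) := by
  have hf1 : Finite R := hfin
  obtain ⟨x, hx⟩ := Module.Dual.exists_forall_ne_zero_of_forall_exists (K := ℝ) (M := E)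
    (ι := R ⊕ {p : R × R // (p.1 : E) ≠ p.2})
    (Sum.elim (fun a => (innerSL ℝ (a : E)).toLinearMap) fun p => (innerSL ℝ ((p.1.1 : E) - (p.1.2 : E))).toLinearMap) (by
      rintro (a | p)
      · refine ⟨(a : E), ?_⟩
        change (inner ℝ ((a : E)) ((a : E))) ≠ 0
        exact (real_inner_self_pos.2 fun h => h0 (by rw [← h]; exact a.2)).ne'
      · refine ⟨(p.1.1 : E) - (p.1.2 : E), ?_⟩
        change (inner ℝ ((p.1.1 : E) - (p.1.2 : E)) ((p.1.1 : E) - (p.1.2 : E))) ≠ 0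
        exact (real_inner_self_pos.2 (sub_ne_zero.2 p.2)).ne')
  refine ⟨x, fun a ha => ?_, fun a ha b hb hab => ?_⟩
  · have h1 := hx (Sum.inl ⟨a, ha⟩)
    change (inner ℝ a x) ≠ 0 at h1
    rwa [real_inner_comm]
  · have h1 := hx (Sum.inr ⟨(⟨a, ha⟩, ⟨b, hb⟩), hab⟩)
    change (inner ℝ (a - b) x) ≠ 0 at h1
    rw [inner_sub_left, real_inner_comm, real_inner_comm x b] at h1
    exact sub_ne_zero.1 h1

/-- In an irreducible root system which is not of type `A` there is a root whose strongly orthogonal roots span its orthogonal hyperplane. -/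
theorem high (h : RS R) (hfin : R.Finite) (hne : R.Nonempty) (hirr : Irr R)
    (hspan : ∀ v : E, (∀ a ∈ R, (inner ℝ v a) = 0) → v = 0) :
    (∃ β ∈ R, (∀ γ ∈ R, (inner ℝ γ β) = 0 → β + γ ∉ R ∧ β - γ ∉ R) ∧
      (∀ γ ∈ R, γ ≠ β → 0 < (inner ℝ γ β) → 2 * (inner ℝ γ β) = (inner ℝ β β) ∧ β - γ ∈ R) ∧
      ∀ v : E, (inner ℝ v β) = 0 → (∀ γ ∈ R, (inner ℝ γ β) = 0 → (inner ℝ v γ) = 0) → v = 0) ∨ IsTypeA R := by
  obtain ⟨x, hx1, hx2⟩ := exists_generic hfin fun h0 => h.ne 0 h0 rfl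
  obtain ⟨β, hβ, hmax⟩ := Set.exists_max_image R (fun a => (inner ℝ x a)) hfin hne
  have hmax' : ∀ a ∈ R, a ≠ β → (inner ℝ x a) < (inner ℝ x β) := fun a ha hab =>
    lt_of_le_of_ne (hmax a ha) (hx2 a ha β hβ hab)
  have hfβ : 0 < (inner ℝ x β) := by
    rcases lt_trichotomy (inner ℝ x β) 0 with h1 | h1 | h1
    · have h2 := hmax (-β) (h.neg hβ)
      simp only [inner_neg_right] at h2
      linarith
    · exact absurd h1 (hx1 β hβ)
    · exact h1
  have pβ := h.pos hβ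
  -- strong orthogonality
  have ha : ∀ γ ∈ R, 0 < (inner ℝ x γ) → β + γ ∉ R := by
    intro γ hγ h1 h2
    have h3 := hmax _ h2
    simp only [inner_add_right] at h3
    linarith
  have hso : ∀ γ ∈ R, (inner ℝ γ β) = 0 → β + γ ∉ R ∧ β - γ ∉ R := by
    have key : ∀ γ ∈ R, (inner ℝ γ β) = 0 → 0 < (inner ℝ x γ) → β + γ ∉ R ∧ β - γ ∉ R := by
      intro γ hγ h1 h2
      refine ⟨ha γ hγ h2, fun h3 => ha γ hγ h2 ?_⟩
      have h4 := h.refl' h3 hγ (c := -2) (by rw [inner_sub_left, real_inner_comm, h1]; ring)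
      have e : β - γ - (-2 : ℝ) • γ = β + γ := by
        rw [neg_smul, two_smul]
        abel
      rwa [e] at h4
    intro γ hγ h1
    rcases lt_trichotomy (inner ℝ x γ) 0 with h2 | h2 | h2
    · obtain ⟨h3, h4⟩ := key (-γ) (h.neg hγ) (by rw [inner_neg_left, h1, neg_zero]) (by rw [inner_neg_right]; linarith)
      rw [← sub_eq_add_neg] at h3
      rw [sub_neg_eq_add] at h4
      exact ⟨h4, h3⟩
    · exact absurd h2 (hx1 γ hγ)
    · exact key γ hγ h1 h2
  -- the roots which are not orthogonal to `β`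
  have hd : ∀ γ ∈ R, γ ≠ β → 0 < (inner ℝ γ β) → 2 * (inner ℝ γ β) = (inner ℝ β β) ∧ β - γ ∈ R := by
    intro γ hγ hγβ h1
    obtain ⟨n, hn, hn'⟩ := h.refl γ hγ β hβ
    have hn0 : 0 < (n : ℝ) := by
      by_contra hcon
      rw [not_lt] at hcon
      nlinarith
    have n1 : 0 < n := by exact_mod_cast hn0
    have n2 : n < 2 := by
      by_contra hcon
      rw [not_lt] at hcon
      have h2 : (2 : ℝ) ≤ n := by exact_mod_cast hcon
      have h3 := hmax _ (h.neg hn')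
      simp only [inner_neg_right, inner_sub_right, inner_smul_right] at h3
      have h4 := hmax' γ hγ hγβ
      nlinarith
    have n3 : n = 1 := by omega
    rw [n3, Int.cast_one, one_mul] at hn
    rw [n3, Int.cast_one, one_smul] at hn'
    have := h.neg hn'
    rw [neg_sub] at this
    exact ⟨hn, this⟩
  by_cases hv : ∀ v : E, (inner ℝ v β) = 0 → (∀ γ ∈ R, (inner ℝ γ β) = 0 → (inner ℝ v γ) = 0) → v = 0
  · exact Or.inl ⟨β, hβ, hso, hd, hv⟩
  right
  push Not at hv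
  obtain ⟨v, hvβ, hv0, hvne⟩ := hv
  obtain ⟨γ₀, hγ₀, hγ₀v, hγ₀β⟩ : ∃ γ ∈ R, (inner ℝ v γ) ≠ 0 ∧ 0 < (inner ℝ γ β) := by
    have h1 : ∃ γ ∈ R, (inner ℝ v γ) ≠ 0 := by
      by_contra hcon
      push Not at hcon
      exact hvne (hspan v hcon)
    obtain ⟨γ, hγ, h2⟩ := h1
    rcases lt_trichotomy (inner ℝ γ β) 0 with h3 | h3 | h3
    · exact ⟨-γ, h.neg hγ, by rw [inner_neg_right]; exact neg_ne_zero.2 h2, by rw [inner_neg_left]; linarith⟩
    · exact absurd (hv0 γ hγ h3) h2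
    · exact ⟨γ, hγ, h2, h3⟩
  obtain ⟨c, hc⟩ : ∃ c : ℝ, c = (inner ℝ v γ₀) := ⟨_, rfl⟩
  rw [← hc] at hγ₀v
  have hγ₀ne : γ₀ ≠ β := by
    rintro rfl
    exact hγ₀v (hc.trans hvβ)
  -- roots at the same level
  have hlev : ∀ δ ∈ R, δ ≠ β → 0 < (inner ℝ δ β) → ∀ γ ∈ R, γ ≠ β → 0 < (inner ℝ γ β) → 0 < (inner ℝ δ γ) → (inner ℝ v δ) = (inner ℝ v γ) := by
    intro δ hδ hδβ h1 γ hγ hγβ h2 h3
    have e1 := (hd δ hδ hδβ h1).1
    have e2 := (hd γ hγ hγβ h2).1
    by_cases hc' : ∀ t : ℝ, γ ≠ t • δ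
    · have h4 := h.pos_sub hδ hγ h3 hc'
      have h5 := hv0 _ h4 (by rw [inner_sub_left]; linarith)
      rw [inner_sub_right] at h5
      linarith
    · push Not at hc'
      obtain ⟨t, ht⟩ := hc'
      rw [ht, real_inner_smul_left] at e2
      have h4 : (t - 1) * (inner ℝ δ β) = 0 := by linarith
      have h5 := (mul_eq_zero.1 h4).resolve_right h1.ne'
      have h6 : t = 1 := by linarith
      rw [ht, h6, one_smul]
  have hβsub : ∀ γ ∈ R, γ ≠ β → 0 < (inner ℝ γ β) → β - γ ∈ R ∧ β - γ ≠ β ∧ 0 < (inner ℝ (β - γ) β) ∧ (inner ℝ v (β - γ)) = -(inner ℝ v γ) := by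
    intro γ hγ hγβ h1
    obtain ⟨e1, h2⟩ := hd γ hγ hγβ h1
    refine ⟨h2, ?_, ?_, ?_⟩
    · intro h3
      exact h.ne γ hγ (by rwa [sub_eq_self] at h3)
    · rw [inner_sub_left]
      linarith
    · rw [inner_sub_right, hvβ, zero_sub]
  have hval : ∀ δ ∈ R, δ ≠ β → 0 < (inner ℝ δ β) → (inner ℝ v δ) = c ∨ (inner ℝ v δ) = -c := by
    intro δ hδ hδβ h1
    obtain ⟨k1, k2, k3, k4⟩ := hβsub γ₀ hγ₀ hγ₀ne hγ₀β
    rcases lt_or_ge 0 (inner ℝ δ γ₀) with h2 | h2
    · left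
      rw [hlev δ hδ hδβ h1 γ₀ hγ₀ hγ₀ne hγ₀β h2, hc]
    · right
      rw [hlev δ hδ hδβ h1 _ k1 k2 k3 (by rw [inner_sub_right]; linarith), k4, hc]
  obtain ⟨P, hP⟩ : ∃ P : Set E, P = {δ | δ ∈ R ∧ δ ≠ β ∧ 0 < (inner ℝ δ β) ∧ (inner ℝ v δ) = c} := ⟨_, rfl⟩
  have hPm : ∀ δ, δ ∈ P ↔ δ ∈ R ∧ δ ≠ β ∧ 0 < (inner ℝ δ β) ∧ (inner ℝ v δ) = c := fun δ => by rw [hP]; rfl
  have hβ2 : ∀ δ ∈ P, 2 * (inner ℝ δ β) = (inner ℝ β β) := fun δ hδ => by
    obtain ⟨p1, p2, p3, p4⟩ := (hPm δ).1 hδ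
    exact (hd δ p1 p2 p3).1
  have hPP : ∀ δ ∈ P, ∀ ε ∈ P, (inner ℝ β β) ≤ 2 * (inner ℝ δ ε) := by
    intro δ hδ ε hε
    obtain ⟨p1, p2, p3, p4⟩ := (hPm δ).1 hδ
    obtain ⟨q1, q2, q3, q4⟩ := (hPm ε).1 hε
    obtain ⟨k1, k2, k3, k4⟩ := hβsub ε q1 q2 q3
    by_contra hcon
    rw [not_le] at hcon
    have h1 := hlev δ p1 p2 p3 _ k1 k2 k3 (by
      rw [inner_sub_right]
      have := hβ2 δ hδ
      linarith)
    rw [p4, k4, q4] at h1
    exact hγ₀v (by linarith)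
  have hPn : ∀ δ ∈ P, (inner ℝ δ δ) = (inner ℝ β β) := by
    intro δ hδ
    obtain ⟨p1, p2, p3, p4⟩ := (hPm δ).1 hδ
    have h1 := hPP δ hδ δ hδ
    have h2 := hβ2 δ hδ
    obtain ⟨m, hm, hm'⟩ := h.refl β hβ δ p1
    rw [real_inner_comm] at hm
    have pδ := h.pos p1
    have m0 : 0 < (m : ℝ) := by
      by_contra hcon
      rw [not_lt] at hcon
      nlinarith
    have m2 : (m : ℝ) ≤ 2 := by
      by_contra hcon
      rw [not_le] at hcon
      nlinarith
    have m0' : 0 < m := by exact_mod_cast m0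
    have m2' : m ≤ 2 := by exact_mod_cast m2
    have m3 : m = 1 ∨ m = 2 := by omega
    rcases m3 with h3 | h3
    · rw [h3, Int.cast_one, one_mul] at hm
      linarith
    · exfalso
      have e2 : ((2 : ℤ) : ℝ) = 2 := by norm_num
      rw [h3, e2] at hm'
      have h4 := hv0 _ hm' (by rw [inner_sub_left, real_inner_smul_left]; linarith)
      rw [inner_sub_right, real_inner_smul_right, hvβ, p4] at h4
      exact hγ₀v (by linarith)
  have hPe : ∀ δ ∈ P, ∀ ε ∈ P, δ ≠ ε → 2 * (inner ℝ δ ε) = (inner ℝ β β) := by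
    intro δ hδ ε hε hne
    obtain ⟨p1, p2, p3, p4⟩ := (hPm δ).1 hδ
    obtain ⟨q1, q2, q3, q4⟩ := (hPm ε).1 hε
    have h1 := hPP δ hδ ε hε
    obtain ⟨n, hn, -⟩ := h.refl δ p1 ε q1
    rw [hPn ε hε] at hn
    have h2 : (inner ℝ δ ε) < (inner ℝ β β) := by
      have h3 := real_inner_self_pos.2 (sub_ne_zero.2 hne)
      rw [inner_sub_left, inner_sub_right, inner_sub_right, real_inner_comm δ ε, hPn δ hδ, hPn ε hε] at h3
      linarith
    have n1 : (1 : ℝ) ≤ n := by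
      by_contra hcon
      rw [not_le] at hcon
      nlinarith
    have n2 : (n : ℝ) < 2 := by
      by_contra hcon
      rw [not_lt] at hcon
      nlinarith
    have n1' : 1 ≤ n := by exact_mod_cast n1
    have n2' : n < 2 := by exact_mod_cast n2
    have n3 : n = 1 := by omega
    rwa [n3, Int.cast_one, one_mul] at hn
  -- the affinely independent set
  obtain ⟨S, hS⟩ : ∃ S : Set E, S = insert 0 (insert (-β) ((fun δ => -δ) '' P)) := ⟨_, rfl⟩
  have hS0 : (0 : E) ∈ S := by rw [hS]; exact Or.inl rfl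
  have hSβ : -β ∈ S := by rw [hS]; exact Or.inr (Or.inl rfl)
  have hSP : ∀ δ ∈ P, -δ ∈ S := fun δ hδ => by rw [hS]; exact Or.inr (Or.inr ⟨δ, hδ, rfl⟩)
  obtain ⟨T, hT⟩ : ∃ T : Set E, T = {x | ∃ a ∈ S, ∃ b ∈ S, a ≠ b ∧ x = a - b} := ⟨_, rfl⟩
  have hTm : ∀ a ∈ S, ∀ b ∈ S, a ≠ b → a - b ∈ T := fun a ha b hb hab => by rw [hT]; exact ⟨a, ha, b, hb, hab, rfl⟩
  have hTneg : ∀ x ∈ T, -x ∈ T := by
    intro x hx
    rw [hT] at hx
    obtain ⟨a, ha, b, hb, hab, rfl⟩ := hx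
    rw [neg_sub]
    exact hTm b hb a ha hab.symm
  -- `T ⊆ R`
  have hPR : ∀ δ ∈ P, ∀ ε ∈ P, δ ≠ ε → δ - ε ∈ R := by
    intro δ hδ ε hε hne
    obtain ⟨p1, p2, p3, p4⟩ := (hPm δ).1 hδ
    obtain ⟨q1, q2, q3, q4⟩ := (hPm ε).1 hε
    have h1 := h.refl' p1 q1 (c := 1) (by rw [hPe δ hδ ε hε hne, hPn ε hε, one_mul])
    rwa [one_smul] at h1
  have hTR : T ⊆ R := by
    have k1 : ∀ δ ∈ P, δ ∈ R := fun δ hδ => ((hPm δ).1 hδ).1
    have k2 : ∀ δ ∈ P, β - δ ∈ R := fun δ hδ => by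
      obtain ⟨p1, p2, p3, p4⟩ := (hPm δ).1 hδ
      exact (hβsub δ p1 p2 p3).1
    intro x hx
    rw [hT] at hx
    obtain ⟨a, ha, b, hb, hab, rfl⟩ := hx
    rw [hS] at ha hb
    rcases ha with rfl | rfl | ⟨δ, hδ, rfl⟩ <;> rcases hb with rfl | rfl | ⟨ε, hε, rfl⟩
    · exact absurd rfl hab
    · rw [zero_sub, neg_neg]
      exact hβ
    · rw [zero_sub, neg_neg]
      exact k1 ε hε
    · rw [sub_zero]
      exact h.neg hβ
    · exact absurd rfl hab
    · have e : -β - -ε = -(β - ε) := by abel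
      simp only [e]
      exact h.neg (k2 ε hε)
    · simp only [sub_zero]
      exact h.neg (k1 δ hδ)
    · have e : -δ - -β = β - δ := by abel
      simp only [e]
      exact k2 δ hδ
    · have e : -δ - -ε = ε - δ := by abel
      simp only [e]
      exact hPR ε hε δ hδ fun h1 => hab (by rw [h1])
  -- the roots which are not orthogonal to `β`
  have hT1 : ∀ γ ∈ R, 0 < (inner ℝ γ β) → γ ∈ T := by
    intro γ hγ h1
    by_cases hγβ : γ = β
    · have h2 := hTm 0 hS0 (-β) hSβ (fun h3 => h.ne β hβ (by rw [← neg_eq_zero, ← h3]))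
      rw [zero_sub, neg_neg] at h2
      rwa [hγβ]
    · rcases hval γ hγ hγβ h1 with h2 | h2
      · have h3 : γ ∈ P := (hPm γ).2 ⟨hγ, hγβ, h1, h2⟩
        have h4 := hTm 0 hS0 (-γ) (hSP γ h3) (fun h3 => h.ne γ hγ (by rw [← neg_eq_zero, ← h3]))
        rwa [zero_sub, neg_neg] at h4
      · obtain ⟨k1, k2, k3, k4⟩ := hβsub γ hγ hγβ h1
        have h3 : β - γ ∈ P := (hPm _).2 ⟨k1, k2, k3, by rw [k4, h2, neg_neg]⟩
        have h4 := hTm (-(β - γ)) (hSP _ h3) (-β) hSβ (fun h3 => h.ne γ hγ (by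
          have h5 := neg_injective h3
          rwa [sub_eq_self] at h5))
        have e : -(β - γ) - -β = γ := by abel
        rwa [e] at h4
  have hT2 : ∀ γ ∈ R, (inner ℝ γ β) = 0 → ∀ δ ∈ P, (inner ℝ γ δ) ≠ 0 → γ ∈ T := by
    have key : ∀ γ ∈ R, (inner ℝ γ β) = 0 → ∀ δ ∈ P, 0 < (inner ℝ γ δ) → γ ∈ T := by
      intro γ hγ h1 δ hδ h2
      obtain ⟨p1, p2, p3, p4⟩ := (hPm δ).1 hδ
      have h3 : δ - γ ∈ R := by
        refine h.pos_sub p1 hγ (by rwa [real_inner_comm]) fun t ht => ?_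
        rw [ht, real_inner_smul_left] at h1
        have h4 := (mul_eq_zero.1 h1).resolve_right p3.ne'
        rw [h4, zero_smul] at ht
        exact h.ne γ hγ ht
      have h4 : 0 < (inner ℝ (δ - γ) β) := by
        rw [inner_sub_left]
        linarith
      have h5 : δ - γ ≠ β := by
        intro h6
        have h7 : (inner ℝ (δ - γ) β) = (inner ℝ β β) := by rw [h6]
        rw [inner_sub_left, h1, sub_zero] at h7
        have := hβ2 δ hδ
        linarith
      have h6 : (inner ℝ v (δ - γ)) = c := by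
        rw [inner_sub_right, p4, hv0 γ hγ h1, sub_zero]
      have h7 : δ - γ ∈ P := (hPm _).2 ⟨h3, h5, h4, h6⟩
      have h8 := hTm (-(δ - γ)) (hSP _ h7) (-δ) (hSP _ hδ) (fun h9 => h.ne γ hγ (by
        have h10 := neg_injective h9
        rwa [sub_eq_self] at h10))
      have e : -(δ - γ) - -δ = γ := by abel
      rwa [e] at h8
    intro γ hγ h1 δ hδ h2
    rcases lt_or_gt_of_ne h2 with h3 | h3
    · have h4 := hTneg _ (key (-γ) (h.neg hγ) (by rw [inner_neg_left, h1, neg_zero]) δ hδ (by rw [inner_neg_left]; linarith))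
      rwa [neg_neg] at h4
    · exact key γ hγ h1 δ hδ h3
  have hT3 : ∀ γ ∈ R, γ ∉ T → (inner ℝ γ β) = 0 ∧ ∀ δ ∈ P, (inner ℝ γ δ) = 0 := by
    intro γ hγ h1
    have h2 : (inner ℝ γ β) = 0 := by
      rcases lt_trichotomy (inner ℝ γ β) 0 with h3 | h3 | h3
      · exfalso
        have h4 := hTneg _ (hT1 (-γ) (h.neg hγ) (by rw [inner_neg_left]; linarith))
        rw [neg_neg] at h4
        exact h1 h4
      · exact h3
      · exact absurd (hT1 γ hγ h3) h1
    refine ⟨h2, fun δ hδ => ?_⟩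
    by_contra h3
    exact h1 (hT2 γ hγ h2 δ hδ h3)
  have hTeq : T = R := by
    refine hirr T hTR ⟨β, hT1 β hβ pβ⟩ fun a ha b hb hbT => ?_
    obtain ⟨h1, h2⟩ := hT3 b hb hbT
    have h3 : ∀ s ∈ S, (inner ℝ s b) = 0 := by
      intro s hs
      rw [hS] at hs
      rcases hs with rfl | rfl | ⟨δ, hδ, rfl⟩
      · exact inner_zero_left _
      · rw [inner_neg_left, real_inner_comm, h1, neg_zero]
      · simp only [inner_neg_left]
        rw [real_inner_comm, h2 δ hδ, neg_zero]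
    rw [hT] at ha
    obtain ⟨a, ha, a', ha', -, rfl⟩ := ha
    rw [inner_sub_left, h3 a ha, h3 a' ha', sub_zero]
  refine ⟨S, ?_, by rw [← hTeq, hT]⟩
  -- affine independence
  have hβP : β ∉ P := fun h1 => ((hPm β).1 h1).2.1 rfl
  let κ : ℝ := (inner ℝ β β) / 2
  have hκ : 0 < κ := by positivity
  rw [affineIndependent_iff_linearIndependent_vsub ℝ _ (⟨0, hS0⟩ : S)]
  refine linInd_gram hκ ?_ ?_
  · rintro ⟨⟨s, hs⟩, hs0⟩
    have hs0' : s ≠ 0 := fun h1 => hs0 (Subtype.ext h1)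
    simp only [vsub_eq_sub, sub_zero]
    rw [hS] at hs
    rcases hs with rfl | rfl | ⟨δ, hδ, rfl⟩
    · exact absurd rfl hs0'
    · rw [inner_neg_neg]
      change _ = 2 * ((inner ℝ β β) / 2)
      ring
    · simp only [inner_neg_neg]
      rw [hPn δ hδ]
      change _ = 2 * ((inner ℝ β β) / 2)
      ring
  · rintro ⟨⟨s, hs⟩, hs0⟩ ⟨⟨t, ht⟩, ht0⟩ hst
    have hs0' : s ≠ 0 := fun h1 => hs0 (Subtype.ext h1)
    have ht0' : t ≠ 0 := fun h1 => ht0 (Subtype.ext h1)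
    have hst' : s ≠ t := fun h1 => hst (Subtype.ext (Subtype.ext h1))
    simp only [vsub_eq_sub, sub_zero]
    change _ = (inner ℝ β β) / 2
    rw [hS] at hs ht
    rcases hs with rfl | rfl | ⟨δ, hδ, rfl⟩
    · exact absurd rfl hs0'
    · rcases ht with rfl | rfl | ⟨ε, hε, rfl⟩
      · exact absurd rfl ht0'
      · exact absurd rfl hst'
      · simp only [inner_neg_neg]
        rw [real_inner_comm]
        have := hβ2 ε hε
        linarith
    · rcases ht with rfl | rfl | ⟨ε, hε, rfl⟩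
      · exact absurd rfl ht0'
      · simp only [inner_neg_neg]
        have := hβ2 δ hδ
        linarith
      · simp only [inner_neg_neg]
        have := hPe δ hδ ε hε fun h1 => hst' (by rw [h1])
        linarith

end Pool.Agent.Helper96.TO
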