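import Pool.Agent.Helper96.TO.Alg
import Pool.Agent.Helper96.TO.High

/-!
# Project TO (MP_0f6f3f_an): irreducibility

`decomp`: every element of `lie G` is a sum of weight vectors. `irr_of_simple`: the restricted root system of a simple Lie algebra is irreducible. PROOF. `Rt = S ∪ S'` with `S`, `S'` orthogonal; the span of the root spaces of the roots in `S` and of
the brackets `[g_C, g_(-C)]`, `C ∈ S`, is an ideal which commutes with the root spaces of the roots in `S'`.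
-/

set_option autoImplicit false

open Matrix

namespace Pool.Agent.Helper96.TO

open Pool.Agent.Helper96.SA

section Decomp

variable {N : ℕ} {G : Subgroup (GL (Fin N) ℝ)}

/-- Weight decomposition. -/
theorem decomp (hG : IsClosed (G : Set (GL (Fin N) ℝ))) {V : Submodule ℝ (Mat N)} (hV : IsFlat G V) {Y : Mat N}
    (hY : Y ∈ lie G) : Y ∈ Submodule.span ℝ {Z | ∃ D ∈ V, Wt G V D Z} := by
  classical
  obtain ⟨L, hL⟩ := lie_submodule hG
  have hLm : ∀ Y, Y ∈ L ↔ Y ∈ lie G := fun Y => by rw [← hL]; rfl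
  obtain ⟨O, h1, h2, hdiag⟩ := simDiag (V : Set (Mat N)) hV.symm hV.comm
  -- elements of `V` are diagonal
  have hd : ∀ H ∈ V, H = O * diagonal (fun i => cf O i H) * Oᵀ := by
    intro H hH
    obtain ⟨d, hd⟩ := hdiag H hH
    have e : (fun i => cf O i H) = d := by
      funext i
      show (Oᵀ * H * O) i i = d i
      have e1 : Oᵀ * H * O = diagonal d := by
        rw [hd]
        calc Oᵀ * (O * diagonal d * Oᵀ) * O = (Oᵀ * O) * diagonal d * (Oᵀ * O) := by simp only [Matrix.mul_assoc]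
          _ = diagonal d := by rw [h1, Matrix.one_mul, Matrix.mul_one]
      rw [e1, diagonal_apply_eq]
    rw [e]
    exact hd
  have hcomm : ∀ H ∈ V, ∀ (Y : Mat N) (i j : Fin N), (Oᵀ * (H * Y - Y * H) * O) i j = (cf O i H - cf O j H) * (Oᵀ * Y * O) i j := by
    intro H hH Y i j
    have := hat_comm h1 (d := fun i => cf O i H) Y i j
    rwa [← hd H hH] at this
  -- the weights as functionals on `V`
  let α : Fin N × Fin N → Module.Dual ℝ V := fun ij => (cf O ij.1 - cf O ij.2).domRestrict V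
  have hα : ∀ ij (H : V), α ij H = cf O ij.1 (H : Mat N) - cf O ij.2 (H : Mat N) := fun ij H => rfl
  obtain ⟨H₀, hH₀⟩ : ∃ H₀ : V, ∀ p : (Fin N × Fin N) × (Fin N × Fin N), α p.1 H₀ = α p.2 H₀ → α p.1 = α p.2 := by
    obtain ⟨x, hx⟩ := Module.Dual.exists_forall_ne_zero_of_forall_exists
      (K := ℝ) (M := V) (ι := {p : (Fin N × Fin N) × (Fin N × Fin N) // α p.1 ≠ α p.2})
      (fun p => α p.1.1 - α p.1.2) (fun p => by
        by_contra hn
        push Not at hn
        apply p.2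
        ext x
        have := hn x
        rw [LinearMap.sub_apply, sub_eq_zero] at this
        exact this)
    refine ⟨x, fun p hp => ?_⟩
    by_contra hne
    apply hx ⟨p, hne⟩
    rw [LinearMap.sub_apply, sub_eq_zero]
    exact hp
  have hadL : ∀ Y ∈ L, (H₀ : Mat N) * Y - Y * (H₀ : Mat N) ∈ L := by
    intro Y hY
    rw [hLm] at hY ⊢
    exact lie_bracket hG (hV.mem _ H₀.2) hY
  let vals : Finset ℝ := Finset.univ.image fun kl : Fin N × Fin N => α kl H₀
  let q : ℝ → Polynomial ℝ := fun ν => Lagrange.interpolate vals id (fun μ => if μ = ν then 1 else 0)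
  have hq : ∀ ν (kl : Fin N × Fin N), (q ν).eval (α kl H₀) = if α kl H₀ = ν then 1 else 0 := by
    intro ν kl
    have hmem : α kl H₀ ∈ vals := Finset.mem_image_of_mem _ (Finset.mem_univ _)
    exact Lagrange.eval_interpolate_at_node (s := vals) (v := id) (r := fun μ => if μ = ν then (1 : ℝ) else 0)
      (i := α kl H₀) (fun a _ b _ h => h) hmem
  let X : ℝ → Mat N := fun ν => Polynomial.aeval (adM (H₀ : Mat N)) (q ν) Y
  have hX : ∀ ν k l, (Oᵀ * X ν * O) k l = if α (k, l) H₀ = ν then (Oᵀ * Y * O) k l else 0 := by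
    intro ν k l
    have e := aeval_hat h1 (d := fun i => cf O i (H₀ : Mat N)) (q ν) Y k l
    rw [← hd _ H₀.2] at e
    change (Oᵀ * Polynomial.aeval (adM (H₀ : Mat N)) (q ν) Y * O) k l = _
    rw [e]
    have e2 := hq ν (k, l)
    rw [hα] at e2
    rw [e2, ← hα]
    split_ifs <;> simp
  have hsum : Y = ∑ ν ∈ vals, X ν := by
    apply hat_inj h2
    intro k l
    rw [Matrix.mul_sum, Matrix.sum_mul, Matrix.sum_apply, Finset.sum_congr rfl fun ν _ => hX ν k l]
    rw [Finset.sum_ite_eq, if_pos (Finset.mem_image_of_mem _ (Finset.mem_univ _))]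
  rw [hsum]
  refine Submodule.sum_mem _ fun ν hν => Submodule.subset_span ?_
  obtain ⟨kl, -, rfl⟩ := Finset.mem_image.1 hν
  obtain ⟨D, hD⟩ := fn_surjective hV.symm (α kl)
  refine ⟨D, D.2, (hLm _).1 (aeval_mem hadL _ Y ((hLm _).2 hY)), fun H hH => ?_⟩
  have e0 : ((D : Mat N) * H).trace = α kl ⟨H, hH⟩ := by
    rw [← hD]
    rfl
  rw [e0]
  apply hat_inj h2
  intro k l
  rw [hcomm _ hH, Matrix.mul_smul, Matrix.smul_mul, Matrix.smul_apply, smul_eq_mul]
  have e3 := hX (α kl H₀) k l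
  change (cf O k H - cf O l H) * (Oᵀ * X (α kl H₀) * O) k l = α kl ⟨H, hH⟩ * (Oᵀ * X (α kl H₀) * O) k l
  rw [e3]
  split_ifs with h
  · have := hH₀ ((k, l), kl) h
    have h3 : α (k, l) ⟨H, hH⟩ = α kl ⟨H, hH⟩ := by rw [this]
    rw [← h3, hα]
  · rw [mul_zero, mul_zero]

end Decomp

section Ideal

variable {N : ℕ} {G : Subgroup (GL (Fin N) ℝ)}

/-- The generators of the ideal of a set of roots. -/
def gens (G : Subgroup (GL (Fin N) ℝ)) (V : Submodule ℝ (Mat N)) (S : Set (Mat N)) : Set (Mat N) :=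
  {X | ∃ C ∈ S, Wt G V C X} ∪ {W | ∃ C ∈ S, ∃ X Y, Wt G V C X ∧ Wt G V (-C) Y ∧ W = X * Y - Y * X}

variable {V : Submodule ℝ (Mat N)} {S : Set (Mat N)}

private theorem sum_not {C D : Mat N} (hV : IsFlat G V) (hS : S ⊆ Rt G V)
    (ho : ∀ A ∈ S, ∀ B ∈ Rt G V, B ∉ S → (A * B).trace = 0) (hC : C ∈ S) (hD : D ∈ Rt G V) (hDS : D ∉ S) {Z : Mat N}
    (hZ : Wt G V (D + C) Z) : Z = 0 := by
  by_contra hne
  have hCV := (hS hC).1
  have hc := trace_self_pos (hV.symm _ hCV) (hS hC).2.1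
  have hd := trace_self_pos (hV.symm _ hD.1) hD.2.1
  have h1 : (C * D).trace = 0 := ho C hC D hD hDS
  have h2 : (D * C).trace = 0 := by rw [Matrix.trace_mul_comm]; exact h1
  have h3 : D + C ≠ 0 := by
    intro h
    have h4 : ((D + C) * D).trace = (D * D).trace := by rw [Matrix.add_mul, Matrix.trace_add, h1, add_zero]
    rw [h, Matrix.zero_mul, Matrix.trace_zero] at h4
    exact hd.ne h4
  have h4 : D + C ∈ Rt G V := ⟨V.add_mem hD.1 hCV, h3, Z, hne, hZ⟩
  by_cases h5 : D + C ∈ S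
  · have h6 := ho _ h5 D hD hDS
    rw [Matrix.add_mul, Matrix.trace_add, h1, add_zero] at h6
    exact hd.ne' h6
  · have h6 := ho C hC _ h4 h5
    rw [Matrix.mul_add, Matrix.trace_add, h1, zero_add] at h6
    exact hc.ne' h6

private theorem sum_mem {C D : Mat N} (hV : IsFlat G V) (hS : S ⊆ Rt G V)
    (ho : ∀ A ∈ S, ∀ B ∈ Rt G V, B ∉ S → (A * B).trace = 0) (hC : C ∈ S) (hD : D ∈ S) {Z : Mat N} (hne : Z ≠ 0)
    (hZ : Wt G V (D + C) Z) (h0 : D + C ≠ 0) : D + C ∈ S := by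
  have h4 : D + C ∈ Rt G V := ⟨V.add_mem (hS hD).1 (hS hC).1, h0, Z, hne, hZ⟩
  by_contra h5
  have h6 := ho C hC _ h4 h5
  have h7 := ho D hD _ h4 h5
  have h8 : ((D + C) * (D + C)).trace = 0 := by rw [Matrix.add_mul, Matrix.trace_add, h6, h7, add_zero]
  exact (trace_self_pos (hV.symm _ h4.1) h0).ne' h8

private theorem jac (Z X Y : Mat N) : Z * (X * Y - Y * X) - (X * Y - Y * X) * Z =
    ((Z * X - X * Z) * Y - Y * (Z * X - X * Z)) + (X * (Z * Y - Y * Z) - (Z * Y - Y * Z) * X) := by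
  noncomm_ring

private theorem wt_zero_add {D X : Mat N} (h : Wt G V (0 + D) X) : Wt G V D X := by rwa [zero_add] at h

/-- The span of the generators is an ideal. -/
theorem bracket_gens (hG : IsClosed (G : Set (GL (Fin N) ℝ))) (hV : IsFlat G V) (hS : S ⊆ Rt G V)
    (ho : ∀ A ∈ S, ∀ B ∈ Rt G V, B ∉ S → (A * B).trace = 0) (hneg : ∀ A ∈ S, -A ∈ S) {Z W : Mat N} (hZ : Z ∈ lie G)
    (hW : W ∈ Submodule.span ℝ (gens G V S)) : Z * W - W * Z ∈ Submodule.span ℝ (gens G V S) := by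
  -- it is enough to consider weight vectors
  have key : ∀ (D Z W : Mat N), D ∈ V → Wt G V D Z → W ∈ gens G V S → Z * W - W * Z ∈ Submodule.span ℝ (gens G V S) := by
    intro D Z W hDV hZ hW
    by_cases hZ0 : Z = 0
    · rw [hZ0, Matrix.zero_mul, Matrix.mul_zero, sub_zero]
      exact Submodule.zero_mem _
    by_cases hD0 : D = 0
    · rw [hD0] at hZ
      rcases hW with ⟨C, hC, hW⟩ | ⟨C, hC, X, Y, hX, hY, rfl⟩
      · exact Submodule.subset_span (Or.inl ⟨C, hC, wt_zero_add (hZ.bracket hG hW)⟩)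
      · rw [jac]
        refine Submodule.add_mem _ (Submodule.subset_span (Or.inr ⟨C, hC, _, _, wt_zero_add (hZ.bracket hG hX), hY, rfl⟩))
          (Submodule.subset_span (Or.inr ⟨C, hC, _, _, hX, wt_zero_add (hZ.bracket hG hY), rfl⟩))
    have hD : D ∈ Rt G V := ⟨hDV, hD0, Z, hZ0, hZ⟩
    by_cases hDS : D ∈ S
    · rcases hW with ⟨C, hC, hW⟩ | ⟨C, hC, X, Y, hX, hY, rfl⟩
      · have h1 := hZ.bracket hG hW
        by_cases h2 : Z * W - W * Z = 0
        · rw [h2]
          exact Submodule.zero_mem _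
        by_cases h3 : D + C = 0
        · have h4 : C = -D := by rw [← sub_eq_zero, sub_neg_eq_add, add_comm]; exact h3
          rw [h4] at hW
          exact Submodule.subset_span (Or.inr ⟨D, hDS, Z, W, hZ, hW, rfl⟩)
        · exact Submodule.subset_span (Or.inl ⟨_, sum_mem hV hS ho hC hDS h2 h1 h3, h1⟩)
      · have h1 := hZ.bracket hG (hX.bracket hG hY)
        rw [add_neg_cancel, add_zero] at h1
        exact Submodule.subset_span (Or.inl ⟨D, hDS, h1⟩)
    · have h0 : ∀ C ∈ S, ∀ X, Wt G V C X → Z * X - X * Z = 0 := fun C hC X hX =>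
        sum_not hV hS ho hC hD hDS (hZ.bracket hG hX)
      rcases hW with ⟨C, hC, hW⟩ | ⟨C, hC, X, Y, hX, hY, rfl⟩
      · rw [h0 C hC W hW]
        exact Submodule.zero_mem _
      · rw [jac, h0 C hC X hX, h0 _ (hneg C hC) Y hY]
        simp only [Matrix.zero_mul, Matrix.mul_zero, sub_zero, add_zero]
        exact Submodule.zero_mem _
  -- linearity
  have k2 : ∀ W ∈ gens G V S, ∀ Z ∈ Submodule.span ℝ {Z | ∃ D ∈ V, Wt G V D Z}, Z * W - W * Z ∈ Submodule.span ℝ (gens G V S) := by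
    intro W hW Z hZ
    refine Submodule.span_induction ?_ ?_ ?_ ?_ hZ
    · rintro Z ⟨D, hD, hZ⟩
      exact key D Z W hD hZ hW
    · rw [Matrix.zero_mul, Matrix.mul_zero, sub_zero]
      exact Submodule.zero_mem _
    · intro Z Z' _ _ h1 h2
      have e : (Z + Z') * W - W * (Z + Z') = (Z * W - W * Z) + (Z' * W - W * Z') := by
        rw [Matrix.add_mul, Matrix.mul_add]
        abel
      rw [e]
      exact Submodule.add_mem _ h1 h2
    · intro c Z _ h1
      rw [Matrix.smul_mul, Matrix.mul_smul, ← smul_sub]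
      exact Submodule.smul_mem _ c h1
  refine Submodule.span_induction ?_ ?_ ?_ ?_ hW
  · intro W hW
    exact k2 W hW Z (decomp hG hV hZ)
  · rw [Matrix.zero_mul, Matrix.mul_zero, sub_zero]
    exact Submodule.zero_mem _
  · intro W W' _ _ h1 h2
    have e : Z * (W + W') - (W + W') * Z = (Z * W - W * Z) + (Z * W' - W' * Z) := by
      rw [Matrix.add_mul, Matrix.mul_add]
      abel
    rw [e]
    exact Submodule.add_mem _ h1 h2
  · intro c W _ h1
    rw [Matrix.smul_mul, Matrix.mul_smul, ← smul_sub]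
    exact Submodule.smul_mem _ c h1

/-- The root vectors of the other roots commute with the ideal. -/
theorem comm_gens (hG : IsClosed (G : Set (GL (Fin N) ℝ))) (hV : IsFlat G V) (hS : S ⊆ Rt G V)
    (ho : ∀ A ∈ S, ∀ B ∈ Rt G V, B ∉ S → (A * B).trace = 0) (hneg : ∀ A ∈ S, -A ∈ S) {D Z W : Mat N} (hD : D ∈ Rt G V) (hDS : D ∉ S)
    (hZ : Wt G V D Z) (hW : W ∈ Submodule.span ℝ (gens G V S)) : Z * W - W * Z = 0 := by
  have h0 : ∀ C ∈ S, ∀ X, Wt G V C X → Z * X - X * Z = 0 := fun C hC X hX =>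
    sum_not hV hS ho hC hD hDS (hZ.bracket hG hX)
  refine Submodule.span_induction ?_ ?_ ?_ ?_ hW
  · rintro W (⟨C, hC, hW⟩ | ⟨C, hC, X, Y, hX, hY, rfl⟩)
    · exact h0 C hC W hW
    · rw [jac, h0 C hC X hX, h0 _ (hneg C hC) Y hY]
      simp only [Matrix.zero_mul, Matrix.mul_zero, sub_zero, add_zero]
  · rw [Matrix.zero_mul, Matrix.mul_zero, sub_zero]
  · intro W W' _ _ h1 h2
    have e : Z * (W + W') - (W + W') * Z = (Z * W - W * Z) + (Z * W' - W' * Z) := by
      rw [Matrix.add_mul, Matrix.mul_add]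
      abel
    rw [e, h1, h2, add_zero]
  · intro c W _ h1
    rw [Matrix.smul_mul, Matrix.mul_smul, ← smul_sub, h1, smul_zero]

end Ideal

section Simple

variable {L : Type} [LieRing L] [LieAlgebra ℝ L] {N : ℕ}

/-- The restricted root system of a simple Lie algebra is irreducible. -/
theorem irr_of_simple (hs : LieAlgebra.IsSimple ℝ L) {θ : L ≃ₗ⁅ℝ⁆ L} {b : Module.Basis (Fin N) ℝ L} (h : CartanBasis θ b)
    {G : Subgroup (GL (Fin N) ℝ)} (hG : IsAdj b G) {A : Submodule ℝ L} (hA : MaxFlat θ A) :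
    Irr (vec N '' Rt G (A.map (TT_to b))) := by
  have hSA := selfAdj_of_aut h hG
  have hV := isFlat_map h hG hA
  have hR := rs_rt hSA.closed (fun X hX => lie_transpose hSA hX) hV (max_map h hG hA)
  have hlie : lie G = lie (autG b) := lie_eq' hG.aut (Pool.Agent.Helper96.SA.lie_sub h hG)
  intro S' hS' hne hort
  by_contra hcon
  -- pull back to matrices
  obtain ⟨S, hS⟩ : ∃ S : Set (Mat N), S = {C | C ∈ Rt G (A.map (TT_to b)) ∧ vec N C ∈ S'} := ⟨_, rfl⟩
  have hSR : S ⊆ Rt G (A.map (TT_to b)) := fun C hC => by rw [hS] at hC; exact hC.1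
  have ho : ∀ C ∈ S, ∀ D ∈ Rt G (A.map (TT_to b)), D ∉ S → (C * D).trace = 0 := by
    intro C hC D hD hDS
    rw [hS] at hC hDS
    rw [← inner_vec (hV.symm _ hC.1.1)]
    exact hort _ hC.2 _ ⟨D, hD, rfl⟩ fun h1 => hDS ⟨hD, h1⟩
  have hneg : ∀ C ∈ S, -C ∈ S := by
    intro C hC
    by_contra h1
    have h2 : vec N C ∈ vec N '' Rt G (A.map (TT_to b)) := ⟨C, hSR hC, rfl⟩
    have h3 := hR.neg h2
    obtain ⟨C', hC', h4⟩ := h3
    have h5 : C' = -C := vec_injective (by rw [h4, map_neg])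
    rw [h5] at hC'
    have h6 := ho C hC _ hC' h1
    rw [Matrix.mul_neg, Matrix.trace_neg, neg_eq_zero] at h6
    exact (trace_self_pos (hV.symm _ (hSR hC).1) (hSR hC).2.1).ne' h6
  obtain ⟨C, hC⟩ : S.Nonempty := by
    obtain ⟨x, hx⟩ := hne
    obtain ⟨C, hC, rfl⟩ := hS' hx
    exact ⟨C, by rw [hS]; exact ⟨hC, hx⟩⟩
  obtain ⟨D, hD, hDS⟩ : ∃ D ∈ Rt G (A.map (TT_to b)), D ∉ S := by
    by_contra h1
    push Not at h1
    apply hcon
    refine Set.Subset.antisymm hS' ?_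
    rintro _ ⟨D, hD, rfl⟩
    have h2 := h1 D hD
    rw [hS] at h2
    exact h2.2
  obtain ⟨-, hC0, X, hX0, hX⟩ := hSR hC
  have hD' := hD
  obtain ⟨hDV, hD0, Z, hZ0, hZ⟩ := hD'
  -- the ideal
  let I : LieIdeal ℝ L :=
    { (Submodule.span ℝ (gens G (A.map (TT_to b)) S)).comap (TT_to b) with
      lie_mem := fun {x m} hm => by
        change TT_to b ⁅x, m⁆ ∈ Submodule.span ℝ (gens G (A.map (TT_to b)) S)
        rw [TT_lie_to]
        exact bracket_gens hSA.closed hV hSR ho hneg (by rw [hlie]; exact TT_mem_to b x) hm }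
  have hI : ∀ x, x ∈ I ↔ TT_to b x ∈ Submodule.span ℝ (gens G (A.map (TT_to b)) S) := fun x => Iff.rfl
  have hXmem := hX.1
  rw [hlie] at hXmem
  obtain ⟨x, hx⟩ := TT_surj_to h hXmem
  have hxI : x ∈ I := by
    rw [hI, hx]
    exact Submodule.subset_span (Or.inl ⟨C, hC, hX⟩)
  obtain ⟨d, hd, hdD⟩ := hDV
  have hdI : d ∉ I := by
    intro h1
    rw [hI, hdD] at h1
    have h2 := comm_gens hSA.closed hV hSR ho hneg hD hDS hZ h1
    have h3 := hZ.2 D ⟨d, hd, hdD⟩
    have h4 : (D * D).trace • Z = 0 := by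
      rw [← h3, ← neg_eq_zero, neg_sub]
      exact h2
    rcases smul_eq_zero.1 h4 with h5 | h5
    · exact (trace_self_pos (hV.symm _ hD.1) hD0).ne' h5
    · exact hZ0 h5
  rcases hs.eq_bot_or_eq_top I with h1 | h1
  · rw [h1, LieSubmodule.mem_bot] at hxI
    rw [hxI, map_zero] at hx
    exact hX0 hx.symm
  · rw [h1] at hdI
    exact hdI (LieSubmodule.mem_top d)

end Simple

end Pool.Agent.Helper96.TO
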