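import Mathlib
import Pool.Agent.Helper96.SA.Root2
import Pool.Agent.Helper96.TO.Cmb

/-!
# Project TO (MP_0f6f3f_an): the restricted roots of a self-adjoint group form a root system

`V` is a maximal space of commuting symmetric matrices in `lie G`. `Rt G V`: the restricted roots, identified with elements of `V` by the trace form. `rt_refl`: integrality and reflections (root strings).
-/

set_option autoImplicit false

open Matrix

namespace Pool.Agent.Helper96.TO

open Pool.Agent.Helper96.SA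

variable {N : ℕ} {G : Subgroup (GL (Fin N) ℝ)}

/-- `Z` is in the weight space of `C`. -/
def Wt (G : Subgroup (GL (Fin N) ℝ)) (V : Submodule ℝ (Mat N)) (C Z : Mat N) : Prop :=
  Z ∈ lie G ∧ ∀ H ∈ V, H * Z - Z * H = (C * H).trace • Z

/-- The restricted roots, as elements of `V`. -/
def Rt (G : Subgroup (GL (Fin N) ℝ)) (V : Submodule ℝ (Mat N)) : Set (Mat N) :=
  {C | C ∈ V ∧ C ≠ 0 ∧ ∃ X, X ≠ 0 ∧ Wt G V C X}

theorem Wt.bracket {V : Submodule ℝ (Mat N)} (hG : IsClosed (G : Set (GL (Fin N) ℝ))) {C D X Y : Mat N} (hX : Wt G V C X)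
    (hY : Wt G V D Y) : Wt G V (C + D) (X * Y - Y * X) := by
  refine ⟨lie_bracket hG hX.1 hY.1, fun H hH => ?_⟩
  have h1 := hX.2 H hH
  have h2 := hY.2 H hH
  have e1 : H * X = X * H + (C * H).trace • X := by rw [← h1]; abel
  have e2 : H * Y = Y * H + (D * H).trace • Y := by rw [← h2]; abel
  have k1 : H * (X * Y) = X * Y * H + ((C * H).trace + (D * H).trace) • (X * Y) := by
    rw [← Matrix.mul_assoc, e1, Matrix.add_mul, Matrix.mul_assoc X H Y, e2, Matrix.mul_add, Matrix.mul_smul, Matrix.smul_mul,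
      add_smul, Matrix.mul_assoc]
    abel
  have k2 : H * (Y * X) = Y * X * H + ((C * H).trace + (D * H).trace) • (Y * X) := by
    rw [← Matrix.mul_assoc, e2, Matrix.add_mul, Matrix.mul_assoc Y H X, e1, Matrix.mul_add, Matrix.mul_smul, Matrix.smul_mul,
      add_smul, Matrix.mul_assoc]
    abel
  rw [Matrix.mul_sub, Matrix.sub_mul, k1, k2, Matrix.add_mul, Matrix.trace_add, smul_sub]
  abel

theorem Wt.smul {V : Submodule ℝ (Mat N)} (hG : IsClosed (G : Set (GL (Fin N) ℝ))) {C X : Mat N} (hX : Wt G V C X) (c : ℝ) :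
    Wt G V C (c • X) := by
  obtain ⟨L, hL⟩ := lie_submodule hG
  refine ⟨?_, fun H hH => ?_⟩
  · have h1 : X ∈ L := by
      have := hX.1
      rw [← hL] at this
      exact this
    have h2 := L.smul_mem c h1
    have h3 : c • X ∈ (L : Set (Mat N)) := h2
    rwa [hL] at h3
  · rw [Matrix.mul_smul, Matrix.smul_mul, ← smul_sub, hX.2 H hH, smul_comm]

theorem Wt.transpose {V : Submodule ℝ (Mat N)} (ht : ∀ X ∈ lie G, Xᵀ ∈ lie G) (hs : ∀ X ∈ V, Xᵀ = X) {C X : Mat N}
    (hX : Wt G V C X) : Wt G V (-C) Xᵀ := by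
  refine ⟨ht _ hX.1, fun H hH => ?_⟩
  have h1 := congrArg Matrix.transpose (hX.2 H hH)
  rw [Matrix.transpose_sub, Matrix.transpose_mul, Matrix.transpose_mul, Matrix.transpose_smul, hs H hH] at h1
  rw [Matrix.neg_mul, Matrix.trace_neg, neg_smul, ← h1]
  abel

theorem trace_self_pos {B : Mat N} (hB : Bᵀ = B) (h0 : B ≠ 0) : 0 < (B * B).trace := by
  have h1 : (B * B).trace = ∑ i, ∑ j, B i j ^ 2 := by
    unfold Matrix.trace
    refine Finset.sum_congr rfl fun i _ => ?_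
    rw [Matrix.diag_apply, Matrix.mul_apply]
    refine Finset.sum_congr rfl fun j _ => ?_
    have : B j i = B i j := by
      conv_rhs => rw [← hB]
      rfl
    rw [this, pow_two]
  rw [h1]
  by_contra hcon
  rw [not_lt] at hcon
  have h2 : ∑ i, ∑ j, B i j ^ 2 = 0 :=
    le_antisymm hcon (Finset.sum_nonneg fun i _ => Finset.sum_nonneg fun j _ => sq_nonneg _)
  apply h0
  ext i j
  have h3 := (Finset.sum_eq_zero_iff_of_nonneg fun i _ =>
    Finset.sum_nonneg fun j _ => sq_nonneg (B i j)).1 h2 i (Finset.mem_univ i)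
  have h4 := (Finset.sum_eq_zero_iff_of_nonneg fun j _ => sq_nonneg (B i j)).1 h3 j (Finset.mem_univ j)
  rw [Matrix.zero_apply]
  exact pow_eq_zero_iff two_ne_zero |>.1 h4

/-- The bracket of a root vector with its transpose. -/
theorem coroot (hG : IsClosed (G : Set (GL (Fin N) ℝ))) (ht : ∀ X ∈ lie G, Xᵀ ∈ lie G)
    {V : Submodule ℝ (Mat N)} (hV : IsFlat G V)
    (hmax : ∀ Y ∈ lie G, Yᵀ = Y → (∀ H ∈ V, Y * H = H * Y) → Y ∈ V) {B X : Mat N} (hB : B ∈ V) (hX : Wt G V B X) :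
    X * Xᵀ - Xᵀ * X = (X * Xᵀ).trace • B := by
  have hT : (X * Xᵀ - Xᵀ * X)ᵀ = X * Xᵀ - Xᵀ * X := by
    rw [Matrix.transpose_sub, Matrix.transpose_mul, Matrix.transpose_mul, Matrix.transpose_transpose]
  have hXt := hX.transpose ht hV.symm
  have hmem : X * Xᵀ - Xᵀ * X ∈ V := by
    refine hmax _ (lie_bracket hG hX.1 (ht X hX.1)) hT fun H hH => ?_
    have h1 := (hX.bracket hG hXt).2 H hH
    rw [add_neg_cancel, Matrix.zero_mul, Matrix.trace_zero, zero_smul] at h1
    exact (sub_eq_zero.1 h1).symm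
  have htr : ∀ H ∈ V, ((X * Xᵀ - Xᵀ * X) * H).trace = (X * Xᵀ).trace * (B * H).trace := by
    intro H hH
    have h1 := hX.2 H hH
    have e1 : H * X = X * H + (B * H).trace • X := by rw [← h1]; abel
    have k1 : (X * Xᵀ * H).trace = (Xᵀ * (H * X)).trace := by
      rw [Matrix.mul_assoc, Matrix.trace_mul_comm, Matrix.mul_assoc]
    rw [Matrix.sub_mul, Matrix.trace_sub, k1, e1, Matrix.mul_add, Matrix.mul_smul, Matrix.trace_add, Matrix.trace_smul,
      Matrix.mul_assoc, smul_eq_mul, Matrix.trace_mul_comm Xᵀ X]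
    ring
  have hD : X * Xᵀ - Xᵀ * X - (X * Xᵀ).trace • B ∈ V := V.sub_mem hmem (V.smul_mem _ hB)
  by_contra hne
  have h0 := trace_self_pos (hV.symm _ hD) (sub_ne_zero.2 hne)
  have h1 : ((X * Xᵀ - Xᵀ * X - (X * Xᵀ).trace • B) * (X * Xᵀ - Xᵀ * X - (X * Xᵀ).trace • B)).trace = 0 := by
    rw [Matrix.sub_mul (X * Xᵀ - Xᵀ * X), Matrix.trace_sub, htr _ hD, Matrix.smul_mul, Matrix.trace_smul, smul_eq_mul, sub_self]
  exact h0.ne' h1

theorem trace_mul_transpose_pos {X : Mat N} (h : X ≠ 0) : 0 < (X * Xᵀ).trace := by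
  have h1 : (X * Xᵀ).trace = ∑ i, ∑ j, X i j ^ 2 := by
    unfold Matrix.trace
    refine Finset.sum_congr rfl fun i _ => ?_
    rw [Matrix.diag_apply, Matrix.mul_apply]
    refine Finset.sum_congr rfl fun j _ => ?_
    rw [Matrix.transpose_apply, pow_two]
  rw [h1]
  by_contra hcon
  rw [not_lt] at hcon
  have h2 : ∑ i, ∑ j, X i j ^ 2 = 0 :=
    le_antisymm hcon (Finset.sum_nonneg fun i _ => Finset.sum_nonneg fun j _ => sq_nonneg _)
  apply h
  ext i j
  have h3 := (Finset.sum_eq_zero_iff_of_nonneg fun i _ =>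
    Finset.sum_nonneg fun j _ => sq_nonneg (X i j)).1 h2 i (Finset.mem_univ i)
  have h4 := (Finset.sum_eq_zero_iff_of_nonneg fun j _ => sq_nonneg (X i j)).1 h3 j (Finset.mem_univ j)
  rw [Matrix.zero_apply]
  exact pow_eq_zero_iff two_ne_zero |>.1 h4

attribute [local instance 100] LieRing.ofAssociativeRing

/-- Reflections, nonnegative case. -/
theorem refl_nonneg (hG : IsClosed (G : Set (GL (Fin N) ℝ))) (ht : ∀ X ∈ lie G, Xᵀ ∈ lie G)
    {V : Submodule ℝ (Mat N)} (hV : IsFlat G V)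
    (hmax : ∀ Y ∈ lie G, Yᵀ = Y → (∀ H ∈ V, Y * H = H * Y) → Y ∈ V) {A B : Mat N} (hA : A ∈ Rt G V) (hB : B ∈ Rt G V)
    (h0 : 0 ≤ (A * B).trace) : ∃ n : ℤ, 2 * (A * B).trace = n * (B * B).trace ∧ ∃ Z, Z ≠ 0 ∧ Wt G V (A - (n : ℝ) • B) Z := by
  obtain ⟨hAV, hA0, Y, hY0, hY⟩ := hA
  obtain ⟨hBV, hB0, X, hX0, hX⟩ := hB
  have hβ := trace_self_pos (hV.symm _ hBV) hB0
  have hx := trace_mul_transpose_pos hX0
  obtain ⟨c, hc⟩ : ∃ c : ℝ, c = 2 / ((X * Xᵀ).trace * (B * B).trace) := ⟨_, rfl⟩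
  have hT := coroot hG ht hV hmax hBV hX
  have hXt := hX.transpose ht hV.symm
  have hf := hXt.smul hG c
  -- the triple
  have t : IsSl2Triple ((2 / (B * B).trace) • B) X (c • Xᵀ) := by
    refine ⟨smul_ne_zero (by positivity) hB0, ?_, ?_, ?_⟩
    · rw [Ring.lie_def, Matrix.mul_smul, Matrix.smul_mul, ← smul_sub, hT, smul_smul, hc]
      congr 1
      field_simp
    · rw [Ring.lie_def, Matrix.mul_smul, Matrix.smul_mul, ← smul_sub, hX.2 _ hBV, smul_smul, ← Nat.cast_smul_eq_nsmul ℝ]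
      congr 1
      field_simp
      norm_num
    · rw [Ring.lie_def, Matrix.smul_mul, Matrix.mul_smul (c • Xᵀ), ← smul_sub, hf.2 _ hBV, Matrix.neg_mul, Matrix.trace_neg,
        smul_smul, ← Nat.cast_smul_eq_nsmul ℝ, ← neg_smul]
      congr 1
      field_simp
      norm_num
  obtain ⟨μ, hμ⟩ : ∃ μ : ℝ, μ = 2 * (A * B).trace / (B * B).trace := ⟨_, rfl⟩
  have hμ0 : 0 ≤ μ := by rw [hμ]; positivity
  have hYμ : ⁅(2 / (B * B).trace) • B, Y⁆ = μ • Y := by
    rw [Ring.lie_def, Matrix.mul_smul, Matrix.smul_mul, ← smul_sub, hY.2 _ hBV, smul_smul, hμ]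
    congr 1
    field_simp
  -- the string upwards
  have up : ∀ k : ℕ, Wt G V (A + (k : ℝ) • B) (((LieModule.toEnd ℝ (Mat N) (Mat N) X) ^ k) Y) := by
    intro k
    induction k with
    | zero => simpa using hY
    | succ k ih =>
      rw [pow_succ', Module.End.mul_apply, LieModule.toEnd_apply_apply, Ring.lie_def]
      have h1 := hX.bracket hG ih
      have e : B + (A + (k : ℝ) • B) = A + ((k + 1 : ℕ) : ℝ) • B := by
        push_cast
        rw [add_smul, one_smul]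
        abel
      rwa [e] at h1
  have hz : ∃ k : ℕ, ((LieModule.toEnd ℝ (Mat N) (Mat N) X) ^ k) Y = 0 := by
    by_contra! contra
    let evals (n : ℕ) : ℝ := μ + 2 * (n : ℝ)
    have h_inj : Function.Injective evals := fun a b hab => by
      simpa [evals, add_right_inj, mul_eq_mul_left_iff, Nat.cast_inj] using hab
    have aux (ν : Set.range evals) : (LieModule.toEnd ℝ (Mat N) (Mat N) ((2 / (B * B).trace) • B)).HasEigenvector ν
        (((LieModule.toEnd ℝ (Mat N) (Mat N) X) ^ (ν.property.choose)) Y) := by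
      set n := ν.property.choose
      refine ⟨?_, contra n⟩
      rw [Module.End.mem_eigenspace_iff, LieModule.toEnd_apply_apply, ← ν.property.choose_spec]
      exact t.lie_h_pow_toEnd_e hYμ n
    have _i := ((LieModule.toEnd ℝ (Mat N) (Mat N) ((2 / (B * B).trace) • B)).eigenvectors_linearIndependent
      (Set.range evals) _ aux).finite
    exact (Set.infinite_range_of_injective h_inj) (Set.toFinite _)
  obtain ⟨k, hk, hk'⟩ := Nat.exists_not_and_succ_of_not_zero_of_exists (p := fun k =>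
    ((LieModule.toEnd ℝ (Mat N) (Mat N) X) ^ k) Y = 0) (by simpa using hY0) hz
  have P : t.HasPrimitiveVectorWith (((LieModule.toEnd ℝ (Mat N) (Mat N) X) ^ k) Y) (μ + 2 * (k : ℝ)) :=
    { ne_zero := hk
      lie_h := t.lie_h_pow_toEnd_e hYμ k
      lie_e := by rw [IsSl2Triple.lie_e_pow_toEnd_e k]; exact hk' }
  obtain ⟨n, hn⟩ := P.exists_nat
  have hkn : k ≤ n := by
    have h1 : (k : ℝ) ≤ n := by
      rw [← hn]
      have : (0 : ℝ) ≤ k := Nat.cast_nonneg k
      linarith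
    exact_mod_cast h1
  have hj := P.pow_toEnd_f_ne_zero_of_eq_nat hn (i := n - k) (Nat.sub_le _ _)
  -- the string downwards
  have dn : ∀ j : ℕ, Wt G V (A + (k : ℝ) • B - (j : ℝ) • B)
      (((LieModule.toEnd ℝ (Mat N) (Mat N) (c • Xᵀ)) ^ j) (((LieModule.toEnd ℝ (Mat N) (Mat N) X) ^ k) Y)) := by
    intro j
    induction j with
    | zero => simpa using up k
    | succ j ih =>
      rw [pow_succ' (LieModule.toEnd ℝ (Mat N) (Mat N) (c • Xᵀ)), Module.End.mul_apply, LieModule.toEnd_apply_apply, Ring.lie_def]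
      have h1 := hf.bracket hG ih
      have e : -B + (A + (k : ℝ) • B - (j : ℝ) • B) = A + (k : ℝ) • B - ((j + 1 : ℕ) : ℝ) • B := by
        push_cast
        rw [add_smul, one_smul]
        abel
      rwa [e] at h1
  have hμn : μ = (((n : ℤ) - 2 * k : ℤ) : ℝ) := by
    push_cast
    linarith
  refine ⟨(n : ℤ) - 2 * k, ?_, _, hj, ?_⟩
  · rw [← hμn, hμ]
    field_simp
  · have h1 := dn (n - k)
    have e : A + (k : ℝ) • B - ((n - k : ℕ) : ℝ) • B = A - (((n : ℤ) - 2 * k : ℤ) : ℝ) • B := by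
      rw [Nat.cast_sub hkn]
      push_cast
      rw [add_sub_assoc, ← sub_smul, sub_eq_add_neg A, ← neg_smul]
      congr 2
      ring
    rwa [e] at h1

/-- The restricted roots are stable under integral reflections. -/
theorem rt_refl (hG : IsClosed (G : Set (GL (Fin N) ℝ))) (ht : ∀ X ∈ lie G, Xᵀ ∈ lie G)
    {V : Submodule ℝ (Mat N)} (hV : IsFlat G V)
    (hmax : ∀ Y ∈ lie G, Yᵀ = Y → (∀ H ∈ V, Y * H = H * Y) → Y ∈ V) {A B : Mat N} (hA : A ∈ Rt G V) (hB : B ∈ Rt G V) :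
    ∃ n : ℤ, 2 * (A * B).trace = n * (B * B).trace ∧ A - (n : ℝ) • B ∈ Rt G V := by
  have hβ := trace_self_pos (hV.symm _ hB.1) hB.2.1
  have hne : ∀ n : ℤ, 2 * (A * B).trace = n * (B * B).trace → A - (n : ℝ) • B ≠ 0 := by
    intro n hn h0
    have h1 : A = (n : ℝ) • B := sub_eq_zero.1 h0
    rw [h1, Matrix.smul_mul, Matrix.trace_smul, smul_eq_mul] at hn
    have h2 : (n : ℝ) * (B * B).trace = 0 := by linarith
    have h3 := (mul_eq_zero.1 h2).resolve_right hβ.ne'
    rw [h3, zero_smul] at h1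
    exact hA.2.1 h1
  rcases le_total 0 (A * B).trace with h0 | h0
  · obtain ⟨n, hn, Z, hZ0, hZ⟩ := refl_nonneg hG ht hV hmax hA hB h0
    exact ⟨n, hn, V.sub_mem hA.1 (V.smul_mem _ hB.1), hne n hn, Z, hZ0, hZ⟩
  · have hB' : -B ∈ Rt G V := by
      obtain ⟨h1, h2, X, hX0, hX⟩ := hB
      refine ⟨V.neg_mem h1, neg_ne_zero.2 h2, Xᵀ, fun h => hX0 ?_, hX.transpose ht hV.symm⟩
      rw [← Matrix.transpose_transpose X, h, Matrix.transpose_zero]
    obtain ⟨n, hn, Z, hZ0, hZ⟩ := refl_nonneg hG ht hV hmax hA hB' (by rw [Matrix.mul_neg, Matrix.trace_neg]; linarith)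
    have hn' : 2 * (A * B).trace = ((-n : ℤ) : ℝ) * (B * B).trace := by
      rw [Matrix.mul_neg, Matrix.trace_neg, neg_mul_neg] at hn
      push_cast
      linarith
    have e : A - (n : ℝ) • (-B) = A - ((-n : ℤ) : ℝ) • B := by
      push_cast
      rw [smul_neg, neg_smul]
    rw [e] at hZ
    exact ⟨-n, hn', V.sub_mem hA.1 (V.smul_mem _ hB.1), hne _ hn', Z, hZ0, hZ⟩

end Pool.Agent.Helper96.TO
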