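import Pool.Agent.Helper96.SA.GE
import Pool.Agent.Helper96.TO.Str

/-!
# Project TO (MP_0f6f3f_an): commuting rank one subgroups from strongly orthogonal restricted roots

`Comm2 G`: there are a discrete nonamenable subgroup `F` of `G` and elements `a`, `u`, `w` which commute with `F` such that `u` and `w` are contracted by conjugation with `a⁻¹`, `a`, and generate a discrete nonamenable subgroup.
-/

set_option autoImplicit false

open Matrix Topology Filter

namespace Pool.Agent.Helper96.TO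

open Pool.Agent.Helper96.FR Pool.Agent.Helper96.SA
open Pool.Agent.Helper90.RK (NonAm)

variable {N : ℕ} {G : Subgroup (GL (Fin N) ℝ)}

private theorem ex_comm66 {X Y : Mat N} (h : X * Y = Y * X) : ex X * ex Y = ex Y * ex X := by
  rw [← ex_add h, ← ex_add h.symm, add_comm]

/-- the spectral theorem -/
private theorem spec66 {H : Mat N} (hs : Hᵀ = H) : ∃ (O : Mat N) (d : Fin N → ℝ), Oᵀ * O = 1 ∧ O * Oᵀ = 1 ∧
    H = O * diagonal d * Oᵀ := by
  have hH : H.IsHermitian := by
    unfold Matrix.IsHermitian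
    rw [Matrix.conjTranspose_eq_transpose_of_trivial, hs]
  refine ⟨hH.eigenvectorUnitary, hH.eigenvalues, ?_, ?_, ?_⟩
  · have h := Unitary.coe_star_mul_self hH.eigenvectorUnitary
    rwa [Matrix.star_eq_conjTranspose, Matrix.conjTranspose_eq_transpose_of_trivial] at h
  · have h := Unitary.coe_mul_star_self hH.eigenvectorUnitary
    rwa [Unitary.coe_star, Matrix.star_eq_conjTranspose, Matrix.conjTranspose_eq_transpose_of_trivial] at h
  · have h := hH.spectral_theorem
    rw [Unitary.conjStarAlgAut_apply, Matrix.star_eq_conjTranspose,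
      Matrix.conjTranspose_eq_transpose_of_trivial] at h
    exact h

private theorem smul_spec66 (O : Mat N) (d : Fin N → ℝ) (t : ℝ) :
    t • (O * diagonal d * Oᵀ) = O * diagonal (fun i => t * d i) * Oᵀ := by
  have e : diagonal (fun i => t * d i) = t • diagonal d := by
    rw [← Matrix.diagonal_smul]
    rfl
  rw [e, Matrix.mul_smul, Matrix.smul_mul]

/-- conjugation by the exponential -/
private theorem conj66 {H X : Mat N} (hs : Hᵀ = H) (h : H * X - X * H = X) (t : ℝ) :
    NormedSpace.exp (-(t • H)) * X * NormedSpace.exp (t • H) = Real.exp (-t) • X := by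
  obtain ⟨O, d, h1, h2, rfl⟩ := spec66 hs
  have e1 : -(t • (O * diagonal d * Oᵀ)) = O * diagonal (fun i => -t * d i) * Oᵀ := by
    rw [← neg_smul, smul_spec66]
  rw [e1, smul_spec66, exp_diag O h1 h2, exp_diag O h1 h2]
  -- in the basis of eigenvectors
  have key : diagonal (fun i => Real.exp (-t * d i)) * (Oᵀ * X * O) * diagonal (fun i => Real.exp (t * d i)) =
      Real.exp (-t) • (Oᵀ * X * O) := by
    have h3 : diagonal d * (Oᵀ * X * O) - (Oᵀ * X * O) * diagonal d = Oᵀ * X * O := by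
      have h4 : Oᵀ * (O * diagonal d * Oᵀ * X - X * (O * diagonal d * Oᵀ)) * O = Oᵀ * X * O := by rw [h]
      refine Eq.trans ?_ h4
      rw [Matrix.mul_sub, Matrix.sub_mul]
      congr 1
      · calc diagonal d * (Oᵀ * X * O) = 1 * diagonal d * Oᵀ * X * O := by
              rw [Matrix.one_mul]; simp only [Matrix.mul_assoc]
          _ = Oᵀ * O * diagonal d * Oᵀ * X * O := by rw [h1]
          _ = _ := by simp only [Matrix.mul_assoc]
      · calc Oᵀ * X * O * diagonal d = Oᵀ * X * O * diagonal d * 1 := by rw [Matrix.mul_one]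
          _ = Oᵀ * X * O * diagonal d * (Oᵀ * O) := by rw [h1]
          _ = _ := by simp only [Matrix.mul_assoc]
    ext i j
    have h5 := congrFun (congrFun h3 i) j
    rw [Matrix.sub_apply, Matrix.diagonal_mul, Matrix.mul_diagonal] at h5
    rw [Matrix.mul_diagonal, Matrix.diagonal_mul, Matrix.smul_apply, smul_eq_mul]
    set y := (Oᵀ * X * O) i j with hy
    by_cases hy0 : y = 0
    · rw [hy0]
      ring
    · have h6 : d i - d j = 1 := by
        have : (d i - d j) * y = 1 * y := by linarith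
        exact mul_right_cancel₀ hy0 this
      have h7 : Real.exp (-t * d i) * y * Real.exp (t * d j) = Real.exp (-t * d i + t * d j) * y := by
        rw [Real.exp_add]
        ring
      rw [h7]
      congr 2
      have : d i = d j + 1 := by linarith
      rw [this]
      ring
  calc O * diagonal (fun i => Real.exp (-t * d i)) * Oᵀ * X * (O * diagonal (fun i => Real.exp (t * d i)) * Oᵀ) =
      O * (diagonal (fun i => Real.exp (-t * d i)) * (Oᵀ * X * O) * diagonal (fun i => Real.exp (t * d i))) * Oᵀ := by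
        simp only [Matrix.mul_assoc]
    _ = O * (Real.exp (-t) • (Oᵀ * X * O)) * Oᵀ := by rw [key]
    _ = Real.exp (-t) • (O * Oᵀ * X * (O * Oᵀ)) := by
        rw [Matrix.mul_smul, Matrix.smul_mul]
        simp only [Matrix.mul_assoc]
    _ = Real.exp (-t) • X := by rw [h2, Matrix.one_mul, Matrix.mul_one]

private theorem conjT66 {H X : Mat N} (hs : Hᵀ = H) (h : H * X - X * H = X) (t : ℝ) :
    NormedSpace.exp (t • H) * Xᵀ * NormedSpace.exp (-(t • H)) = Real.exp (-t) • Xᵀ := by
  have h1 := congrArg Matrix.transpose (conj66 hs h t)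
  rw [Matrix.transpose_mul, Matrix.transpose_mul, Matrix.transpose_smul, ← Matrix.exp_transpose,
    ← Matrix.exp_transpose, Matrix.transpose_neg, Matrix.transpose_smul, hs, ← Matrix.mul_assoc] at h1
  exact h1

/-- conjugation in the group -/
private theorem gconj66 {H X : Mat N} (hs : Hᵀ = H) (h : H * X - X * H = X) (s : ℝ) (m : ℕ) :
    (ex H ^ m)⁻¹ * ex (s • X) * ex H ^ m = ex ((s * Real.exp (-(m : ℝ))) • X) := by
  have h1 := ex_conj ((ex H ^ m)⁻¹) (s • X)
  rw [inv_inv] at h1
  rw [← h1]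
  congr 1
  have e1 : ((ex H ^ m : GL (Fin N) ℝ) : Mat N) = NormedSpace.exp ((m : ℝ) • H) := by
    rw [← ex_nsmul, ex_coe]
  have e2 : (((ex H ^ m)⁻¹ : GL (Fin N) ℝ) : Mat N) = NormedSpace.exp (-((m : ℝ) • H)) := by
    rw [← ex_nsmul, ← ex_neg, ex_coe]
  rw [e1, e2, Matrix.mul_smul, Matrix.smul_mul, conj66 hs h, smul_smul]

private theorem gconjT66 {H X : Mat N} (hs : Hᵀ = H) (h : H * X - X * H = X) (s : ℝ) (m : ℕ) :
    ex H ^ m * ex (s • Xᵀ) * (ex H ^ m)⁻¹ = ex ((s * Real.exp (-(m : ℝ))) • Xᵀ) := by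
  have h1 := ex_conj (ex H ^ m) (s • Xᵀ)
  rw [← h1]
  congr 1
  have e1 : ((ex H ^ m : GL (Fin N) ℝ) : Mat N) = NormedSpace.exp ((m : ℝ) • H) := by
    rw [← ex_nsmul, ex_coe]
  have e2 : (((ex H ^ m)⁻¹ : GL (Fin N) ℝ) : Mat N) = NormedSpace.exp (-((m : ℝ) • H)) := by
    rw [← ex_nsmul, ← ex_neg, ex_coe]
  rw [e1, e2, Matrix.mul_smul, Matrix.smul_mul, conjT66 hs h, smul_smul]

private theorem tend66 (X : Mat N) (s : ℝ) :
    Tendsto (fun m : ℕ => ex ((s * Real.exp (-(m : ℝ))) • X)) atTop (𝓝 1) := by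
  have h1 : Tendsto (fun m : ℕ => (s * Real.exp (-(m : ℝ))) • X) atTop (𝓝 ((s * 0) • X)) := by
    refine Tendsto.smul_const (Tendsto.const_mul s ?_) X
    exact (Real.tendsto_exp_neg_atTop_nhds_zero).comp tendsto_natCast_atTop_atTop
  rw [mul_zero, zero_smul] at h1
  have h2 := (continuous_ex.tendsto (0 : Mat N)).comp h1
  rwa [ex_zero] at h2

/-- the powers tend to infinity -/
private theorem infty66 {H : Mat N} (hs : Hᵀ = H) (hH : H ≠ 0) (a : G) (ha : (a : GL (Fin N) ℝ) = ex H) :
    Tendsto (fun m : ℕ => a ^ m) atTop (cocompact G) := by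
  obtain ⟨O, d, h1, h2, hd⟩ := spec66 hs
  have hd0 : ∃ i, d i ≠ 0 := by
    by_contra hcon
    push Not at hcon
    apply hH
    have e : d = 0 := funext hcon
    rw [hd, e]
    simp
  obtain ⟨i0, hi0⟩ := hd0
  let F : G → ℝ := fun g => ((g : GL (Fin N) ℝ) : Mat N).trace + (((g : GL (Fin N) ℝ)⁻¹ : GL (Fin N) ℝ) : Mat N).trace
  have hF : Continuous F := by
    have c1 : Continuous fun g : G => ((g : GL (Fin N) ℝ) : Mat N) := Units.continuous_val.comp continuous_subtype_val
    have c2 : Continuous fun g : G => (((g : GL (Fin N) ℝ)⁻¹ : GL (Fin N) ℝ) : Mat N) :=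
      Units.continuous_val.comp (continuous_inv.comp continuous_subtype_val)
    exact c1.matrix_trace.add c2.matrix_trace
  have htr : ∀ e : Fin N → ℝ, (O * diagonal e * Oᵀ).trace = ∑ i, e i := by
    intro e
    rw [Matrix.trace_mul_comm, ← Matrix.mul_assoc, h1, Matrix.one_mul, Matrix.trace_diagonal]
  have hlow : ∀ m : ℕ, (m : ℝ) * |d i0| ≤ F (a ^ m) := by
    intro m
    have e1 : (((a ^ m : G) : GL (Fin N) ℝ) : Mat N) = O * diagonal (fun i => Real.exp (m * d i)) * Oᵀ := by
      rw [SubmonoidClass.coe_pow, ha, ← ex_nsmul, ex_coe, hd, smul_spec66, exp_diag O h1 h2]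
    have e2 : ((((a ^ m : G) : GL (Fin N) ℝ)⁻¹ : GL (Fin N) ℝ) : Mat N) =
        O * diagonal (fun i => Real.exp (-m * d i)) * Oᵀ := by
      rw [SubmonoidClass.coe_pow, ha, ← ex_nsmul, ← ex_neg, ex_coe, hd, ← neg_smul, smul_spec66, exp_diag O h1 h2]
    change _ ≤ (((a ^ m : G) : GL (Fin N) ℝ) : Mat N).trace + ((((a ^ m : G) : GL (Fin N) ℝ)⁻¹ : GL (Fin N) ℝ) : Mat N).trace
    rw [e1, e2, htr, htr]
    have h3 : Real.exp (m * d i0) ≤ ∑ i, Real.exp (m * d i) :=
      Finset.single_le_sum (f := fun i => Real.exp (m * d i)) (fun _ _ => (Real.exp_pos _).le) (Finset.mem_univ i0)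
    have h4 : Real.exp (-m * d i0) ≤ ∑ i, Real.exp (-m * d i) :=
      Finset.single_le_sum (f := fun i => Real.exp (-m * d i)) (fun _ _ => (Real.exp_pos _).le) (Finset.mem_univ i0)
    have h5 := Real.add_one_le_exp ((m : ℝ) * d i0)
    have h6 := Real.add_one_le_exp (-(m : ℝ) * d i0)
    have h7 := Real.exp_pos ((m : ℝ) * d i0)
    have h8 := Real.exp_pos (-(m : ℝ) * d i0)
    rcases abs_cases (d i0) with ⟨h9, _⟩ | ⟨h9, _⟩
    · rw [h9]
      linarith
    · rw [h9]
      linarith
  have hlim : Tendsto (fun m : ℕ => F (a ^ m)) atTop atTop := by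
    refine tendsto_atTop_mono hlow ?_
    exact Tendsto.atTop_mul_const (abs_pos.2 hi0) tendsto_natCast_atTop_atTop
  rw [Filter.tendsto_def]
  intro s hs'
  obtain ⟨K, hK, hKs⟩ := mem_cocompact.1 hs'
  obtain ⟨B, hB⟩ := (hK.image hF).bddAbove
  filter_upwards [hlim.eventually (eventually_gt_atTop B)] with m hm
  refine hKs fun hmK => ?_
  exact absurd (hB ⟨a ^ m, hmK, rfl⟩) (not_le.2 hm)

private theorem map66 (x y : G) : (Subgroup.closure {x, y}).map G.subtype =
    Subgroup.closure {(x : GL (Fin N) ℝ), (y : GL (Fin N) ℝ)} := by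
  rw [MonoidHom.map_closure, Set.image_pair]
  rfl

private theorem disc66 (x y : G) (h : DiscreteTopology (Subgroup.closure {(x : GL (Fin N) ℝ), (y : GL (Fin N) ℝ)})) :
    DiscreteTopology (Subgroup.closure {x, y}) := by
  rw [← map66] at h
  let f : Subgroup.closure {x, y} → (Subgroup.closure {x, y}).map G.subtype :=
    fun z => ⟨((z : G) : GL (Fin N) ℝ), ⟨z, z.2, rfl⟩⟩
  have hf : Continuous f := by
    refine Continuous.subtype_mk ?_ _
    exact continuous_subtype_val.comp continuous_subtype_val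
  refine DiscreteTopology.of_continuous_injective hf fun z z' hzz => ?_
  have h2 : (f z : GL (Fin N) ℝ) = f z' := by rw [hzz]
  exact Subtype.ext (Subtype.ext h2)

private theorem nonam66 (x y : G) (h : Pool.Agent.Helper90.RK.NonAm (Subgroup.closure {(x : GL (Fin N) ℝ), (y : GL (Fin N) ℝ)})) :
    Pool.Agent.Helper90.RK.NonAm (Subgroup.closure {x, y}) := by
  rw [Pool.Agent.Helper66.RK.nonAm_iff] at h ⊢
  intro hA
  apply h
  rw [← map66]
  exact hA.congr ((Subgroup.closure {x, y}).equivMapOfInjective G.subtype G.subtype_injective)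

/-- Two commuting subgroups of rank one. -/
def Comm2 (G : Type) [Group G] [TopologicalSpace G] : Prop :=
  ∃ (F : Subgroup G) (a u w : G), DiscreteTopology F ∧ Countable F ∧ NonAm F ∧
    (∀ f ∈ F, a * f = f * a ∧ u * f = f * u ∧ w * f = f * w) ∧
    Tendsto (fun m : ℕ => a ^ m) atTop (cocompact G) ∧
    Tendsto (fun m : ℕ => (a ^ m)⁻¹ * u * a ^ m) atTop (𝓝 1) ∧
    Tendsto (fun m : ℕ => a ^ m * w * (a ^ m)⁻¹) atTop (𝓝 1) ∧
    DiscreteTopology (Subgroup.closure {u, w}) ∧ NonAm (Subgroup.closure {u, w})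

private theorem comm_closure {M : Type} [Group M] {x y z : M} (hx : z * x = x * z) (hy : z * y = y * z) :
    ∀ f ∈ Subgroup.closure {x, y}, z * f = f * z := by
  intro f hf
  have h1 : Subgroup.closure {x, y} ≤ Subgroup.centralizer {z} := by
    rw [Subgroup.closure_le]
    rintro t (rfl | rfl)
    · exact Subgroup.mem_centralizer_iff.2 fun s hs => by rw [Set.mem_singleton_iff.1 hs]; exact hx
    · exact Subgroup.mem_centralizer_iff.2 fun s hs => by rw [Set.mem_singleton_iff.1 hs]; exact hy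
  exact Subgroup.mem_centralizer_iff.1 (h1 hf) z rfl

private theorem countable_closure {M : Type} [Group M] (x y : M) : Countable (Subgroup.closure {x, y}) := by
  have h : (FreeGroup.lift (fun t : Bool => if t then x else y)).range = Subgroup.closure {x, y} := by
    rw [FreeGroup.range_lift_eq_closure]
    congr 1
    ext g
    constructor
    · rintro ⟨t, rfl⟩
      cases t with
      | true => exact Or.inl rfl
      | false => exact Or.inr rfl
    · rintro (rfl | rfl)
      · exact ⟨true, rfl⟩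
      · exact ⟨false, rfl⟩
  rw [← h]
  exact Function.Surjective.countable (MonoidHom.rangeRestrict_surjective (FreeGroup.lift (fun t : Bool => if t then x else y)))

/-- Strongly orthogonal restricted roots. -/
theorem comm2_of_roots (hG : IsClosed (G : Set (GL (Fin N) ℝ))) (ht : ∀ X ∈ lie G, Xᵀ ∈ lie G)
    {V : Submodule ℝ (Mat N)} (hV : IsFlat G V)
    (hmax : ∀ Y ∈ lie G, Yᵀ = Y → (∀ H ∈ V, Y * H = H * Y) → Y ∈ V) {A B : Mat N} (hA : A ∈ Rt G V) (hB : B ∈ Rt G V)
    (h0 : (A * B).trace = 0) (h1 : A + B ∉ Rt G V) (h2 : A - B ∉ Rt G V) : Comm2 G := by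
  obtain ⟨hAV, hA0, X, hX0, hX⟩ := hA
  obtain ⟨hBV, hB0, Y, hY0, hY⟩ := hB
  have h0' : (B * A).trace = 0 := by rw [Matrix.trace_mul_comm]; exact h0
  have hα := trace_self_pos (hV.symm _ hAV) hA0
  have hβ := trace_self_pos (hV.symm _ hBV) hB0
  have hXt := hX.transpose ht hV.symm
  have hYt := hY.transpose ht hV.symm
  -- the root vectors commute
  have e1 : X * Y = Y * X := by
    by_contra hne
    refine h1 ⟨V.add_mem hAV hBV, ?_, _, sub_ne_zero.2 hne, hX.bracket hG hY⟩
    intro h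
    have h3 : ((A + B) * (A + B)).trace = (A * A).trace + (B * B).trace := by
      rw [Matrix.add_mul, Matrix.mul_add, Matrix.mul_add, Matrix.trace_add, Matrix.trace_add, Matrix.trace_add, h0, h0']
      ring
    rw [h, Matrix.zero_mul, Matrix.trace_zero] at h3
    linarith
  have e2 : X * Yᵀ = Yᵀ * X := by
    by_contra hne
    have h5 := hX.bracket hG hYt
    rw [← sub_eq_add_neg] at h5
    refine h2 ⟨V.sub_mem hAV hBV, ?_, _, sub_ne_zero.2 hne, h5⟩
    intro h
    have h3 : ((A - B) * (A - B)).trace = (A * A).trace + (B * B).trace := by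
      rw [Matrix.sub_mul, Matrix.mul_sub, Matrix.mul_sub, Matrix.trace_sub, Matrix.trace_sub, Matrix.trace_sub, h0, h0']
      ring
    rw [h, Matrix.zero_mul, Matrix.trace_zero] at h3
    linarith
  have e3 : Xᵀ * Yᵀ = Yᵀ * Xᵀ := by
    have h := congrArg Matrix.transpose e1
    rw [Matrix.transpose_mul, Matrix.transpose_mul] at h
    exact h.symm
  have e4 : Xᵀ * Y = Y * Xᵀ := by
    have h := congrArg Matrix.transpose e2
    rw [Matrix.transpose_mul, Matrix.transpose_mul, Matrix.transpose_transpose] at h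
    exact h.symm
  -- the element `H`
  obtain ⟨H, hH⟩ : ∃ H : Mat N, H = (1 / (B * B).trace) • B := ⟨_, rfl⟩
  have hHV : H ∈ V := by rw [hH]; exact V.smul_mem _ hBV
  have hs : Hᵀ = H := hV.symm _ hHV
  have hHY : H * Y - Y * H = Y := by
    rw [hY.2 _ hHV, hH, Matrix.mul_smul, Matrix.trace_smul, smul_eq_mul, one_div, inv_mul_cancel₀ hβ.ne', one_smul]
  have hHX : H * X = X * H := by
    rw [← sub_eq_zero, hX.2 _ hHV, hH, Matrix.mul_smul, Matrix.trace_smul, h0, smul_zero, zero_smul]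
  have hHXt : H * Xᵀ = Xᵀ * H := by
    have h := congrArg Matrix.transpose hHX
    rw [Matrix.transpose_mul, Matrix.transpose_mul, hs] at h
    exact h.symm
  -- the triples
  have key : ∀ (C Z : Mat N), C ∈ V → C ≠ 0 → Z ≠ 0 → Wt G V C Z → ∃ s : ℝ, 0 < s ∧
      DiscreteTopology (Subgroup.closure {ex (s • Z), ex (s • Zᵀ)}) ∧ NonAm (Subgroup.closure {ex (s • Z), ex (s • Zᵀ)}) := by
    intro C Z hC hC0 hZ0 hZ
    have hγ := trace_self_pos (hV.symm _ hC) hC0
    have hz := trace_mul_transpose_pos hZ0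
    refine discrete_nonAm Z hZ0 ((Z * Zᵀ).trace * (C * C).trace) (by positivity) ?_
    rw [coroot hG ht hV hmax hC hZ, Matrix.smul_mul, Matrix.mul_smul, ← smul_sub, hZ.2 _ hC, smul_smul]
  obtain ⟨s, -, s1, s2⟩ := key A X hAV hA0 hX0 hX
  obtain ⟨r, -, r1, r2⟩ := key B Y hBV hB0 hY0 hY
  let x : G := ⟨ex (s • X), mem_lie.1 hX.1 s⟩
  let x' : G := ⟨ex (s • Xᵀ), mem_lie.1 hXt.1 s⟩
  let u : G := ⟨ex (r • Y), mem_lie.1 hY.1 r⟩
  let w : G := ⟨ex (r • Yᵀ), mem_lie.1 hYt.1 r⟩
  let a : G := ⟨ex H, by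
    have h := mem_lie.1 (hV.mem _ hHV) 1
    rwa [one_smul] at h⟩
  have sc : ∀ (P Q : Mat N) (p q : ℝ), P * Q = Q * P → ex (p • P) * ex (q • Q) = ex (q • Q) * ex (p • P) := by
    intro P Q p q h
    refine ex_comm66 ?_
    rw [Matrix.mul_smul, Matrix.smul_mul, Matrix.mul_smul, Matrix.smul_mul, h, smul_comm]
  have sc1 : ∀ (Q : Mat N) (q : ℝ), H * Q = Q * H → ex H * ex (q • Q) = ex (q • Q) * ex H := by
    intro Q q h
    refine ex_comm66 ?_
    rw [Matrix.mul_smul, Matrix.smul_mul, h]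
  refine ⟨Subgroup.closure {x, x'}, a, u, w, disc66 x x' s1, ?_, nonam66 x x' s2, ?_, ?_, ?_, ?_, disc66 u w r1, nonam66 u w r2⟩
  · exact countable_closure x x'
  · intro f hf
    refine ⟨comm_closure ?_ ?_ f hf, comm_closure ?_ ?_ f hf, comm_closure ?_ ?_ f hf⟩
    · exact Subtype.ext (sc1 X s hHX)
    · exact Subtype.ext (sc1 Xᵀ s hHXt)
    · exact Subtype.ext (sc Y X r s e1.symm)
    · exact Subtype.ext (sc Y Xᵀ r s e4.symm)
    · exact Subtype.ext (sc Yᵀ X r s e2.symm)
    · exact Subtype.ext (sc Yᵀ Xᵀ r s e3.symm)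
  · refine infty66 hs ?_ a rfl
    intro h
    apply hY0
    rw [h, zero_mul, mul_zero, sub_zero] at hHY
    exact hHY.symm
  · rw [tendsto_subtype_rng]
    refine (tend66 Y r).congr fun m => ?_
    exact (gconj66 hs hHY r m).symm
  · rw [tendsto_subtype_rng]
    refine (tend66 Yᵀ r).congr fun m => ?_
    exact (gconjT66 hs hHY r m).symm

end Pool.Agent.Helper96.TO
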